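import Mathlib

/-!
# DCN / AVG: the mean of `∑ d ∣ m, f d`
-/

set_option autoImplicit false

open Filter Topology

namespace Pool.Agent.DCN

private theorem avg_swap (f : ℕ → ℝ) (N : ℕ) :
    ∑ m ∈ Finset.Icc 1 N, ∑ d ∈ m.divisors, f d
      = ∑ d ∈ Finset.Icc 1 N, f d * ((N / d : ℕ) : ℝ) := by
  have h1 : ∀ m ∈ Finset.Icc 1 N, ∑ d ∈ m.divisors, f d
      = ∑ d ∈ Finset.Icc 1 N, if d ∣ m then f d else 0 := by
    intro m hm
    rw [← Finset.sum_filter]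
    apply Finset.sum_congr _ (fun _ _ => rfl)
    ext d
    have hm1 := Finset.mem_Icc.mp hm
    simp only [Nat.mem_divisors, Finset.mem_filter, Finset.mem_Icc]
    constructor
    · rintro ⟨h, h0⟩
      exact ⟨⟨Nat.pos_of_dvd_of_pos h (by omega), (Nat.le_of_dvd (by omega) h).trans hm1.2⟩, h⟩
    · rintro ⟨_, h⟩
      exact ⟨h, by omega⟩
  rw [Finset.sum_congr rfl h1, Finset.sum_comm]
  refine Finset.sum_congr rfl fun d _ => ?_
  rw [← Finset.sum_filter, Finset.sum_const, nsmul_eq_mul, mul_comm]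
  have h2 : Finset.Icc 1 N = Finset.Ioc 0 N := rfl
  rw [h2, Nat.Ioc_filter_dvd_card_eq_div]

private theorem avg_abel (f : ℕ → ℝ) (C : ℝ) (hC : ∀ n : ℕ, |∑ k ∈ Finset.Icc 1 n, f k| ≤ C)
    (g : ℕ → ℝ) (D : ℕ) (hg : ∀ k, D ≤ k → g (k + 1) ≤ g k) (hg0 : ∀ k, 0 ≤ g k) (N : ℕ)
    (hN : D ≤ N) :
    |∑ k ∈ Finset.Ioc D N, f k * g k - (∑ k ∈ Finset.Icc 1 N, f k) * g N|
      ≤ C * (2 * g D - g N) := by
  induction N, hN using Nat.le_induction with
  | base =>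
    rw [Finset.Ioc_self, Finset.sum_empty, zero_sub, abs_neg, abs_mul, abs_of_nonneg (hg0 D)]
    have := mul_le_mul_of_nonneg_right (hC D) (hg0 D)
    linarith
  | succ N hN ih =>
    have h1 : ∑ k ∈ Finset.Ioc D (N + 1), f k * g k
        = ∑ k ∈ Finset.Ioc D N, f k * g k + f (N + 1) * g (N + 1) :=
      Finset.sum_Ioc_succ_top hN _
    have h2 : ∑ k ∈ Finset.Icc 1 (N + 1), f k = ∑ k ∈ Finset.Icc 1 N, f k + f (N + 1) :=
      Finset.sum_Icc_succ_top (by omega) _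
    rw [h1, h2]
    have h3 : ∑ k ∈ Finset.Ioc D N, f k * g k + f (N + 1) * g (N + 1)
        - (∑ k ∈ Finset.Icc 1 N, f k + f (N + 1)) * g (N + 1)
        = (∑ k ∈ Finset.Ioc D N, f k * g k - (∑ k ∈ Finset.Icc 1 N, f k) * g N)
          + (∑ k ∈ Finset.Icc 1 N, f k) * (g N - g (N + 1)) := by ring
    rw [h3]
    refine (abs_add_le _ _).trans ?_
    rw [abs_mul, abs_of_nonneg (sub_nonneg.mpr (hg N hN))]
    have h4 := mul_le_mul_of_nonneg_right (hC N) (sub_nonneg.mpr (hg N hN))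
    linarith

/-- row AVG -/
theorem dcn_avg (f : ℕ → ℝ) (C : ℝ) (hC : ∀ n : ℕ, |∑ k ∈ Finset.Icc 1 n, f k| ≤ C) (S : ℝ)
    (hS : Tendsto (fun N : ℕ => ∑ d ∈ Finset.Icc 1 N, f d / d) atTop (𝓝 S)) :
    Tendsto (fun N : ℕ => (∑ m ∈ Finset.Icc 1 N, ∑ d ∈ m.divisors, f d) / N) atTop (𝓝 S) := by
  have hC0 : 0 ≤ C := (abs_nonneg _).trans (hC 0)
  have hf : ∀ k, 1 ≤ k → |f k| ≤ 2 * C := by
    intro k hk
    obtain ⟨j, rfl⟩ : ∃ j, k = j + 1 := ⟨k - 1, by omega⟩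
    have h2 : ∑ k ∈ Finset.Icc 1 (j + 1), f k = ∑ k ∈ Finset.Icc 1 j, f k + f (j + 1) :=
      Finset.sum_Icc_succ_top (by omega) _
    have h3 : f (j + 1) = ∑ k ∈ Finset.Icc 1 (j + 1), f k - ∑ k ∈ Finset.Icc 1 j, f k := by
      rw [h2]; ring
    rw [h3]
    refine (abs_sub _ _).trans ?_
    have := hC (j + 1)
    have := hC j
    linarith
  rw [Metric.tendsto_atTop]
  intro ε hε
  rw [Metric.tendsto_atTop] at hS
  obtain ⟨D₀, hD₀⟩ := hS (ε / 4) (by linarith)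
  obtain ⟨D₁, hD₁⟩ := exists_nat_gt (8 * C / ε)
  set D : ℕ := max D₀ (max D₁ 1) with hD
  have hD1 : 1 ≤ D := (le_max_right _ _).trans (le_max_right _ _)
  have hDS := hD₀ D (le_max_left _ _)
  have hDC : 2 * C / (D : ℝ) ≤ ε / 4 := by
    have h1 : (D₁ : ℝ) ≤ D := by
      exact_mod_cast (le_max_left D₁ 1).trans (le_max_right D₀ _)
    have h2 : 8 * C / ε < D := lt_of_lt_of_le hD₁ h1
    have h3 : (0 : ℝ) < D := by exact_mod_cast hD1
    rw [div_lt_iff₀ hε] at h2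
    rw [div_le_iff₀ h3]
    linarith
  obtain ⟨N₁, hN₁⟩ := exists_nat_gt (8 * C * D / ε)
  refine ⟨max N₁ D, fun N hN => ?_⟩
  have hND : D ≤ N := (le_max_right _ _).trans hN
  have hN1 : 1 ≤ N := hD1.trans hND
  have hNr : (0 : ℝ) < N := by exact_mod_cast hN1
  have hDr : (0 : ℝ) < D := by exact_mod_cast hD1
  have hNC : 2 * C * D / (N : ℝ) ≤ ε / 4 := by
    have h1 : (N₁ : ℝ) ≤ N := by exact_mod_cast (le_max_left _ _).trans hN
    have h2 : 8 * C * D / ε < N := lt_of_lt_of_le hN₁ h1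
    rw [div_lt_iff₀ hε] at h2
    rw [div_le_iff₀ hNr]
    linarith
  -- the two parts
  have hsplit : ∑ d ∈ Finset.Icc 1 N, f d * ((N / d : ℕ) : ℝ)
      = ∑ d ∈ Finset.Icc 1 D, f d * ((N / d : ℕ) : ℝ)
        + ∑ d ∈ Finset.Ioc D N, f d * ((N / d : ℕ) : ℝ) := by
    have h1 : Finset.Icc 1 N = Finset.Ioc 0 N := rfl
    have h2 : Finset.Icc 1 D = Finset.Ioc 0 D := rfl
    rw [h1, h2, Finset.sum_Ioc_consecutive _ (Nat.zero_le D) hND]
  have hB : |∑ d ∈ Finset.Ioc D N, f d * ((N / d : ℕ) : ℝ)| ≤ 2 * C * (N / D) := by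
    have h1 := avg_abel f C hC (fun d => ((N / d : ℕ) : ℝ)) D (by
      intro k hk
      show ((N / (k + 1) : ℕ) : ℝ) ≤ ((N / k : ℕ) : ℝ)
      exact_mod_cast Nat.div_le_div_left (Nat.le_succ k) (by omega)) (fun k => Nat.cast_nonneg _)
      N hND
    have h2 := abs_le.mp h1
    have h3 := abs_le.mp (hC N)
    have h4 : (0 : ℝ) ≤ ((N / N : ℕ) : ℝ) := Nat.cast_nonneg _
    have h5 : ((N / D : ℕ) : ℝ) ≤ (N : ℝ) / D := Nat.cast_div_le
    have h6 : |(∑ k ∈ Finset.Icc 1 N, f k) * ((N / N : ℕ) : ℝ)| ≤ C * ((N / N : ℕ) : ℝ) := by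
      rw [abs_mul, abs_of_nonneg h4]
      exact mul_le_mul_of_nonneg_right (hC N) h4
    have h7 := abs_le.mp h6
    have h8 : C * ((N / D : ℕ) : ℝ) ≤ C * ((N : ℝ) / D) := mul_le_mul_of_nonneg_left h5 hC0
    rw [abs_le]
    constructor
    · nlinarith [h2.1, h7.1, h8]
    · nlinarith [h2.2, h7.2, h8]
  have hA : |∑ d ∈ Finset.Icc 1 D, f d * ((N / d : ℕ) : ℝ) - N * ∑ d ∈ Finset.Icc 1 D, f d / d|
      ≤ 2 * C * D := by
    rw [Finset.mul_sum, ← Finset.sum_sub_distrib]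
    refine (Finset.abs_sum_le_sum_abs _ _).trans ?_
    have h1 : ∀ d ∈ Finset.Icc 1 D,
        |f d * ((N / d : ℕ) : ℝ) - N * (f d / d)| ≤ 2 * C := by
      intro d hd
      have hd1 := (Finset.mem_Icc.mp hd).1
      have hdr : (0 : ℝ) < d := by exact_mod_cast hd1
      have h2 : f d * ((N / d : ℕ) : ℝ) - N * (f d / d) = f d * (((N / d : ℕ) : ℝ) - N / d) := by
        field_simp
      rw [h2, abs_mul]
      have h3 : |((N / d : ℕ) : ℝ) - N / d| ≤ 1 := by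
        have h4 : ((N / d : ℕ) : ℝ) ≤ (N : ℝ) / d := Nat.cast_div_le
        have h5 : (N : ℝ) / d < ((N / d : ℕ) : ℝ) + 1 := by
          rw [div_lt_iff₀ hdr]
          have h6 := Nat.lt_div_mul_add (a := N) hd1
          have h7 : N < (N / d + 1) * d := by
            calc N < N / d * d + d := h6
              _ = (N / d + 1) * d := by ring
          exact_mod_cast h7
        rw [abs_le]
        constructor <;> linarith
      calc |f d| * |((N / d : ℕ) : ℝ) - N / d| ≤ 2 * C * 1 :=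
            mul_le_mul (hf d hd1) h3 (abs_nonneg _) (by linarith)
        _ = 2 * C := mul_one _
    refine (Finset.sum_le_sum h1).trans ?_
    rw [Finset.sum_const, Nat.card_Icc, nsmul_eq_mul]
    simp only [Nat.add_sub_cancel]
    linarith
  rw [Real.dist_eq, avg_swap, hsplit]
  rw [Real.dist_eq] at hDS
  have hfin : (∑ d ∈ Finset.Icc 1 D, f d * ((N / d : ℕ) : ℝ)
        + ∑ d ∈ Finset.Ioc D N, f d * ((N / d : ℕ) : ℝ)) / N - S
      = (∑ d ∈ Finset.Icc 1 D, f d * ((N / d : ℕ) : ℝ) - N * ∑ d ∈ Finset.Icc 1 D, f d / d) / N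
        + (∑ d ∈ Finset.Ioc D N, f d * ((N / d : ℕ) : ℝ)) / N
        + (∑ d ∈ Finset.Icc 1 D, f d / d - S) := by
    field_simp
    ring
  rw [hfin]
  have e1 : |(∑ d ∈ Finset.Icc 1 D, f d * ((N / d : ℕ) : ℝ)
      - N * ∑ d ∈ Finset.Icc 1 D, f d / d) / N| ≤ ε / 4 := by
    rw [abs_div, abs_of_pos hNr]
    exact (div_le_div_of_nonneg_right hA hNr.le).trans hNC
  have e2 : |(∑ d ∈ Finset.Ioc D N, f d * ((N / d : ℕ) : ℝ)) / N| ≤ ε / 4 := by
    rw [abs_div, abs_of_pos hNr]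
    refine (div_le_div_of_nonneg_right hB hNr.le).trans ?_
    have : 2 * C * ((N : ℝ) / D) / N = 2 * C / D := by
      field_simp
    rw [this]
    exact hDC
  refine (abs_add_le _ _).trans_lt ?_
  have e3 := abs_add_le
    ((∑ d ∈ Finset.Icc 1 D, f d * ((N / d : ℕ) : ℝ) - N * ∑ d ∈ Finset.Icc 1 D, f d / d) / N)
    ((∑ d ∈ Finset.Ioc D N, f d * ((N / d : ℕ) : ℝ)) / N)
  linarith

end Pool.Agent.DCN
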