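import Mathlib

/-!
# DCN / BND: partial sums of the Legendre symbol
-/

set_option autoImplicit false

open Filter Topology

namespace Pool.Agent.DCN

private theorem bnd_range (p : ℕ) [Fact p.Prime] (hp : 2 < p) :
    ∑ k ∈ Finset.range p, legendreSym p (k : ℤ) = 0 := by
  have h1 : ∑ a : ZMod p, quadraticChar (ZMod p) a = 0 := by
    apply quadraticChar_sum_zero
    rw [ZMod.ringChar_zmod_n]
    omega
  rw [← h1]
  refine Finset.sum_nbij' (fun k => (k : ZMod p)) (fun a => a.val) ?_ ?_ ?_ ?_ ?_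
  · intro k _
    exact Finset.mem_univ _
  · intro a _
    exact Finset.mem_range.mpr (ZMod.val_lt a)
  · intro k hk
    exact ZMod.val_cast_of_lt (Finset.mem_range.mp hk)
  · intro a _
    exact ZMod.natCast_zmod_val a
  · intro k _
    unfold legendreSym
    simp

private theorem bnd_shift (p : ℕ) [Fact p.Prime] (hp : 2 < p) (n : ℕ) :
    ∑ k ∈ Finset.range (n + p), legendreSym p (k : ℤ)
      = ∑ k ∈ Finset.range n, legendreSym p (k : ℤ) := by
  induction n with
  | zero =>
    simpa using bnd_range p hp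
  | succ n ih =>
    rw [show n + 1 + p = (n + p) + 1 by ring, Finset.sum_range_succ, ih, Finset.sum_range_succ]
    congr 1
    unfold legendreSym
    push_cast
    simp

private theorem bnd_abs (p : ℕ) [Fact p.Prime] (k : ℤ) : |legendreSym p k| ≤ 1 := by
  by_cases h : (k : ZMod p) = 0
  · rw [(legendreSym.eq_zero_iff p k).mpr h]
    simp
  · rcases legendreSym.eq_one_or_neg_one p h with h1 | h1
    · rw [h1]; simp
    · rw [h1]; simp

private theorem bnd_int (p : ℕ) [Fact p.Prime] (hp : 2 < p) (n : ℕ) :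
    |∑ k ∈ Finset.range n, legendreSym p (k : ℤ)| ≤ p := by
  induction n using Nat.strong_induction_on with
  | _ n ih =>
    by_cases hn : n ≤ p
    · calc |∑ k ∈ Finset.range n, legendreSym p (k : ℤ)|
          ≤ ∑ k ∈ Finset.range n, |legendreSym p (k : ℤ)| := Finset.abs_sum_le_sum_abs _ _
        _ ≤ ∑ _k ∈ Finset.range n, (1 : ℤ) := Finset.sum_le_sum fun k _ => bnd_abs p k
        _ = n := by simp
        _ ≤ p := by exact_mod_cast hn
    · have h1 := bnd_shift p hp (n - p)
      rw [Nat.sub_add_cancel (by omega)] at h1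
      rw [h1]
      exact ih (n - p) (by omega)

/-- row BND -/
theorem dcn_bnd (p : ℕ) [Fact p.Prime] (hp : 2 < p) (n : ℕ) :
    |∑ k ∈ Finset.Icc 1 n, ((legendreSym p (k : ℤ) : ℤ) : ℝ)| ≤ p := by
  have h1 : ∑ k ∈ Finset.Icc 1 n, legendreSym p (k : ℤ)
      = ∑ k ∈ Finset.range (n + 1), legendreSym p (k : ℤ) := by
    rw [Finset.range_eq_Ico, Finset.sum_eq_sum_Ico_succ_bot (Nat.succ_pos n)]
    have h2 : legendreSym p ((0 : ℕ) : ℤ) = 0 := by
      rw [Nat.cast_zero]
      exact legendreSym.at_zero p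
    rw [h2, zero_add]
    rfl
  have h3 := bnd_int p hp (n + 1)
  rw [← h1] at h3
  have h4 : ((|∑ k ∈ Finset.Icc 1 n, legendreSym p (k : ℤ)| : ℤ) : ℝ) ≤ ((p : ℤ) : ℝ) :=
    Int.cast_le.mpr h3
  push_cast at h4
  exact h4

end Pool.Agent.DCN
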