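import Mathlib

/-! Definitions for the class number formula of the field of a square root of `-p`. -/

open NumberField

namespace Pool.Agent.DCN

/-- The number of integral ideals of norm `m`. -/
noncomputable def nid (K : Type) [Field K] [NumberField K] (m : ℕ) : ℕ :=
  Nat.card {I : Ideal (𝓞 K) // Ideal.absNorm I = m}

/-- The root of unity `exp (2 π i / p)`. -/
noncomputable def zt (p : ℕ) : ℂ := Complex.exp (2 * Real.pi * Complex.I / p)

/-- The Gauss sum of the quadratic character. -/
noncomputable def gau (p : ℕ) [Fact p.Prime] : ℂ :=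
  ∑ j ∈ Finset.range p, ((legendreSym p (j : ℤ) : ℤ) : ℂ) * zt p ^ j

/-- The product which equals the Gauss sum. -/
noncomputable def pro (p : ℕ) : ℂ :=
  ∏ k ∈ Finset.Icc 1 ((p - 1) / 2), (zt p ^ (2 * k - 1) - zt p ^ (p - (2 * k - 1)))

open Polynomial in
/-- The integer polynomial which vanishes at the root of unity. -/
noncomputable def gpol (p : ℕ) [Fact p.Prime] : ℤ[X] :=
  ∑ j ∈ Finset.range p, C (legendreSym p (j : ℤ)) * X ^ j

open Polynomial in
/-- The integer polynomial of the product. -/
noncomputable def ppol (p : ℕ) : ℤ[X] :=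
  ∏ k ∈ Finset.Icc 1 ((p - 1) / 2), (X ^ (2 * k - 1) - X ^ (p - (2 * k - 1)))

end Pool.Agent.DCN
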