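import Mathlib

/-! The ring of integers of an imaginary quadratic field of prime discriminant. -/

open NumberField Module

namespace Pool.Agent.DCN

section

variable {K : Type*} [Field K] [NumberField K] {p : ℕ} {a : K}

/-- the hypotheses on the field -/
structure Quad (p : ℕ) (K : Type*) [Field K] [NumberField K] (a : K) : Prop where
  prime : p.Prime
  mod : p % 4 = 3
  gt : 3 < p
  deg : Module.finrank ℚ K = 2
  sq : a ^ 2 = -(p : K)

theorem Quad.not_rat (h : Quad p K a) (r : ℚ) : a ≠ (r : K) := by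
  intro hr
  have h1 := h.sq
  rw [hr] at h1
  have h2 : ((r ^ 2 : ℚ) : K) = ((-(p : ℚ) : ℚ) : K) := by push_cast; exact h1
  have h3 : (r ^ 2 : ℚ) = -(p : ℚ) := Rat.cast_injective h2
  have h4 : (0 : ℚ) < p := by exact_mod_cast h.prime.pos
  nlinarith [sq_nonneg r]

theorem Quad.li (h : Quad p K a) : LinearIndependent ℚ ![(1 : K), a] := by
  rw [LinearIndependent.pair_iff]
  intro s t hst
  have ht : t = 0 := by
    by_contra ht
    have h1 : a = ((-s / t : ℚ) : K) := by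
      have ht' : (t : K) ≠ 0 := by exact_mod_cast ht
      push_cast
      rw [Algebra.smul_def, Algebra.smul_def] at hst
      simp only [eq_ratCast, mul_one] at hst
      field_simp
      linear_combination hst
    exact h.not_rat _ h1
  subst ht
  rw [zero_smul, add_zero, Algebra.smul_def, mul_one, eq_ratCast] at hst
  exact ⟨by exact_mod_cast hst, rfl⟩

/-- the rational basis 1, a -/
noncomputable def Quad.bas (h : Quad p K a) : Basis (Fin 2) ℚ K :=
  basisOfLinearIndependentOfCardEqFinrank h.li (by rw [h.deg]; rfl)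

theorem Quad.bas_zero (h : Quad p K a) : h.bas 0 = 1 := by
  simp [Quad.bas]

theorem Quad.bas_one (h : Quad p K a) : h.bas 1 = a := by
  simp [Quad.bas]

theorem Quad.exists_rs (h : Quad p K a) (x : K) : ∃ r s : ℚ, x = (r : K) + (s : K) * a := by
  refine ⟨h.bas.repr x 0, h.bas.repr x 1, ?_⟩
  have h1 := h.bas.sum_repr x
  rw [Fin.sum_univ_two, h.bas_zero, h.bas_one, Algebra.smul_def, Algebra.smul_def, mul_one,
    eq_ratCast, eq_ratCast] at h1
  exact h1.symm

theorem Quad.repr_rs (h : Quad p K a) (r s : ℚ) :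
    h.bas.repr ((r : K) + (s : K) * a) 0 = r ∧ h.bas.repr ((r : K) + (s : K) * a) 1 = s := by
  have h1 : (r : K) + (s : K) * a = r • h.bas 0 + s • h.bas 1 := by
    rw [h.bas_zero, h.bas_one, Algebra.smul_def, Algebra.smul_def, mul_one,
      eq_ratCast, eq_ratCast]
  rw [h1, map_add, map_smul, map_smul, Basis.repr_self, Basis.repr_self]
  constructor <;> simp

theorem Quad.rs_inj (h : Quad p K a) {r s r' s' : ℚ}
    (he : (r : K) + (s : K) * a = (r' : K) + (s' : K) * a) : r = r' ∧ s = s' := by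
  have h1 := h.repr_rs r s
  have h2 := h.repr_rs r' s'
  rw [he] at h1
  exact ⟨h1.1.symm.trans h2.1, h1.2.symm.trans h2.2⟩

theorem Quad.mat (h : Quad p K a) (r s : ℚ) :
    Algebra.leftMulMatrix h.bas ((r : K) + (s : K) * a) = !![r, -(p : ℚ) * s; s, r] := by
  have h1 : ((r : K) + (s : K) * a) * a = ((-(p : ℚ) * s : ℚ) : K) + (r : K) * a := by
    push_cast
    linear_combination (s : K) * h.sq
  ext i j
  rw [Algebra.leftMulMatrix_eq_repr_mul]
  fin_cases j
  · simp only [Fin.zero_eta, h.bas_zero, mul_one]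
    fin_cases i
    · exact (h.repr_rs r s).1
    · exact (h.repr_rs r s).2
  · simp only [Fin.mk_one, h.bas_one]
    rw [h1]
    fin_cases i
    · exact (h.repr_rs _ r).1
    · exact (h.repr_rs _ r).2

theorem Quad.trace (h : Quad p K a) (r s : ℚ) :
    Algebra.trace ℚ K ((r : K) + (s : K) * a) = 2 * r := by
  rw [Algebra.trace_eq_matrix_trace h.bas, h.mat, Matrix.trace_fin_two]
  simp
  ring

theorem Quad.norm (h : Quad p K a) (r s : ℚ) :
    Algebra.norm ℚ ((r : K) + (s : K) * a) = r ^ 2 + p * s ^ 2 := by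
  rw [Algebra.norm_eq_matrix_det h.bas, h.mat, Matrix.det_fin_two]
  simp
  ring

theorem Quad.integral (h : Quad p K a) {r s : ℚ}
    (hx : IsIntegral ℤ ((r : K) + (s : K) * a)) :
    ∃ u v : ℤ, (r : ℚ) = (u : ℚ) + v / 2 ∧ (s : ℚ) = v / 2 := by
  have ht : IsIntegral ℤ (2 * r) := by
    have h1 := Algebra.isIntegral_trace (L := ℚ) hx
    rwa [h.trace] at h1
  have hn : IsIntegral ℤ (r ^ 2 + p * s ^ 2) := by
    have h1 := Algebra.isIntegral_norm ℚ hx
    rwa [h.norm] at h1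
  obtain ⟨t, ht⟩ := IsIntegrallyClosed.isIntegral_iff.1 ht
  obtain ⟨n, hn⟩ := IsIntegrallyClosed.isIntegral_iff.1 hn
  rw [eq_intCast] at ht hn
  have hp0 : (p : ℚ) ≠ 0 := by exact_mod_cast h.prime.ne_zero
  -- p (2 s)^2 is an integer
  have h2 : (p : ℚ) * (2 * s) ^ 2 = ((4 * n - t ^ 2 : ℤ) : ℚ) := by
    push_cast
    rw [ht, hn]
    ring
  have h3 : ∃ v : ℤ, (v : ℚ) = 2 * s := by
    have h4 : IsIntegral ℤ ((p : ℚ) * (2 * s)) := by
      have h5 : ((p : ℚ) * (2 * s)) ^ 2 = ((p * (4 * n - t ^ 2) : ℤ) : ℚ) := by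
        push_cast
        push_cast at h2
        rw [← h2]
        ring
      have h6 : IsIntegral ℤ (((p : ℚ) * (2 * s)) ^ 2) := by
        rw [h5]
        exact isIntegral_algebraMap (R := ℤ) (A := ℚ) (x := (p * (4 * n - t ^ 2) : ℤ))
      exact IsIntegral.of_pow (by norm_num) h6
    obtain ⟨w, hw⟩ := IsIntegrallyClosed.isIntegral_iff.1 h4
    rw [eq_intCast] at hw
    have h5 : w ^ 2 = p * (4 * n - t ^ 2) := by
      have : ((w ^ 2 : ℤ) : ℚ) = ((p * (4 * n - t ^ 2) : ℤ) : ℚ) := by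
        push_cast
        push_cast at h2
        rw [← h2, hw]
        ring
      exact_mod_cast this
    have hpp : Prime (p : ℤ) := Nat.prime_iff_prime_int.1 h.prime
    have h6 : (p : ℤ) ∣ w := hpp.dvd_of_dvd_pow (h5 ▸ Dvd.intro _ rfl : (p : ℤ) ∣ w ^ 2)
    obtain ⟨v, hv⟩ := h6
    refine ⟨v, ?_⟩
    have h7 : (p : ℚ) * v = p * (2 * s) := by
      rw [← hw, hv]
      push_cast
      rfl
    exact mul_left_cancel₀ hp0 h7
  obtain ⟨v, hv⟩ := h3
  have h4 : (t : ℤ) ^ 2 + p * v ^ 2 = 4 * n := by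
    have : ((t ^ 2 + p * v ^ 2 : ℤ) : ℚ) = ((4 * n : ℤ) : ℚ) := by
      push_cast
      rw [ht, hv, hn]
      ring
    exact_mod_cast this
  have h5 : (t - v) % 2 = 0 := by
    obtain ⟨q, hq⟩ : ∃ q : ℤ, (p : ℤ) = 4 * q + 3 := ⟨p / 4, by have := h.mod; omega⟩
    rw [hq] at h4
    rcases Int.even_or_odd' t with ⟨t', rfl | rfl⟩ <;> rcases Int.even_or_odd' v with ⟨v', rfl | rfl⟩
    · omega
    · exfalso
      ring_nf at h4
      omega
    · exfalso
      ring_nf at h4
      omega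
    · omega
  obtain ⟨u, hu⟩ : ∃ u : ℤ, t - v = 2 * u := ⟨(t - v) / 2, by omega⟩
  refine ⟨u, v, ?_, by rw [hv]; ring⟩
  have h6 : (t : ℚ) - v = 2 * u := by exact_mod_cast hu
  linarith

/-- the integer c with theta^2 = theta - c -/
theorem Quad.exists_c (h : Quad p K a) : ∃ c : ℤ, (p : ℤ) = 4 * c - 1 ∧ 1 < c := by
  refine ⟨(p + 1) / 4, ?_, ?_⟩
  · have := h.mod; omega
  · have := h.mod; have := h.gt; omega

theorem Quad.theta_integral (h : Quad p K a) : IsIntegral ℤ ((1 + a) / 2) := by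
  obtain ⟨c, hc, _⟩ := h.exists_c
  refine ⟨Polynomial.X ^ 2 - Polynomial.X + Polynomial.C c, by monicity!, ?_⟩
  · have h1 : (p : K) = 4 * (c : K) - 1 := by exact_mod_cast congrArg (Int.cast : ℤ → K) hc
    have h2 := h.sq
    rw [h1] at h2
    rw [Polynomial.eval₂_add, Polynomial.eval₂_sub, Polynomial.eval₂_pow,
      Polynomial.eval₂_X, Polynomial.eval₂_C, eq_intCast]
    linear_combination (1 / 4 : K) * h2

/-- theta = (1 + a)/2 in the ring of integers -/
noncomputable def Quad.theta (h : Quad p K a) : 𝓞 K := ⟨(1 + a) / 2, h.theta_integral⟩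

theorem Quad.coe_theta (h : Quad p K a) : algebraMap (𝓞 K) K h.theta = (1 + a) / 2 := rfl

theorem Quad.two_theta (h : Quad p K a) : 2 * algebraMap (𝓞 K) K h.theta = 1 + a := by
  rw [h.coe_theta]
  ring

theorem Quad.theta_sq (h : Quad p K a) {c : ℤ} (hc : (p : ℤ) = 4 * c - 1) :
    h.theta ^ 2 = h.theta - (c : 𝓞 K) := by
  apply FaithfulSMul.algebraMap_injective (𝓞 K) K
  rw [map_pow, map_sub, map_intCast, h.coe_theta]
  have h1 : (p : K) = 4 * (c : K) - 1 := by exact_mod_cast congrArg (Int.cast : ℤ → K) hc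
  have h2 := h.sq
  rw [h1] at h2
  linear_combination (1 / 4 : K) * h2

theorem Quad.coe_comb (h : Quad p K a) (u v : ℤ) :
    algebraMap (𝓞 K) K ((u : 𝓞 K) + (v : 𝓞 K) * h.theta)
      = (((u : ℚ) + v / 2 : ℚ) : K) + ((v / 2 : ℚ) : K) * a := by
  rw [map_add, map_mul, map_intCast, map_intCast, h.coe_theta]
  push_cast
  ring

theorem Quad.exists_uv (h : Quad p K a) (x : 𝓞 K) :
    ∃ u v : ℤ, x = (u : 𝓞 K) + (v : 𝓞 K) * h.theta := by
  obtain ⟨r, s, hrs⟩ := h.exists_rs (algebraMap (𝓞 K) K x)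
  have hx : IsIntegral ℤ (algebraMap (𝓞 K) K x) := x.isIntegral_coe
  rw [hrs] at hx
  obtain ⟨u, v, hu, hv⟩ := h.integral hx
  refine ⟨u, v, ?_⟩
  apply FaithfulSMul.algebraMap_injective (𝓞 K) K
  rw [h.coe_comb, hrs, hu, hv]

theorem Quad.uv_inj (h : Quad p K a) {u v u' v' : ℤ}
    (he : (u : 𝓞 K) + (v : 𝓞 K) * h.theta = (u' : 𝓞 K) + (v' : 𝓞 K) * h.theta) :
    u = u' ∧ v = v' := by
  have h1 := congrArg (algebraMap (𝓞 K) K) he
  rw [h.coe_comb, h.coe_comb] at h1
  obtain ⟨h2, h3⟩ := h.rs_inj h1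
  have h4 : (v : ℚ) = v' := by linarith
  have h5 : v = v' := by exact_mod_cast h4
  subst h5
  refine ⟨?_, rfl⟩
  have h6 : (u : ℚ) = u' := by linarith
  exact_mod_cast h6

theorem Quad.exists_basis (h : Quad p K a) :
    ∃ b : Basis (Fin 2) ℤ (𝓞 K), b 0 = 1 ∧ b 1 = h.theta := by
  have hli : LinearIndependent ℤ ![(1 : 𝓞 K), h.theta] := by
    rw [LinearIndependent.pair_iff]
    intro s t hst
    rw [zsmul_eq_mul, zsmul_eq_mul, mul_one] at hst
    have := h.uv_inj (u := s) (v := t) (u' := 0) (v' := 0) (by rw [hst]; simp)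
    exact this
  have hsp : ⊤ ≤ Submodule.span ℤ (Set.range ![(1 : 𝓞 K), h.theta]) := by
    intro x _
    obtain ⟨u, v, rfl⟩ := h.exists_uv x
    rw [Matrix.range_cons, Matrix.range_cons, Matrix.range_empty, Set.union_empty]
    have h1 : (1 : 𝓞 K) ∈ Submodule.span ℤ ({1} ∪ {h.theta} : Set (𝓞 K)) :=
      Submodule.subset_span (by simp)
    have h2 : h.theta ∈ Submodule.span ℤ ({1} ∪ {h.theta} : Set (𝓞 K)) :=
      Submodule.subset_span (by simp)
    have h3 := Submodule.add_mem _ (Submodule.smul_mem _ u h1) (Submodule.smul_mem _ v h2)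
    rwa [zsmul_eq_mul, zsmul_eq_mul, mul_one] at h3
  refine ⟨Basis.mk hli hsp, ?_, ?_⟩ <;> simp

theorem Quad.matZ (h : Quad p K a) {c : ℤ} (hc : (p : ℤ) = 4 * c - 1)
    (b : Basis (Fin 2) ℤ (𝓞 K)) (hb0 : b 0 = 1) (hb1 : b 1 = h.theta) (u v : ℤ) :
    Algebra.leftMulMatrix b ((u : 𝓞 K) + (v : 𝓞 K) * h.theta) = !![u, -c * v; v, u + v] := by
  have hrep : ∀ u v : ℤ, b.repr ((u : 𝓞 K) + (v : 𝓞 K) * h.theta) 0 = u ∧
      b.repr ((u : 𝓞 K) + (v : 𝓞 K) * h.theta) 1 = v := by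
    intro u v
    have h1 : (u : 𝓞 K) + (v : 𝓞 K) * h.theta = u • b 0 + v • b 1 := by
      rw [hb0, hb1, zsmul_eq_mul, zsmul_eq_mul, mul_one]
    rw [h1, map_add, map_smul, map_smul, Basis.repr_self, Basis.repr_self]
    constructor <;> simp
  have h1 : ((u : 𝓞 K) + (v : 𝓞 K) * h.theta) * h.theta
      = ((-c * v : ℤ) : 𝓞 K) + ((u + v : ℤ) : 𝓞 K) * h.theta := by
    push_cast
    linear_combination (v : 𝓞 K) * h.theta_sq hc
  ext i j
  rw [Algebra.leftMulMatrix_eq_repr_mul]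
  fin_cases j
  · simp only [Fin.zero_eta, hb0, mul_one]
    fin_cases i
    · exact (hrep u v).1
    · exact (hrep u v).2
  · simp only [Fin.mk_one, hb1]
    rw [h1]
    fin_cases i
    · exact (hrep _ _).1
    · exact (hrep _ _).2

theorem Quad.traceZ (h : Quad p K a) (u v : ℤ) :
    Algebra.trace ℤ (𝓞 K) ((u : 𝓞 K) + (v : 𝓞 K) * h.theta) = 2 * u + v := by
  obtain ⟨c, hc, _⟩ := h.exists_c
  obtain ⟨b, hb0, hb1⟩ := h.exists_basis
  rw [Algebra.trace_eq_matrix_trace b, h.matZ hc b hb0 hb1, Matrix.trace_fin_two]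
  simp
  ring

theorem Quad.normZ (h : Quad p K a) {c : ℤ} (hc : (p : ℤ) = 4 * c - 1) (u v : ℤ) :
    Algebra.norm ℤ ((u : 𝓞 K) + (v : 𝓞 K) * h.theta) = u ^ 2 + u * v + c * v ^ 2 := by
  obtain ⟨b, hb0, hb1⟩ := h.exists_basis
  rw [Algebra.norm_eq_matrix_det b, h.matZ hc b hb0 hb1, Matrix.det_fin_two]
  simp
  ring

theorem Quad.discr_eq (h : Quad p K a) : discr K = -(p : ℤ) := by
  obtain ⟨c, hc, _⟩ := h.exists_c
  obtain ⟨b, hb0, hb1⟩ := h.exists_basis
  rw [← discr_eq_discr K b, Algebra.discr_def, Matrix.det_fin_two, Algebra.traceMatrix_apply,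
    Algebra.traceMatrix_apply, Algebra.traceMatrix_apply, Algebra.traceMatrix_apply,
    Algebra.traceForm_apply, Algebra.traceForm_apply, Algebra.traceForm_apply,
    Algebra.traceForm_apply, hb0, hb1, mul_one, mul_one, one_mul]
  have h0 : (1 : 𝓞 K) = ((1 : ℤ) : 𝓞 K) + ((0 : ℤ) : 𝓞 K) * h.theta := by push_cast; ring
  have h1 : h.theta = ((0 : ℤ) : 𝓞 K) + ((1 : ℤ) : 𝓞 K) * h.theta := by push_cast; ring
  have h2 : h.theta * h.theta = ((-c : ℤ) : 𝓞 K) + ((1 : ℤ) : 𝓞 K) * h.theta := by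
    push_cast
    linear_combination h.theta_sq hc
  have t0 : Algebra.trace ℤ (𝓞 K) 1 = 2 := by
    rw [h0, h.traceZ]; rfl
  have t1 : Algebra.trace ℤ (𝓞 K) h.theta = 1 := by
    rw [h1, h.traceZ]; rfl
  have t2 : Algebra.trace ℤ (𝓞 K) (h.theta * h.theta) = 2 * (-c) + 1 := by
    rw [h2, h.traceZ]
  rw [t0, t1, t2, hc]
  ring

theorem Quad.unit_eq (h : Quad p K a) (x : (𝓞 K)ˣ) : x = 1 ∨ x = -1 := by
  obtain ⟨c, hc, hc1⟩ := h.exists_c
  obtain ⟨u, v, huv⟩ := h.exists_uv (x : 𝓞 K)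
  have hu : IsUnit (Algebra.norm ℤ (x : 𝓞 K)) := x.isUnit.map _
  rw [huv, h.normZ hc, Int.isUnit_iff] at hu
  have hv : v = 0 := by
    by_contra hv
    have hv2 : 1 ≤ v ^ 2 := by
      have : 0 < v ^ 2 := by positivity
      omega
    rcases hu with hu | hu <;> nlinarith [sq_nonneg (2 * u + v)]
  subst hv
  have hu1 : u ^ 2 = 1 := by
    rcases hu with hu | hu
    · linarith
    · nlinarith [sq_nonneg u]
  rcases sq_eq_one_iff.1 hu1 with h1 | h1
  · left
    apply Units.ext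
    rw [huv, h1]
    simp
  · right
    apply Units.ext
    rw [huv, h1]
    simp

theorem Quad.torsionOrder_eq (h : Quad p K a) : Units.torsionOrder K = 2 := by
  have h1 : Units.torsionOrder K ≤ 2 := by
    unfold Units.torsionOrder
    have h2 : (Units.torsion K : Set (𝓞 K)ˣ) ⊆ ({1, -1} : Set (𝓞 K)ˣ) := by
      intro x _
      rcases h.unit_eq x with rfl | rfl <;> simp
    have h3 := Set.ncard_le_ncard h2 (Set.toFinite _)
    have h4 : ({1, -1} : Set (𝓞 K)ˣ).ncard ≤ 2 := (Set.ncard_insert_le _ _).trans (by rw [Set.ncard_singleton])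
    exact h3.trans h4
  have h2 := Units.torsionOrder_pos K
  have h3 := Units.even_torsionOrder K
  obtain ⟨k, hk⟩ := h3
  omega

theorem Quad.totallyComplex (h : Quad p K a) : IsTotallyComplex K := by
  refine ⟨fun v => ?_⟩
  rw [← InfinitePlace.not_isReal_iff_isComplex]
  intro hv
  have h1 := congrArg (InfinitePlace.embedding_of_isReal hv) h.sq
  rw [map_pow, map_neg, map_natCast] at h1
  have h2 : (0 : ℝ) < p := by exact_mod_cast h.prime.pos
  nlinarith [sq_nonneg (InfinitePlace.embedding_of_isReal hv a)]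

theorem Quad.nrRealPlaces_eq (h : Quad p K a) : InfinitePlace.nrRealPlaces K = 0 :=
  NumberField.nrRealPlaces_eq_zero_iff.2 h.totallyComplex

theorem Quad.nrComplexPlaces_eq (h : Quad p K a) : InfinitePlace.nrComplexPlaces K = 1 := by
  have h1 := InfinitePlace.card_add_two_mul_card_eq_rank K
  rw [h.nrRealPlaces_eq, h.deg] at h1
  omega

theorem Quad.rank_eq (h : Quad p K a) : Units.rank K = 0 := by
  have h1 : Fintype.card (InfinitePlace K) = 1 := by
    rw [InfinitePlace.card_eq_nrRealPlaces_add_nrComplexPlaces, h.nrRealPlaces_eq,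
      h.nrComplexPlaces_eq]
  unfold Units.rank
  rw [h1]

theorem Quad.regulator_eq (h : Quad p K a) : Units.regulator K = 1 := by
  classical
  rw [Units.regulator_eq_det']
  have h1 : Fintype.card (InfinitePlace K) = 1 := by
    rw [InfinitePlace.card_eq_nrRealPlaces_add_nrComplexPlaces, h.nrRealPlaces_eq,
      h.nrComplexPlaces_eq]
  have : IsEmpty {w : InfinitePlace K // w ≠ Units.dirichletUnitTheorem.w₀} := by
    refine ⟨fun w => w.2 ?_⟩
    exact (Fintype.card_le_one_iff.1 h1.le) _ _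
  rw [Matrix.det_isEmpty, abs_one]

/-- the residue in the class number formula -/
theorem Quad.residue_eq (h : Quad p K a) :
    dedekindZeta_residue K = Real.pi * classNumber K / Real.sqrt p := by
  rw [dedekindZeta_residue_def, h.nrRealPlaces_eq, h.nrComplexPlaces_eq, h.regulator_eq,
    h.torsionOrder_eq, h.discr_eq]
  have h1 : |(((-(p : ℤ)) : ℤ) : ℝ)| = p := by
    push_cast
    rw [abs_neg, abs_of_nonneg (Nat.cast_nonneg p)]
  rw [h1]
  have h2 : 0 < Real.sqrt p := Real.sqrt_pos.2 (by exact_mod_cast h.prime.pos)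
  field_simp
  push_cast
  ring

end

end Pool.Agent.DCN
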