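import Mathlib
import Pool.Agent.DCN.Defs
import Pool.Agent.DCN.Fld

/-! Bridges between the statements of the board. -/

open NumberField Filter Topology

namespace Pool.Agent.DCN

theorem bridge_b {K : Type} [Field K] [NumberField K] {p : ℕ} {a : K} (h : Quad p K a) :
    ∃ b : 𝓞 K, b ^ 2 - b + (((p + 1) / 4 : ℕ) : 𝓞 K) = 0 ∧
      (∀ x : 𝓞 K, ∃ u v : ℤ, x = (u : 𝓞 K) + (v : 𝓞 K) * b) ∧
      (∀ u v : ℤ, (u : 𝓞 K) + (v : 𝓞 K) * b = 0 → u = 0 ∧ v = 0) := by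
  refine ⟨h.theta, ?_, h.exists_uv, ?_⟩
  · have hm := h.mod
    have hc : (p : ℤ) = 4 * (((p + 1) / 4 : ℕ) : ℤ) - 1 := by omega
    have h1 := h.theta_sq hc
    rw [h1, Int.cast_natCast]
    ring
  · intro u v huv
    have h1 : (u : 𝓞 K) + (v : 𝓞 K) * h.theta = ((0 : ℤ) : 𝓞 K) + ((0 : ℤ) : 𝓞 K) * h.theta := by
      rw [huv]
      simp
    exact h.uv_inj h1

/-- Final cancellation. -/
theorem bridge_fin (p : ℕ) (hp : 0 < p) (h : ℕ) (s : ℤ)
    (hs : Real.pi * (h : ℝ) / Real.sqrt p = -(Real.pi / (p * Real.sqrt p)) * (s : ℝ)) :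
    (h : ℤ) * p = -s := by
  have hp' : (0 : ℝ) < p := by exact_mod_cast hp
  have hsq : 0 < Real.sqrt p := Real.sqrt_pos.2 hp'
  have hpi := Real.pi_pos
  have h1 : (h : ℝ) * p = -(s : ℝ) := by
    field_simp at hs
    linarith
  exact_mod_cast h1

end Pool.Agent.DCN
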