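import Pool.Agent.DCN.Defs

/-! Row CNT of the board DCN: the number of ideals of norm `m` from the prime powers. -/

open NumberField NumberField.Units NumberField.InfinitePlace Filter Topology

namespace Pool.Agent.DCN

theorem cntA_sum_pow (p q : ℕ) [Fact p.Prime] (hq : q.Prime) (k : ℕ) :
    ∑ d ∈ (q ^ k).divisors, legendreSym p (d : ℤ) =
      ∑ i ∈ Finset.range (k + 1), legendreSym p (q : ℤ) ^ i := by
  rw [Nat.sum_divisors_prime_pow hq]
  apply Finset.sum_congr rfl
  intro i _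
  have h1 : ((q ^ i : ℕ) : ℤ) = (q : ℤ) ^ i := by push_cast; rfl
  rw [h1]
  exact map_pow (legendreSym.hom p) (q : ℤ) i

theorem cntA_sum_mul (p : ℕ) [Fact p.Prime] {m n : ℕ} (hmn : m.Coprime n) :
    ∑ d ∈ (m * n).divisors, legendreSym p (d : ℤ) =
      (∑ d ∈ m.divisors, legendreSym p (d : ℤ)) * ∑ d ∈ n.divisors, legendreSym p (d : ℤ) := by
  let f : ArithmeticFunction ℤ := ⟨fun n => legendreSym p (n : ℤ), by simp⟩
  have hf : f.IsMultiplicative := by
    refine ⟨?_, ?_⟩
    · change legendreSym p ((1 : ℕ) : ℤ) = 1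
      simp
    · intro a b _
      change legendreSym p ((a * b : ℕ) : ℤ) = legendreSym p (a : ℤ) * legendreSym p (b : ℤ)
      rw [Nat.cast_mul, legendreSym.mul]
  have hg : (f * (ArithmeticFunction.zeta : ArithmeticFunction ℤ)).IsMultiplicative :=
    hf.mul ArithmeticFunction.isMultiplicative_zeta.natCast
  have key : ∀ x : ℕ, (f * (ArithmeticFunction.zeta : ArithmeticFunction ℤ)) x =
      ∑ d ∈ x.divisors, legendreSym p (d : ℤ) := by
    intro x
    exact ArithmeticFunction.coe_mul_zeta_apply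
  rw [← key, ← key, ← key]
  exact hg.map_mul_of_coprime hmn

theorem cntA_card_one (K : Type) [Field K] [NumberField K] : nid K 1 = 1 := by
  unfold nid
  rw [Nat.card_eq_one_iff_unique]
  constructor
  · constructor
    rintro ⟨I, hI⟩ ⟨J, hJ⟩
    apply Subtype.ext
    change I = J
    rw [Ideal.absNorm_eq_one_iff.1 hI, Ideal.absNorm_eq_one_iff.1 hJ]
  · exact ⟨⟨⊤, Ideal.absNorm_eq_one_iff.2 rfl⟩⟩

/-- row CNT (from PPW, MUL and the hypothesis on primes) -/
theorem dcn_count (K : Type) [Field K] [NumberField K] (p : ℕ) [Fact p.Prime]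
    (hmul : ∀ m n : ℕ, 0 < m → 0 < n → Nat.Coprime m n → nid K (m * n) = nid K m * nid K n)
    (hpp : ∀ q : ℕ, q.Prime → ∀ k : ℕ,
      (nid K (q ^ k) : ℤ) = ∑ i ∈ Finset.range (k + 1), ((nid K q : ℤ) - 1) ^ i)
    (h1 : ∀ q : ℕ, q.Prime → (nid K q : ℤ) = 1 + legendreSym p (q : ℤ))
    (m : ℕ) (hm : 0 < m) :
    (nid K m : ℤ) = ∑ d ∈ m.divisors, legendreSym p (d : ℤ) := by
  induction m using Nat.recOnPosPrimePosCoprime with
  | prime_pow q k hq _ =>
    rw [cntA_sum_pow p q hq k, hpp q hq k, h1 q hq]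
    apply Finset.sum_congr rfl
    intro i _
    congr 1
    ring
  | zero => exact absurd hm (lt_irrefl _)
  | one =>
    rw [cntA_card_one]
    simp
  | coprime a b ha1 hb1 hab iha ihb =>
    have ha0 : 0 < a := by omega
    have hb0 : 0 < b := by omega
    rw [hmul a b ha0 hb0 hab, cntA_sum_mul p hab, Nat.cast_mul, iha ha0, ihb hb0]

end Pool.Agent.DCN
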