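import Mathlib
import Pool.Agent.DCN.Defs

/-! # The discriminant of the field of a square root of `-p` -/

open NumberField NumberField.Units NumberField.InfinitePlace Filter Topology

namespace Pool.Agent.DCN

/-- row DSC -/
theorem dcn_discr (K : Type) [Field K] [NumberField K] (hK : Module.finrank ℚ K = 2)
    (p : ℕ) (hp : p.Prime) (hp4 : p % 4 = 3) (b : 𝓞 K)
    (hb : b ^ 2 - b + (((p + 1) / 4 : ℕ) : 𝓞 K) = 0)
    (hb1 : ∀ x : 𝓞 K, ∃ u v : ℤ, x = (u : 𝓞 K) + (v : 𝓞 K) * b)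
    (hb2 : ∀ u v : ℤ, (u : 𝓞 K) + (v : 𝓞 K) * b = 0 → u = 0 ∧ v = 0) :
    |discr K| = p := by
  classical
  have hli : LinearIndependent ℤ ![(1 : 𝓞 K), b] := by
    rw [LinearIndependent.pair_iff]
    intro s t hst
    apply hb2 s t
    rw [zsmul_eq_mul, zsmul_eq_mul, mul_one] at hst
    exact hst
  have hsp : ⊤ ≤ Submodule.span ℤ (Set.range ![(1 : 𝓞 K), b]) := by
    intro x _
    obtain ⟨u, v, rfl⟩ := hb1 x
    refine Submodule.add_mem _ ?_ ?_
    · have h0 : (1 : 𝓞 K) ∈ Submodule.span ℤ (Set.range ![(1 : 𝓞 K), b]) :=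
        Submodule.subset_span ⟨0, rfl⟩
      have := Submodule.smul_mem _ u h0
      rwa [zsmul_eq_mul, mul_one] at this
    · have h0 : b ∈ Submodule.span ℤ (Set.range ![(1 : 𝓞 K), b]) :=
        Submodule.subset_span ⟨1, rfl⟩
      have := Submodule.smul_mem _ v h0
      rwa [zsmul_eq_mul] at this
  let B : Module.Basis (Fin 2) ℤ (𝓞 K) := Module.Basis.mk hli hsp
  have hB : ⇑B = ![(1 : 𝓞 K), b] := Module.Basis.coe_mk hli hsp
  have hB0 : B 0 = 1 := by rw [hB]; rfl
  have hB1 : B 1 = b := by rw [hB]; rfl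
  set n : ℕ := (p + 1) / 4 with hn
  have h4 : 4 * (n : ℤ) = (p : ℤ) + 1 := by
    have : 4 * n = p + 1 := by omega
    exact_mod_cast this
  have hbb : b * b = B 1 - (n : ℤ) • B 0 := by
    rw [hB0, hB1, zsmul_eq_mul, mul_one]
    have h : b * b = b ^ 2 := by ring
    rw [h, Int.cast_natCast]
    linear_combination hb
  have t1 : Algebra.trace ℤ (𝓞 K) 1 = 2 := by
    have h := Algebra.trace_algebraMap_of_basis B (1 : ℤ)
    rw [map_one, Fintype.card_fin] at h
    rw [h]
    norm_num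
  have tb : Algebra.trace ℤ (𝓞 K) b = 1 := by
    rw [Algebra.trace_eq_matrix_trace B, Matrix.trace_fin_two, Algebra.leftMulMatrix_eq_repr_mul,
      Algebra.leftMulMatrix_eq_repr_mul, hB0, mul_one, hB1, hbb, ← hB1, map_sub, map_smul,
      Module.Basis.repr_self, Module.Basis.repr_self]
    simp
  have tbb : Algebra.trace ℤ (𝓞 K) (b * b) = 1 - 2 * (n : ℤ) := by
    rw [hbb, hB0, hB1, map_sub, map_smul, tb, t1, smul_eq_mul]
    ring
  have hd : discr K = -(p : ℤ) := by
    rw [← NumberField.discr_eq_discr K B, Algebra.discr_def, Matrix.det_fin_two]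
    simp only [Algebra.traceMatrix_apply, Algebra.traceForm_apply, hB0, hB1, mul_one, one_mul, t1,
      tb, tbb]
    linear_combination (-1) * h4
  rw [hd, abs_neg, Nat.abs_cast]

end Pool.Agent.DCN
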