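import Mathlib
import Pool.Agent.DCN.Defs

/-! Row DIV: an integer polynomial which vanishes at `1` and at `exp (2 π i / p)` is divisible
by `X ^ p - 1`. -/

set_option autoImplicit false

namespace Pool.Agent.DCN

open Polynomial in
theorem dcn_div (p : ℕ) (hp : p.Prime) (F : ℤ[X]) (h1 : F.eval 1 = 0)
    (hz : Polynomial.aeval (zt p) F = 0) : (X ^ p - 1 : ℤ[X]) ∣ F := by
  have : Fact p.Prime := ⟨hp⟩
  have hprim : IsPrimitiveRoot (zt p) p := Complex.isPrimitiveRoot_exp p hp.ne_zero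
  have hroot : (X - C 1 : ℤ[X]) ∣ F := by
    rw [Polynomial.dvd_iff_isRoot]
    exact h1
  obtain ⟨G, hG⟩ := hroot
  have hne : zt p - 1 ≠ 0 := by
    rw [sub_ne_zero]
    exact hprim.ne_one hp.one_lt
  have hGz : Polynomial.aeval (zt p) G = 0 := by
    have h2 := hz
    rw [hG, map_mul] at h2
    have h3 : Polynomial.aeval (zt p) (X - C 1 : ℤ[X]) = zt p - 1 := by
      simp
    rw [h3] at h2
    exact (mul_eq_zero.mp h2).resolve_left hne
  have hdvd : cyclotomic p ℤ ∣ G := by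
    rw [Polynomial.cyclotomic_eq_minpoly hprim hp.pos]
    exact minpoly.isIntegrallyClosed_dvd (hprim.isIntegral hp.pos) hGz
  obtain ⟨H, hH⟩ := hdvd
  refine ⟨H, ?_⟩
  rw [hG, hH, ← Polynomial.cyclotomic_prime_mul_X_sub_one ℤ p]
  simp only [map_one]
  ring

end Pool.Agent.DCN
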