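import Mathlib

/-!
# The field `ℚ(√-p)` exists (helper2)
-/

namespace Pool.Agent.DCN

open Polynomial

theorem exists_field (p : ℕ) (hp : p.Prime) :
    ∃ (K : Type) (_ : Field K) (_ : NumberField K) (a : K),
      Module.finrank ℚ K = 2 ∧ a ^ 2 = -(p : K) := by
  set f : ℚ[X] := X ^ 2 + C (p : ℚ) with hf
  have hdeg : f.natDegree = 2 := by rw [hf]; compute_degree!
  have hp0 : (0 : ℚ) < p := by exact_mod_cast hp.pos
  have hirr : Irreducible f := by
    rw [irreducible_iff_roots_eq_zero_of_degree_le_three (by rw [hdeg]) (by rw [hdeg]; norm_num)]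
    rw [Multiset.eq_zero_iff_forall_notMem]
    intro x hx
    have h1 := (mem_roots'.1 hx).2
    rw [IsRoot.def, hf, eval_add, eval_pow, eval_X, eval_C] at h1
    nlinarith [sq_nonneg x]
  have : Fact (Irreducible f) := ⟨hirr⟩
  have hne : f ≠ 0 := hirr.ne_zero
  have hfin : FiniteDimensional ℚ (AdjoinRoot f) := (AdjoinRoot.powerBasis hne).finite
  refine ⟨AdjoinRoot f, inferInstance, ⟨⟩, AdjoinRoot.root f, ?_, ?_⟩
  · rw [(AdjoinRoot.powerBasis hne).finrank, AdjoinRoot.powerBasis_dim, hdeg]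
  · have h1 := AdjoinRoot.eval₂_root f
    have h2 : ∀ (g : ℚ[X]) (r : AdjoinRoot f), g = X ^ 2 + C (p : ℚ) →
        eval₂ (AdjoinRoot.of f) r g = r ^ 2 + (p : AdjoinRoot f) := by
      rintro g r rfl
      rw [eval₂_add, eval₂_pow, eval₂_X, eval₂_C, map_natCast]
    rw [h2 f _ hf] at h1
    exact eq_neg_of_add_eq_zero_left h1

end Pool.Agent.DCN
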