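import Mathlib

/-! The field of a square root of `-p` exists. -/

open Polynomial

namespace Pool.Agent.DCN

theorem exi_irr (p : ℕ) (hp : 0 < p) : Irreducible (X ^ 2 + C (p : ℚ) : ℚ[X]) := by
  have hdeg : (X ^ 2 + C (p : ℚ) : ℚ[X]).natDegree = 2 := by compute_degree!
  rw [Polynomial.irreducible_iff_roots_eq_zero_of_degree_le_three (by rw [hdeg])
    (by rw [hdeg]; norm_num)]
  rw [Multiset.eq_zero_iff_forall_notMem]
  intro r hr
  have h1 := Polynomial.isRoot_of_mem_roots hr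
  simp only [IsRoot.def, eval_add, eval_pow, eval_X, eval_C] at h1
  have h2 : (0 : ℚ) < p := by exact_mod_cast hp
  nlinarith [sq_nonneg r]

theorem exists_field (p : ℕ) (hp : p.Prime) :
    ∃ (K : Type) (_ : Field K) (_ : NumberField K) (a : K),
      Module.finrank ℚ K = 2 ∧ a ^ 2 = -(p : K) := by
  have : Fact (Irreducible (X ^ 2 + C (p : ℚ) : ℚ[X])) := ⟨exi_irr p hp.pos⟩
  have hdeg : (X ^ 2 + C (p : ℚ) : ℚ[X]).natDegree = 2 := by compute_degree!
  have hne : (X ^ 2 + C (p : ℚ) : ℚ[X]) ≠ 0 := (exi_irr p hp.pos).ne_zero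
  have hfr : Module.finrank ℚ (AdjoinRoot (X ^ 2 + C (p : ℚ) : ℚ[X])) = 2 := by
    rw [(AdjoinRoot.powerBasis hne).finrank, AdjoinRoot.powerBasis_dim, hdeg]
  have : Module.Finite ℚ (AdjoinRoot (X ^ 2 + C (p : ℚ) : ℚ[X])) :=
    Module.finite_of_finrank_pos (by rw [hfr]; norm_num)
  have : CharZero (AdjoinRoot (X ^ 2 + C (p : ℚ) : ℚ[X])) :=
    charZero_of_injective_algebraMap (algebraMap ℚ _).injective
  refine ⟨AdjoinRoot (X ^ 2 + C (p : ℚ) : ℚ[X]), inferInstance, ⟨⟩,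
    AdjoinRoot.root _, hfr, ?_⟩
  have h1 := AdjoinRoot.eval₂_root (X ^ 2 + C (p : ℚ) : ℚ[X])
  rw [eval₂_add, eval₂_pow, eval₂_X, eval₂_C] at h1
  rw [eq_neg_iff_add_eq_zero]
  simpa using h1

end Pool.Agent.DCN
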