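import Mathlib
import Pool.Agent.DCN.Defs

/-! Row FIN. -/

open NumberField NumberField.Units NumberField.InfinitePlace Filter Topology

namespace Pool.Agent.DCN

/-- row FIN (everything together) -/
theorem dcn_fin (p : ℕ) (hp : 0 < p) (h : ℕ) (s : ℤ)
    (hs : Real.pi * (h : ℝ) / Real.sqrt p = -(Real.pi / (p * Real.sqrt p)) * (s : ℝ)) :
    (h : ℤ) * p = -s := by
  have hp' : (0 : ℝ) < p := by exact_mod_cast hp
  have hsq : 0 < Real.sqrt p := Real.sqrt_pos.2 hp'
  have hpi := Real.pi_pos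
  have h1 : (h : ℝ) * p = -(s : ℝ) := by
    have h2 : Real.pi * (h : ℝ) / Real.sqrt p * (p * Real.sqrt p) =
        -(Real.pi / (p * Real.sqrt p)) * (s : ℝ) * (p * Real.sqrt p) := by rw [hs]
    field_simp at h2
    linarith
  exact_mod_cast h1

end Pool.Agent.DCN
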