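import Mathlib

/-!
# DCN: a prime factor of an ideal of prime power norm
-/

set_option autoImplicit false

open NumberField

namespace Pool.Agent.DCN

theorem exists_factor {K : Type*} [Field K] [NumberField K] {q : ℕ} (hq : q.Prime) {k : ℕ}
    {I : Ideal (𝓞 K)} (hI : Ideal.absNorm I = q ^ (k + 1)) :
    ∃ P J : Ideal (𝓞 K), P.IsPrime ∧ (q : 𝓞 K) ∈ P ∧ I = P * J := by
  have hne : I ≠ ⊤ := by
    intro h
    rw [h, Ideal.absNorm_top] at hI
    exact absurd hI (Nat.one_lt_pow (Nat.succ_ne_zero k) hq.one_lt).ne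
  obtain ⟨P, hP, hIP⟩ := Ideal.exists_le_maximal I hne
  have hmem := Ideal.absNorm_mem I
  rw [hI, Nat.cast_pow] at hmem
  have hqP : (q : 𝓞 K) ∈ P := hP.isPrime.mem_of_pow_mem _ (hIP hmem)
  obtain ⟨J, hJ⟩ := Ideal.dvd_iff_le.2 hIP
  exact ⟨P, J, hP.isPrime, hqP, hJ⟩

end Pool.Agent.DCN
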