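import Mathlib
import Pool.Agent.DCN.Defs

/-! Row GP3 of the class number formula board. -/

open NumberField NumberField.Units NumberField.InfinitePlace Filter Topology

namespace Pool.Agent.DCN

open Polynomial in
/-- row GP3 (from GP1 and GP2; `X ^ p - 1 = (X - 1) ^ p` modulo `p`) -/
theorem dcn_gp3 (p : ℕ) [Fact p.Prime] (hp : 2 < p) (e : ℤ) (he : e = 1 ∨ e = -1)
    (h1 : ((((p - 1) / 2).factorial : ℕ) : ZMod p) *
      (((gpol p).map (Int.castRingHom (ZMod p))).comp (1 + X)).coeff ((p - 1) / 2) = -1)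
    (h2 : ((((p - 1) / 2).factorial : ℕ) : ZMod p) *
      (((ppol p).map (Int.castRingHom (ZMod p))).comp (1 + X)).coeff ((p - 1) / 2) = -1)
    (hd : (X ^ p - 1 : ℤ[X]) ∣ gpol p - C e * ppol p) : e = 1 := by
  obtain ⟨Q, hQ⟩ := hd
  have h3 : (gpol p).map (Int.castRingHom (ZMod p)) -
      C (e : ZMod p) * (ppol p).map (Int.castRingHom (ZMod p)) =
        (X - 1) ^ p * Q.map (Int.castRingHom (ZMod p)) := by
    have h := congrArg (Polynomial.map (Int.castRingHom (ZMod p))) hQ
    rw [Polynomial.map_sub, Polynomial.map_mul, Polynomial.map_mul, Polynomial.map_C,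
      Polynomial.map_sub, Polynomial.map_pow, Polynomial.map_X, Polynomial.map_one] at h
    rw [sub_pow_char, one_pow, ← h]
    simp
  have h4 : ((gpol p).map (Int.castRingHom (ZMod p))).comp (1 + X) -
      C (e : ZMod p) * ((ppol p).map (Int.castRingHom (ZMod p))).comp (1 + X) =
        X ^ p * (Q.map (Int.castRingHom (ZMod p))).comp (1 + X) := by
    have h := congrArg (fun f => f.comp (1 + X)) h3
    simp only [sub_comp, mul_comp, C_comp, pow_comp, X_comp, one_comp, add_sub_cancel_left] at h
    exact h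
  have h5 := congrArg (fun f => f.coeff ((p - 1) / 2)) h4
  simp only [coeff_sub, coeff_C_mul, coeff_X_pow_mul'] at h5
  rw [if_neg (by omega)] at h5
  have h6 : (-1 : ZMod p) - e * (-1) = 0 := by
    calc (-1 : ZMod p) - e * (-1)
        = ((((p - 1) / 2).factorial : ℕ) : ZMod p) *
            ((((gpol p).map (Int.castRingHom (ZMod p))).comp (1 + X)).coeff ((p - 1) / 2) -
            e * (((ppol p).map (Int.castRingHom (ZMod p))).comp (1 + X)).coeff ((p - 1) / 2)) := by
          rw [mul_sub, h1, mul_left_comm, h2]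
      _ = 0 := by rw [h5, mul_zero]
  rcases he with rfl | rfl
  · rfl
  · exfalso
    have h7 : ((2 : ℕ) : ZMod p) = 0 := by
      push_cast at h6 ⊢
      linear_combination -h6
    rw [ZMod.natCast_eq_zero_iff] at h7
    have := Nat.le_of_dvd (by norm_num) h7
    omega

end Pool.Agent.DCN
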