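import Mathlib
import Pool.Agent.DCN.Defs

/-! Row GSQ of the class number formula board. -/

open NumberField NumberField.Units NumberField.InfinitePlace Filter Topology

namespace Pool.Agent.DCN

private theorem GSQ_sum (p : ℕ) [Fact p.Prime] (f : ZMod p → ℂ) :
    ∑ j ∈ Finset.range p, f (j : ZMod p) = ∑ a : ZMod p, f a := by
  refine Finset.sum_nbij' (fun j => (j : ZMod p)) (fun a => a.val) ?_ ?_ ?_ ?_ ?_
  · intro j _
    exact Finset.mem_univ _
  · intro a _
    exact Finset.mem_range.2 (ZMod.val_lt a)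
  · intro j hj
    exact ZMod.val_cast_of_lt (Finset.mem_range.1 hj)
  · intro a _
    exact ZMod.natCast_zmod_val a
  · intro j _
    rfl

/-- row GSQ (Mathlib: gaussSum_sq) -/
theorem dcn_gsq (p : ℕ) [Fact p.Prime] (hp4 : p % 4 = 3) : gau p ^ 2 = -(p : ℂ) := by
  have hp2 : p ≠ 2 := by omega
  have hrc : ringChar (ZMod p) ≠ 2 := by
    rw [ZMod.ringChar_zmod_n]
    exact hp2
  have hχ : (quadraticChar (ZMod p)).ringHomComp (Int.castRingHom ℂ) ≠ 1 :=
    (MulChar.ringHomComp_ne_one_iff Int.cast_injective).2 (quadraticChar_ne_one hrc)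
  have hq : ((quadraticChar (ZMod p)).ringHomComp (Int.castRingHom ℂ)).IsQuadratic :=
    (quadraticChar_isQuadratic (ZMod p)).comp _
  have h1 : gau p =
      gaussSum ((quadraticChar (ZMod p)).ringHomComp (Int.castRingHom ℂ)) ZMod.stdAddChar := by
    unfold gau gaussSum
    rw [← GSQ_sum p (fun a => ((quadraticChar (ZMod p)).ringHomComp (Int.castRingHom ℂ)) a *
      ZMod.stdAddChar a)]
    refine Finset.sum_congr rfl fun j _ => ?_
    have h2 : (ZMod.stdAddChar (j : ZMod p) : ℂ) = zt p ^ j := by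
      have h3 := ZMod.stdAddChar_coe (N := p) (j : ℤ)
      rw [Int.cast_natCast] at h3
      rw [h3]
      unfold zt
      rw [← Complex.exp_nat_mul]
      congr 1
      push_cast
      ring
    rw [h2]
    congr 1
    simp [legendreSym, MulChar.ringHomComp_apply]
  have h4 : ((quadraticChar (ZMod p)).ringHomComp (Int.castRingHom ℂ)) (-1) = -1 := by
    have h5 := legendreSym.at_neg_one (p := p) hp2
    rw [ZMod.χ₄_nat_three_mod_four hp4] at h5
    have h6 : quadraticChar (ZMod p) (-1) = -1 := by
      rw [← h5]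
      simp [legendreSym]
    rw [MulChar.ringHomComp_apply, h6]
    simp
  rw [h1, gaussSum_sq hχ hq (ZMod.isPrimitive_stdAddChar p), h4, ZMod.card]
  ring

end Pool.Agent.DCN
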