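import Pool.Agent.DCN.Defs

/-!
# DCN: the real twisted Gauss sum
-/

set_option autoImplicit false

open Finset

namespace Pool.Agent.DCN

theorem gsv_sum (p : ℕ) [Fact p.Prime] (f : ZMod p → ℂ) :
    ∑ j ∈ range p, f (j : ZMod p) = ∑ a : ZMod p, f a := by
  refine sum_nbij' (fun j => (j : ZMod p)) (fun a => a.val) ?_ ?_ ?_ ?_ ?_
  · intro j _
    exact mem_univ _
  · intro a _
    exact mem_range.mpr (ZMod.val_lt a)
  · intro j hj
    exact ZMod.val_cast_of_lt (mem_range.mp hj)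
  · intro a _
    exact ZMod.natCast_zmod_val a
  · intro j _
    rfl

theorem gsv_std (p : ℕ) [Fact p.Prime] (n j : ℕ) :
    ZMod.stdAddChar (N := p) ((n : ZMod p) * (j : ZMod p)) =
      Complex.exp (((n * (2 * Real.pi * j / p) : ℝ) : ℂ) * Complex.I) := by
  have h := ZMod.stdAddChar_coe (N := p) ((n * j : ℕ) : ℤ)
  rw [Int.cast_natCast, Nat.cast_mul] at h
  rw [h]
  congr 1
  push_cast
  ring

theorem gsv_gau (p : ℕ) [Fact p.Prime] :
    gau p = ∑ a : ZMod p, ((quadraticChar (ZMod p) a : ℤ) : ℂ) * ZMod.stdAddChar (N := p) a := by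
  rw [← gsv_sum]
  unfold gau
  refine sum_congr rfl fun j _ => ?_
  have h := gsv_std p 1 j
  rw [Nat.cast_one, one_mul] at h
  rw [h]
  have h2 : zt p ^ j = Complex.exp (((((1 : ℕ) : ℝ) * (2 * Real.pi * j / p) : ℝ) : ℂ) *
      Complex.I) := by
    unfold zt
    rw [← Complex.exp_nat_mul]
    congr 1
    push_cast
    ring
  rw [h2]
  simp [legendreSym]

theorem gsv_twist (p : ℕ) [Fact p.Prime] (hp4 : p % 4 = 3) (n : ℕ) :
    ∑ a : ZMod p, ((quadraticChar (ZMod p) a : ℤ) : ℂ) *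
      ZMod.stdAddChar (N := p) ((n : ZMod p) * a) =
        ((quadraticChar (ZMod p) (n : ZMod p) : ℤ) : ℂ) * gau p := by
  by_cases hn : (n : ZMod p) = 0
  · rw [hn]
    have h2 : ringChar (ZMod p) ≠ 2 := by
      rw [ZMod.ringChar_zmod_n]
      intro h
      rw [h] at hp4
      omega
    have h3 := quadraticChar_sum_zero h2
    simp only [zero_mul, AddChar.map_zero_eq_one, mul_one, MulChar.map_zero, Int.cast_zero]
    exact_mod_cast h3
  · have h1 : ((quadraticChar (ZMod p) (n : ZMod p) : ℤ) : ℂ) *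
        ((quadraticChar (ZMod p) (n : ZMod p) : ℤ) : ℂ) = 1 := by
      have := quadraticChar_sq_one hn
      rw [sq] at this
      exact_mod_cast this
    have h2 : gau p = ((quadraticChar (ZMod p) (n : ZMod p) : ℤ) : ℂ) *
        ∑ a : ZMod p, ((quadraticChar (ZMod p) a : ℤ) : ℂ) *
          ZMod.stdAddChar (N := p) ((n : ZMod p) * a) := by
      rw [gsv_gau, mul_sum]
      symm
      refine Fintype.sum_equiv (Equiv.mulLeft₀ (n : ZMod p) hn) _ _ fun a => ?_
      rw [Equiv.mulLeft₀_apply, map_mul (quadraticChar (ZMod p)) (n : ZMod p) a]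
      push_cast
      ring
    rw [h2, ← mul_assoc, h1, one_mul]

/-- row GSV -/
theorem dcn_gsv (p : ℕ) [Fact p.Prime] (hp4 : p % 4 = 3)
    (hg : gau p = Complex.I * (Real.sqrt p : ℂ)) (n : ℕ) :
    ∑ j ∈ Finset.range p,
      ((legendreSym p (j : ℤ) : ℤ) : ℝ) * Real.sin (n * (2 * Real.pi * j / p)) =
        ((legendreSym p (n : ℤ) : ℤ) : ℝ) * Real.sqrt p := by
  have h := gsv_twist p hp4 n
  rw [hg, ← gsv_sum] at h
  have h2 := congrArg Complex.im h
  rw [Complex.im_sum] at h2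
  have h3 : ∀ j ∈ range p, (((quadraticChar (ZMod p) (j : ZMod p) : ℤ) : ℂ) *
      ZMod.stdAddChar (N := p) ((n : ZMod p) * (j : ZMod p))).im =
        ((legendreSym p (j : ℤ) : ℤ) : ℝ) * Real.sin (n * (2 * Real.pi * j / p)) := by
    intro j _
    rw [gsv_std, Complex.mul_im, Complex.intCast_re, Complex.intCast_im, zero_mul, add_zero,
      Complex.exp_ofReal_mul_I_im]
    simp [legendreSym]
  rw [sum_congr rfl h3] at h2
  rw [h2, Complex.mul_im, Complex.intCast_re, Complex.intCast_im, zero_mul, add_zero,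
    Complex.mul_im, Complex.I_re, Complex.I_im, Complex.ofReal_re, Complex.ofReal_im]
  simp [legendreSym]

end Pool.Agent.DCN
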