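import Pool.Agent.DCN.Defs

/-!
# DCN: the sign of the quadratic Gauss sum for a prime p = 3 mod 4
-/

set_option autoImplicit false

open Finset Polynomial

namespace Pool.Agent.DCN

/-- the operator `X d/dX` -/
noncomputable def eul (R : Type) [CommRing R] : R[X] →ₗ[R] R[X] :=
  (LinearMap.mulLeft R X).comp derivative

theorem eul_apply {R : Type} [CommRing R] (f : R[X]) : eul R f = X * derivative f := rfl

theorem eul_pow_mul {R : Type} [CommRing R] (n : ℕ) (Q : R[X]) :
    eval 1 ((eul R ^ n) ((X - 1) ^ n * Q)) = (n.factorial : R) * eval 1 Q := by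
  induction n generalizing Q with
  | zero => simp
  | succ n ih =>
    have h : eul R ((X - 1) ^ (n + 1) * Q)
        = (X - 1) ^ n * (X * (((n : R[X]) + 1) * Q + (X - 1) * derivative Q)) := by
      rw [eul_apply, derivative_mul, derivative_pow]
      simp only [derivative_sub, derivative_X, derivative_one, sub_zero, mul_one,
        Nat.add_sub_cancel, Nat.cast_add, Nat.cast_one, map_add, map_natCast, map_one]
      ring
    rw [pow_succ, Module.End.mul_apply, h, ih]
    simp only [eval_mul, eval_add, eval_X, eval_natCast, eval_one, eval_sub, sub_self,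
      zero_mul, add_zero, one_mul, Nat.factorial_succ, Nat.cast_mul, Nat.cast_add, Nat.cast_one]
    ring

theorem eul_monomial {R : Type} [CommRing R] (n j : ℕ) (c : R) :
    (eul R ^ n) (C c * X ^ j) = C (c * (j : R) ^ n) * X ^ j := by
  induction n with
  | zero => simp
  | succ n ih =>
    rw [pow_succ', Module.End.mul_apply, ih, eul_apply]
    cases j with
    | zero =>
      rw [pow_zero, mul_one, derivative_C, mul_zero, Nat.cast_zero, pow_succ]
      simp
    | succ j =>
      rw [derivative_C_mul_X_pow]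
      simp only [Nat.add_sub_cancel, map_mul, map_pow]
      ring

theorem fact_split (m : ℕ) :
    (2 * m).factorial = m.factorial * 2 ^ m * ∏ k ∈ range m, (2 * k + 1) := by
  induction m with
  | zero => simp
  | succ m ih =>
    rw [prod_range_succ, show 2 * (m + 1) = 2 * m + 1 + 1 by ring, Nat.factorial_succ,
      Nat.factorial_succ, ih, Nat.factorial_succ]
    ring

theorem eps_eq_one (p m : ℕ) [Fact p.Prime] (hm : p = 2 * m + 1) (ε : ℤ)
    (hε : ε = 1 ∨ ε = -1)
    (hd : cyclotomic p ℤ ∣ (∑ j ∈ range p, C (legendreSym p j) * X ^ j)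
      - C ε * ∏ k ∈ range m, (X ^ (2 * k + 1) - X ^ (p - (2 * k + 1)))) : ε = 1 := by
  have hp : p.Prime := Fact.out
  have hm1 : 1 ≤ m := by
    have := hp.two_le
    omega
  -- reduction mod p
  have hd2 := Polynomial.map_dvd (Int.castRingHom (ZMod p)) hd
  rw [map_cyclotomic] at hd2
  have hcy : cyclotomic p (ZMod p) = (X - 1) ^ (p - 1) := by
    have h := cyclotomic_mul_prime_eq_pow_of_not_dvd (ZMod p) (p := p) (n := 1)
      (fun h => hp.one_lt.ne' (Nat.dvd_one.mp h))
    rw [one_mul, cyclotomic_one] at h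
    exact h
  rw [hcy] at hd2
  have hA : Polynomial.map (Int.castRingHom (ZMod p))
      ((∑ j ∈ range p, C (legendreSym p j) * X ^ j)
      - C ε * ∏ k ∈ range m, (X ^ (2 * k + 1) - X ^ (p - (2 * k + 1))))
      = (∑ j ∈ range p, C ((j : ZMod p) ^ m) * X ^ j)
      - C (ε : ZMod p) * ∏ k ∈ range m, (X ^ (2 * k + 1) - X ^ (p - (2 * k + 1))) := by
    rw [Polynomial.map_sub, Polynomial.map_sum, Polynomial.map_mul, Polynomial.map_prod]
    congr 1
    · refine sum_congr rfl (fun j _ => ?_)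
      rw [Polynomial.map_mul, Polynomial.map_pow, map_X, map_C]
      congr 2
      have h := legendreSym.eq_pow p (j : ℤ)
      have h2 : p / 2 = m := by omega
      rw [h2] at h
      change ((legendreSym p (j : ℤ) : ℤ) : ZMod p) = (j : ZMod p) ^ m
      rw [h, Int.cast_natCast]
    · rw [map_C, Int.coe_castRingHom]
      congr 1
      refine prod_congr rfl (fun k _ => ?_)
      rw [Polynomial.map_sub, Polynomial.map_pow, Polynomial.map_pow, map_X]
  rw [hA] at hd2
  -- the factors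
  have hg : ∀ k : ℕ, ∃ h : (ZMod p)[X], (X ^ (2 * k + 1) - X ^ (p - (2 * k + 1)) : (ZMod p)[X])
      = (X - 1) * h ∧ (k < m → eval 1 h = 2 * (2 * (k : ZMod p) + 1)) := by
    intro k
    have hr : (X - C (1 : ZMod p)) ∣ (X ^ (2 * k + 1) - X ^ (p - (2 * k + 1)) : (ZMod p)[X]) := by
      rw [dvd_iff_isRoot]
      simp [IsRoot]
    obtain ⟨h, hh⟩ := hr
    rw [C_1] at hh
    refine ⟨h, hh, fun hk => ?_⟩
    have hder := congrArg (fun f => eval 1 (derivative f)) hh
    simp only [derivative_sub, derivative_mul, derivative_X, derivative_one, sub_zero, one_mul,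
      eval_add, eval_mul, eval_sub, eval_X, eval_one, sub_self, zero_mul, add_zero,
      derivative_X_pow, eval_pow, one_pow, mul_one, eval_C] at hder
    rw [← hder, Nat.cast_sub (by omega)]
    push_cast
    rw [ZMod.natCast_self]
    ring
  choose h hh h1 using hg
  have hB : (∏ k ∈ range m, (X ^ (2 * k + 1) - X ^ (p - (2 * k + 1))) : (ZMod p)[X])
      = (X - 1) ^ m * ∏ k ∈ range m, h k := by
    rw [prod_congr rfl (fun k _ => hh k), prod_mul_distrib, prod_const, card_range]
  obtain ⟨R, hR⟩ := hd2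
  have hAe : (∑ j ∈ range p, C ((j : ZMod p) ^ m) * X ^ j)
      = (X - 1) ^ m * (C (ε : ZMod p) * (∏ k ∈ range m, h k) + (X - 1) ^ (p - 1 - m) * R) := by
    have h3 : (X - 1 : (ZMod p)[X]) ^ (p - 1) = (X - 1) ^ m * (X - 1) ^ (p - 1 - m) := by
      rw [← pow_add]
      congr 1
      omega
    rw [h3] at hR
    rw [hB] at hR
    linear_combination hR
  have hL : eval 1 ((eul (ZMod p) ^ m) (∑ j ∈ range p, C ((j : ZMod p) ^ m) * X ^ j))
      = -1 := by
    rw [map_sum, eval_finsetSum]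
    have h4 : ∀ j ∈ range p, eval 1 ((eul (ZMod p) ^ m) (C ((j : ZMod p) ^ m) * X ^ j))
        = if j = 0 then 0 else 1 := by
      intro j hj
      rw [eul_monomial]
      simp only [eval_mul, eval_C, eval_pow, eval_X, one_pow, mul_one]
      rw [← pow_add]
      by_cases hj0 : j = 0
      · rw [if_pos hj0, hj0, Nat.cast_zero, zero_pow (by omega)]
      · rw [if_neg hj0, show m + m = p - 1 by omega]
        apply ZMod.pow_card_sub_one_eq_one
        intro hc
        rw [ZMod.natCast_eq_zero_iff] at hc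
        exact hj0 (Nat.eq_zero_of_dvd_of_lt hc (mem_range.mp hj))
    rw [sum_congr rfl h4, sum_ite, sum_const_zero, zero_add, sum_const, nsmul_eq_mul, mul_one]
    have h5 : (filter (fun x => ¬ x = 0) (range p)).card = p - 1 := by
      have h6 : filter (fun x => ¬ x = 0) (range p) = (range p).erase 0 := by
        ext x
        simp [and_comm]
      rw [h6, card_erase_of_mem (mem_range.mpr hp.pos), card_range]
    rw [h5, Nat.cast_sub hp.one_le, ZMod.natCast_self]
    simp
  rw [hAe, eul_pow_mul] at hL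
  simp only [eval_add, eval_mul, eval_C, eval_pow, eval_sub, eval_X, eval_one, sub_self] at hL
  rw [zero_pow (by omega), zero_mul, add_zero, eval_prod,
    prod_congr rfl (fun k hk => h1 k (mem_range.mp hk)), prod_mul_distrib, prod_const,
    card_range] at hL
  have hW : ((p - 1).factorial : ZMod p) = -1 := ZMod.wilsons_lemma p
  have hF := fact_split m
  rw [show 2 * m = p - 1 by omega] at hF
  rw [hF] at hW
  push_cast at hW
  have hL2 : (ε : ZMod p) * (-1) = -1 := by
    linear_combination hL - (ε : ZMod p) * hW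
  rcases hε with h7 | h7
  · exact h7
  · exfalso
    rw [h7] at hL2
    push_cast at hL2
    have h8 : (2 : ZMod p) = 0 := by linear_combination hL2
    have h9 : ((2 : ℕ) : ZMod p) = 0 := by exact_mod_cast h8
    rw [ZMod.natCast_eq_zero_iff] at h9
    have := Nat.le_of_dvd (by norm_num) h9
    omega

/-! ### The product -/

theorem prod_pair (m : ℕ) (g : ℕ → ℂ) :
    ∏ k ∈ range m, (g (2 * k) * g (2 * k + 1)) = ∏ j ∈ range (2 * m), g j := by
  induction m with
  | zero => simp
  | succ m ih =>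
    rw [prod_range_succ, ih, show 2 * (m + 1) = 2 * m + 1 + 1 by ring, prod_range_succ,
      prod_range_succ]
    ring

theorem prod_sq {p m : ℕ} (hm : p = 2 * m + 1) (hpr : p.Prime) {z : ℂ}
    (hz : IsPrimitiveRoot z p) :
    (∏ k ∈ range m, (z ^ (2 * k + 1) - z ^ (p - (2 * k + 1)))) ^ 2 = (-1) ^ m * (p : ℂ) := by
  have hcop : Nat.Coprime 2 p := by
    rw [Nat.coprime_comm, Nat.coprime_primes hpr Nat.prime_two]
    omega
  have hz2 : IsPrimitiveRoot (z ^ 2) (2 * m + 1) := by
    rw [← hm]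
    exact hz.pow_of_coprime 2 hcop
  have h1 := hz2.prod_one_sub_pow_eq_order
  have hzp : z ^ p = 1 := hz.pow_eq_one
  rw [← prod_pow]
  have h2 : ∀ k ∈ range m, (z ^ (2 * k + 1) - z ^ (p - (2 * k + 1))) ^ 2
      = (-1) * ((1 - (z ^ 2) ^ (2 * k + 1)) * (1 - (z ^ 2) ^ (2 * (m - 1 - k) + 1 + 1))) := by
    intro k hk
    have hk' := mem_range.mp hk
    have h3 : z ^ (2 * k + 1) * z ^ (p - (2 * k + 1)) = 1 := by
      rw [← pow_add, show 2 * k + 1 + (p - (2 * k + 1)) = p by omega, hzp]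
    have h4 : (z ^ 2) ^ (2 * k + 1) = (z ^ (2 * k + 1)) ^ 2 := by
      rw [← pow_mul, ← pow_mul, mul_comm]
    have h5 : (z ^ 2) ^ (2 * (m - 1 - k) + 1 + 1) = (z ^ (p - (2 * k + 1))) ^ 2 := by
      rw [← pow_mul, ← pow_mul]
      congr 1
      omega
    rw [h4, h5]
    linear_combination (-1 + z ^ (2 * k + 1) * z ^ (p - (2 * k + 1))) * h3 - 0 * h3
  rw [prod_congr rfl h2, prod_mul_distrib, prod_const, card_range, prod_mul_distrib]
  have h6 : ∏ k ∈ range m, (1 - (z ^ 2) ^ (2 * (m - 1 - k) + 1 + 1))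
      = ∏ k ∈ range m, (1 - (z ^ 2) ^ (2 * k + 1 + 1)) :=
    prod_range_reflect (fun k => 1 - (z ^ 2) ^ (2 * k + 1 + 1)) m
  rw [h6, ← prod_mul_distrib]
  have h7 := prod_pair m (fun j => 1 - (z ^ 2) ^ (j + 1))
  rw [h7, h1, hm]
  push_cast
  ring

theorem zt_prim {p : ℕ} (hp : p ≠ 0) : IsPrimitiveRoot (zt p) p :=
  Complex.isPrimitiveRoot_exp p hp

theorem zt_pow (p a : ℕ) :
    zt p ^ a = Complex.exp ((2 * Real.pi * a / p : ℝ) * Complex.I) := by
  unfold zt
  rw [← Complex.exp_nat_mul]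
  congr 1
  push_cast
  ring

theorem zt_diff {p a : ℕ} (hp : p ≠ 0) (ha : a ≤ p) :
    zt p ^ a - zt p ^ (p - a) = 2 * Complex.I * (Real.sin (2 * Real.pi * a / p) : ℂ) := by
  have h1 : zt p ^ a * zt p ^ (p - a) = 1 := by
    rw [← pow_add, show a + (p - a) = p by omega, (zt_prim hp).pow_eq_one]
  have h2 : zt p ^ (p - a) = Complex.exp (-((2 * Real.pi * a / p : ℝ) * Complex.I)) := by
    rw [Complex.exp_neg, ← zt_pow]
    exact eq_inv_of_mul_eq_one_right h1
  rw [h2, zt_pow, Complex.ofReal_sin, Complex.sin]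
  have h3 : Complex.I * Complex.I = -1 := Complex.I_mul_I
  rw [show -(((2 * Real.pi * a / p : ℝ) : ℂ)) * Complex.I
    = -((((2 * Real.pi * a / p : ℝ) : ℂ)) * Complex.I) by ring]
  linear_combination (Complex.exp (-((2 * Real.pi * a / p : ℝ) * Complex.I))
    - Complex.exp ((2 * Real.pi * a / p : ℝ) * Complex.I)) * (-h3)

theorem prod_val {p t : ℕ} (ht : p = 4 * t + 3) (hpr : p.Prime) :
    ∏ k ∈ range (2 * t + 1), (zt p ^ (2 * k + 1) - zt p ^ (p - (2 * k + 1)))
      = Complex.I * (Real.sqrt p : ℂ) := by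
  have hp0 : p ≠ 0 := hpr.ne_zero
  have hpR : (0 : ℝ) < p := by exact_mod_cast hpr.pos
  have hpi := Real.pi_pos
  set s : ℕ → ℝ := fun k => Real.sin (2 * Real.pi * ((2 * k + 1 : ℕ) : ℝ) / p) with hs
  have h1 : ∏ k ∈ range (2 * t + 1), (zt p ^ (2 * k + 1) - zt p ^ (p - (2 * k + 1)))
      = (2 * Complex.I) ^ (2 * t + 1) * ((∏ k ∈ range (2 * t + 1), s k : ℝ) : ℂ) := by
    rw [prod_congr rfl (fun k hk => zt_diff hp0 (show 2 * k + 1 ≤ p by
      have := mem_range.mp hk
      omega)), prod_mul_distrib, prod_const, card_range, Complex.ofReal_prod]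
  have h2 : ∏ k ∈ range (2 * t + 1), s k
      = (∏ k ∈ range (t + 1), s k) * ∏ j ∈ range t, s (t + 1 + j) := by
    rw [show 2 * t + 1 = t + 1 + t by ring, prod_range_add]
  have hpos1 : 0 < ∏ k ∈ range (t + 1), s k := by
    apply prod_pos
    intro k hk
    have hk' := mem_range.mp hk
    apply Real.sin_pos_of_pos_of_lt_pi
    · positivity
    · rw [div_lt_iff₀ hpR]
      have : (2 : ℝ) * ((2 * k + 1 : ℕ) : ℝ) < p := by
        have h : 2 * (2 * k + 1) < p := by omega
        exact_mod_cast h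
      nlinarith
  have hneg : ∏ j ∈ range t, s (t + 1 + j)
      = (-1) ^ t * ∏ j ∈ range t, (- s (t + 1 + j)) := by
    rw [prod_neg, card_range, ← mul_assoc, ← mul_pow]
    simp
  have hpos2 : 0 < ∏ j ∈ range t, (- s (t + 1 + j)) := by
    apply prod_pos
    intro j hj
    have hj' := mem_range.mp hj
    have h3 : - s (t + 1 + j)
        = Real.sin (2 * Real.pi * ((2 * (t + 1 + j) + 1 : ℕ) : ℝ) / p - Real.pi) := by
      rw [Real.sin_sub_pi]
    rw [h3]
    apply Real.sin_pos_of_pos_of_lt_pi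
    · rw [sub_pos, lt_div_iff₀ hpR]
      have : (p : ℝ) < 2 * ((2 * (t + 1 + j) + 1 : ℕ) : ℝ) := by
        have h : p < 2 * (2 * (t + 1 + j) + 1) := by omega
        exact_mod_cast h
      nlinarith
    · rw [sub_lt_iff_lt_add, div_lt_iff₀ hpR]
      have : ((2 * (t + 1 + j) + 1 : ℕ) : ℝ) < p := by
        have h : 2 * (t + 1 + j) + 1 < p := by omega
        exact_mod_cast h
      nlinarith
  set r : ℝ := 2 ^ (2 * t + 1) * ((∏ k ∈ range (t + 1), s k) * ∏ j ∈ range t, (- s (t + 1 + j)))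
    with hr
  have hrpos : 0 < r := by positivity
  have hP : ∏ k ∈ range (2 * t + 1), (zt p ^ (2 * k + 1) - zt p ^ (p - (2 * k + 1)))
      = Complex.I * (r : ℂ) := by
    rw [h1, h2, hneg, mul_pow, show 2 * t + 1 = 2 * t + 1 from rfl, pow_succ Complex.I,
      pow_mul, Complex.I_sq, hr]
    have h4 : ((-1 : ℂ) ^ t) * ((-1) ^ t) = 1 := by
      rw [← mul_pow]
      simp
    push_cast
    linear_combination (2 ^ (2 * t + 1) * Complex.I * (∏ k ∈ range (t + 1), (s k : ℂ))
      * ∏ j ∈ range t, (- (s (t + 1 + j) : ℂ))) * h4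
  have hsq := prod_sq (show p = 2 * (2 * t + 1) + 1 by omega) hpr (zt_prim hp0)
  rw [hP, mul_pow, Complex.I_sq] at hsq
  have h5 : (r : ℂ) ^ 2 = (p : ℂ) := by
    have h6 : ((-1 : ℂ) ^ (2 * t + 1)) = -1 := by
      rw [pow_succ, pow_mul]
      simp
    rw [h6] at hsq
    linear_combination -hsq
  have h7 : r ^ 2 = (p : ℝ) := by exact_mod_cast h5
  have h8 : r = Real.sqrt p := by
    rw [← h7, Real.sqrt_sq hrpos.le]
  rw [hP, h8]

/-! ### The Gauss sum -/

theorem gauss_range_std (p : ℕ) [Fact p.Prime] :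
    gaussSum ((quadraticChar (ZMod p)).ringHomComp (Int.castRingHom ℂ)) (ZMod.stdAddChar)
      = ∑ j ∈ range p, (legendreSym p j : ℂ) * zt p ^ j := by
  unfold gaussSum
  symm
  refine sum_nbij' (fun j => (j : ZMod p)) (fun a => a.val) ?_ ?_ ?_ ?_ ?_
  · intro j _
    exact mem_univ _
  · intro a _
    exact mem_range.mpr (ZMod.val_lt a)
  · intro j hj
    exact ZMod.val_cast_of_lt (mem_range.mp hj)
  · intro a _
    exact ZMod.natCast_zmod_val a
  · intro j _
    have h1 : ZMod.stdAddChar (N := p) (j : ZMod p) = zt p ^ j := by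
      have h := ZMod.stdAddChar_coe (N := p) (j : ℤ)
      rw [Int.cast_natCast] at h
      rw [h, zt_pow]
      congr 1
      push_cast
      ring
    rw [h1, MulChar.ringHomComp_apply]
    simp [legendreSym]

theorem gauss_sq (p : ℕ) [Fact p.Prime] (hp : p % 4 = 3) :
    (∑ j ∈ range p, (legendreSym p j : ℂ) * zt p ^ j) ^ 2 = -(p : ℂ) := by
  rw [← gauss_range_std]
  have hpr : p.Prime := Fact.out
  have h2 : ringChar (ZMod p) ≠ 2 := by
    rw [ZMod.ringChar_zmod_n]
    intro h
    rw [h] at hp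
    omega
  have hinj : Function.Injective (Int.castRingHom ℂ) := Int.cast_injective
  have h3 : (quadraticChar (ZMod p)).ringHomComp (Int.castRingHom ℂ) ≠ 1 := by
    rw [MulChar.ringHomComp_ne_one_iff hinj]
    exact quadraticChar_ne_one h2
  have h4 : ((quadraticChar (ZMod p)).ringHomComp (Int.castRingHom ℂ)).IsQuadratic :=
    (quadraticChar_isQuadratic (ZMod p)).comp _
  rw [gaussSum_sq h3 h4 (ZMod.isPrimitive_stdAddChar p), ZMod.card, MulChar.ringHomComp_apply]
  have h5 : quadraticChar (ZMod p) (-1) = -1 := by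
    have h6 : legendreSym p (-1) = -1 := by
      rw [legendreSym.at_neg_one (by rintro rfl; omega), ZMod.χ₄_nat_three_mod_four hp]
    have h7 : legendreSym p (-1) = quadraticChar (ZMod p) (-1) := by simp [legendreSym]
    rw [← h7, h6]
  rw [h5]
  simp

/-- the sign of the quadratic Gauss sum for `p = 3 mod 4` -/
theorem gauss_zt (p : ℕ) [Fact p.Prime] (hp : p % 4 = 3) :
    ∑ j ∈ range p, (legendreSym p j : ℂ) * zt p ^ j = Complex.I * (Real.sqrt p : ℂ) := by
  have hpr : p.Prime := Fact.out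
  obtain ⟨t, ht⟩ : ∃ t, p = 4 * t + 3 := ⟨p / 4, by omega⟩
  have hP := prod_val ht hpr
  have hsq := gauss_sq p hp
  set g := ∑ j ∈ range p, (legendreSym p j : ℂ) * zt p ^ j with hg
  have hs : ((Real.sqrt p : ℝ) : ℂ) ^ 2 = (p : ℂ) := by
    have : (Real.sqrt p) ^ 2 = (p : ℝ) := Real.sq_sqrt (Nat.cast_nonneg p)
    exact_mod_cast this
  have h1 : g ^ 2 = (Complex.I * (Real.sqrt p : ℂ)) ^ 2 := by
    rw [hsq, mul_pow, Complex.I_sq, hs]
    ring
  obtain ⟨ε, hε, hgε⟩ : ∃ ε : ℤ, (ε = 1 ∨ ε = -1)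
      ∧ g = (ε : ℂ) * (Complex.I * (Real.sqrt p : ℂ)) := by
    rcases sq_eq_sq_iff_eq_or_eq_neg.mp h1 with h | h
    · exact ⟨1, Or.inl rfl, by rw [h]; push_cast; ring⟩
    · exact ⟨-1, Or.inr rfl, by rw [h]; push_cast; ring⟩
  have hd : cyclotomic p ℤ ∣ (∑ j ∈ range p, C (legendreSym p j) * X ^ j)
      - C ε * ∏ k ∈ range (2 * t + 1), (X ^ (2 * k + 1) - X ^ (p - (2 * k + 1))) := by
    rw [cyclotomic_eq_minpoly (zt_prim hpr.ne_zero) hpr.pos]
    apply minpoly.isIntegrallyClosed_dvd ((zt_prim hpr.ne_zero).isIntegral hpr.pos)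
    rw [map_sub, map_sum, map_mul, map_prod]
    have h2 : ∀ j ∈ range p, aeval (zt p) (C (legendreSym p j) * X ^ j : ℤ[X])
        = (legendreSym p j : ℂ) * zt p ^ j := by
      intro j _
      rw [map_mul, map_pow, aeval_X, aeval_C]
      rfl
    have h3 : ∀ k ∈ range (2 * t + 1), aeval (zt p)
        (X ^ (2 * k + 1) - X ^ (p - (2 * k + 1)) : ℤ[X])
        = zt p ^ (2 * k + 1) - zt p ^ (p - (2 * k + 1)) := by
      intro k _
      rw [map_sub, map_pow, map_pow, aeval_X]
    rw [sum_congr rfl h2, prod_congr rfl h3, hP, ← hg, hgε, aeval_C]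
    simp
  have h4 := eps_eq_one p (2 * t + 1) (by omega) ε hε hd
  rw [hgε, h4]
  push_cast
  ring

theorem gauss_sum_range (p : ℕ) [Fact p.Prime] (hp : p % 4 = 3) :
    ∑ j ∈ range p, (legendreSym p j : ℂ) * Complex.exp (2 * Real.pi * Complex.I * j / p)
      = Complex.I * (Real.sqrt p : ℂ) := by
  rw [← gauss_zt p hp]
  refine sum_congr rfl (fun j _ => ?_)
  rw [zt_pow]
  congr 2
  push_cast
  ring

theorem gauss_sum_std (p : ℕ) [Fact p.Prime] (hp : p % 4 = 3) :
    gaussSum ((quadraticChar (ZMod p)).ringHomComp (Int.castRingHom ℂ)) (ZMod.stdAddChar)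
      = Complex.I * (Real.sqrt p : ℂ) := by
  rw [gauss_range_std, gauss_zt p hp]

/-- the rows GSQ, PR2, PRI, DIV, GP1, GP2, GP3, GAU together -/
theorem gau_val (p : ℕ) [Fact p.Prime] (hp4 : p % 4 = 3) :
    gau p = Complex.I * (Real.sqrt p : ℂ) :=
  gauss_zt p hp4

end Pool.Agent.DCN
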