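import Mathlib

/-!
# The odd Hurwitz zeta function at `s = 1` (helper2)
-/

namespace Pool.Agent.DCN

open Filter Topology Complex HurwitzZeta Finset
open scoped Real

theorem hz_bound {c x y s : ℝ} (hc : 0 < c) (hx : c ≤ x) (hy : c ≤ y) (hxy : |x - y| ≤ 1)
    (hs : 1 ≤ s) (hs2 : s ≤ 2) :
    |x ^ (-s) - y ^ (-s)| ≤ (1 + 1 / c) * 2 / (x * y) := by
  wlog h : x ≤ y generalizing x y
  · have := this hy hx (by rwa [abs_sub_comm]) (le_of_not_ge h)
    rwa [abs_sub_comm, mul_comm y x] at this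
  have hx0 : 0 < x := lt_of_lt_of_le hc hx
  have hy0 : 0 < y := lt_of_lt_of_le hc hy
  have h1 : y ^ (-s) ≤ x ^ (-s) := Real.rpow_le_rpow_of_nonpos hx0 h (by linarith)
  rw [abs_of_nonneg (by linarith)]
  have h2 : y ^ (-s) = x ^ (-s) * (x / y) ^ s := by
    rw [Real.div_rpow hx0.le hy0.le, Real.rpow_neg hx0.le, Real.rpow_neg hy0.le]
    have : x ^ s ≠ 0 := (Real.rpow_pos_of_pos hx0 s).ne'
    field_simp
  have h3 : (x / y) ^ (2 : ℝ) ≤ (x / y) ^ s := by
    apply Real.rpow_le_rpow_of_exponent_ge (by positivity) ((div_le_one hy0).2 h) hs2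
  have h4 : x ^ (-s) ≤ (1 + 1 / c) / x := by
    rcases le_or_gt 1 x with h5 | h5
    · calc x ^ (-s) ≤ x ^ (-1 : ℝ) := Real.rpow_le_rpow_of_exponent_le h5 (by linarith)
        _ = 1 / x := by rw [Real.rpow_neg_one, one_div]
        _ ≤ _ := by
          apply div_le_div_of_nonneg_right _ hx0.le
          have : 0 < 1 / c := by positivity
          linarith
    · calc x ^ (-s) ≤ x ^ (-2 : ℝ) :=
            Real.rpow_le_rpow_of_exponent_ge hx0 h5.le (by linarith)
        _ = (1 / x) / x := by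
          rw [Real.rpow_neg hx0.le, Real.rpow_two]; field_simp
        _ ≤ _ := by
          apply div_le_div_of_nonneg_right _ hx0.le
          have : 1 / x ≤ 1 / c := one_div_le_one_div_of_le hc hx
          linarith
  have h5 : 1 - (x / y) ^ s ≤ 2 / y := by
    have h6 : 1 - (x / y) ^ (2 : ℝ) ≤ 2 / y := by
      rw [Real.rpow_two]
      have h7 : y - x ≤ 1 := by rw [abs_le] at hxy; linarith [hxy.1]
      have h8 : 1 - (x / y) ^ 2 = (y - x) * (y + x) / y ^ 2 := by field_simp; ring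
      rw [h8, div_le_div_iff₀ (by positivity) hy0]
      nlinarith [mul_nonneg (sub_nonneg.2 h7) (by positivity : 0 ≤ (y + x) * y)]
    linarith
  have h6 : 0 ≤ x ^ (-s) := (Real.rpow_pos_of_pos hx0 _).le
  have h7 : 0 ≤ 1 - (x / y) ^ s := by
    have := Real.rpow_le_one (by positivity : 0 ≤ x / y) ((div_le_one hy0).2 h) (by linarith : 0 ≤ s)
    linarith
  calc x ^ (-s) - y ^ (-s) = x ^ (-s) * (1 - (x / y) ^ s) := by rw [h2]; ring
    _ ≤ ((1 + 1 / c) / x) * (2 / y) := by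
      apply mul_le_mul h4 h5 h7
      have : 0 < 1 / c := by positivity
      positivity
    _ = _ := by field_simp

theorem hz_summable {a : ℝ} (ha : 0 < a) (ha1 : a < 1) (C : ℝ) (hC : 0 ≤ C) :
    Summable (fun n : ℕ ↦ C / (((n : ℝ) + a) * ((n : ℝ) + 1 - a))) := by
  set c : ℝ := min a (1 - a) with hc
  have hc0 : 0 < c := lt_min ha (by linarith)
  have hca : c ≤ a := min_le_left _ _
  have hcb : c ≤ 1 - a := min_le_right _ _
  have hc1 : c ≤ 1 := by linarith
  have h1 : Summable (fun n : ℕ ↦ (C / c ^ 2) * (1 / ((n + 1 : ℕ) : ℝ) ^ 2)) :=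
    ((summable_nat_add_iff 1).2 (Real.summable_one_div_nat_pow.2 one_lt_two)).mul_left _
  refine Summable.of_nonneg_of_le (fun n => ?_) (fun n => ?_) h1
  · have : (0 : ℝ) ≤ n := Nat.cast_nonneg n
    have h2 : 0 < (n : ℝ) + a := by linarith
    have h3 : 0 < (n : ℝ) + 1 - a := by linarith
    positivity
  · have hn : (0 : ℝ) ≤ n := Nat.cast_nonneg n
    have h2 : c * (n + 1) ≤ (n : ℝ) + a := by nlinarith
    have h3 : c * (n + 1) ≤ (n : ℝ) + 1 - a := by nlinarith
    have h4 : 0 < c * ((n : ℝ) + 1) := by positivity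
    have h5 : (c * (n + 1)) * (c * (n + 1)) ≤ ((n : ℝ) + a) * ((n : ℝ) + 1 - a) :=
      mul_le_mul h2 h3 h4.le (by linarith)
    calc C / (((n : ℝ) + a) * ((n : ℝ) + 1 - a)) ≤ C / ((c * (n + 1)) * (c * (n + 1))) := by
          apply div_le_div_of_nonneg_left hC (by positivity) h5
      _ = _ := by push_cast; field_simp

theorem hz_tsum {a : ℝ} (ha : 0 < a) (ha1 : a < 1) :
    HasSum (fun n : ℕ ↦ (((((n : ℝ) + a) ^ (-1 : ℝ) - ((n : ℝ) + 1 - a) ^ (-1 : ℝ)) / 2 : ℝ) : ℂ))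
      (hurwitzZetaOdd (a : UnitAddCircle) 1) := by
  set c : ℝ := min a (1 - a) with hc
  have hc0 : 0 < c := lt_min ha (by linarith)
  have hca : c ≤ a := min_le_left _ _
  have hcb : c ≤ 1 - a := min_le_right _ _
  set R : ℝ → ℕ → ℂ := fun s n =>
    (((((n : ℝ) + a) ^ (-s) - ((n : ℝ) + 1 - a) ^ (-s)) / 2 : ℝ) : ℂ) with hR
  set B : ℕ → ℝ := fun n => ((1 + 1 / c) * 2) / (((n : ℝ) + a) * ((n : ℝ) + 1 - a)) with hB
  have hBs : Summable B := hz_summable ha ha1 _ (by positivity)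
  have hbd : ∀ s : ℝ, 1 ≤ s → s ≤ 2 → ∀ n, ‖R s n‖ ≤ B n := by
    intro s hs hs2 n
    have hn : (0 : ℝ) ≤ n := Nat.cast_nonneg n
    have h1 := hz_bound (c := c) (x := (n : ℝ) + a) (y := (n : ℝ) + 1 - a) (s := s) hc0
      (by linarith) (by linarith) (by rw [abs_le]; constructor <;> linarith) hs hs2
    rw [hR, hB]
    simp only [Complex.norm_real, Real.norm_eq_abs]
    rw [abs_div, abs_of_pos (by norm_num : (0 : ℝ) < 2)]
    have h0 := abs_nonneg (((n : ℝ) + a) ^ (-s) - ((n : ℝ) + 1 - a) ^ (-s))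
    linarith
  have hsum : ∀ s : ℝ, 1 ≤ s → s ≤ 2 → Summable (R s) := fun s hs hs2 =>
    Summable.of_norm_bounded hBs (hbd s hs hs2)
  have hev : ∀ s : ℝ, 1 < s → s ≤ 2 → ∑' n, R s n = hurwitzZetaOdd (a : UnitAddCircle) s := by
    intro s hs hs2
    have h1 := hasSum_nat_hurwitzZetaOdd_of_mem_Icc (a := a) ⟨ha.le, ha1.le⟩ (s := s)
      (by simpa using hs)
    rw [← h1.tsum_eq]
    refine tsum_congr fun n => ?_
    have hn : (0 : ℝ) ≤ n := Nat.cast_nonneg n
    have e1 : ((n : ℂ) + a) ^ (s : ℂ) = (((n : ℝ) + a) ^ s : ℝ) := by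
      rw [Complex.ofReal_cpow (by linarith)]; push_cast; rfl
    have e2 : ((n : ℂ) + 1 - a) ^ (s : ℂ) = (((n : ℝ) + 1 - a) ^ s : ℝ) := by
      rw [Complex.ofReal_cpow (by linarith)]; push_cast; rfl
    rw [e1, e2, hR]
    simp only []
    rw [Real.rpow_neg (by linarith), Real.rpow_neg (by linarith)]
    push_cast
    simp only [one_div]
  have hlim : Tendsto (fun s : ℝ => ∑' n, R s n) (𝓝[>] 1) (𝓝 (∑' n, R 1 n)) := by
    refine tendsto_tsum_of_dominated_convergence hBs (fun n => ?_) ?_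
    · have hn : (0 : ℝ) ≤ n := Nat.cast_nonneg n
      have hc1 : Continuous (fun s : ℝ => R s n) := by
        rw [hR]
        refine Complex.continuous_ofReal.comp (Continuous.div_const (Continuous.sub ?_ ?_) 2)
        · exact (Real.continuous_const_rpow (by linarith : (n : ℝ) + a ≠ 0)).comp continuous_neg
        · exact (Real.continuous_const_rpow (by linarith : (n : ℝ) + 1 - a ≠ 0)).comp continuous_neg
      exact (hc1.tendsto 1).mono_left nhdsWithin_le_nhds
    · filter_upwards [Ioo_mem_nhdsGT (by norm_num : (1 : ℝ) < 2)] with s hs n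
      exact hbd s hs.1.le hs.2.le n
  have hlim2 : Tendsto (fun s : ℝ => ∑' n, R s n) (𝓝[>] 1)
      (𝓝 (hurwitzZetaOdd (a : UnitAddCircle) 1)) := by
    have h1 : Tendsto (fun s : ℝ => hurwitzZetaOdd (a : UnitAddCircle) (s : ℂ)) (𝓝[>] 1)
        (𝓝 (hurwitzZetaOdd (a : UnitAddCircle) 1)) := by
      have h2 := ((differentiable_hurwitzZetaOdd (a : UnitAddCircle)).continuous.comp
        Complex.continuous_ofReal).tendsto (1 : ℝ)
      simp only [Function.comp_def, Complex.ofReal_one] at h2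
      exact h2.mono_left nhdsWithin_le_nhds
    refine h1.congr' ?_
    filter_upwards [Ioo_mem_nhdsGT (by norm_num : (1 : ℝ) < 2)] with s hs
    exact (hev s hs.1 hs.2.le).symm
  have hfin := tendsto_nhds_unique hlim2 hlim
  rw [hfin]
  exact (hsum 1 le_rfl (by norm_num)).hasSum

theorem hz_one {a : ℝ} (ha : 0 < a) (ha1 : a < 1) :
    hurwitzZetaOdd (a : UnitAddCircle) 1 = π / 2 * cot (π * a) := by
  have hint : (a : ℂ) ∈ Complex.integerComplement := by
    rintro ⟨m, hm⟩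
    have hm' : (m : ℝ) = a := by exact_mod_cast hm
    rw [← hm'] at ha ha1
    have h1 : 0 < m := by exact_mod_cast ha
    have h2 : m < 1 := by exact_mod_cast ha1
    omega
  have h1 := (hz_tsum ha ha1).tendsto_sum_nat
  have h2 := tendsto_logDeriv_euler_cot_sub hint
  have h3 : ∀ N : ℕ, ∑ n ∈ range N,
      (((((n : ℝ) + a) ^ (-1 : ℝ) - ((n : ℝ) + 1 - a) ^ (-1 : ℝ)) / 2 : ℝ) : ℂ)
      = (1 / a + ∑ j ∈ range N, cotTerm a j - 1 / (a + N)) / 2 := by
    intro N
    induction N with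
    | zero => simp
    | succ N ih =>
      have hN : (0 : ℝ) ≤ N := Nat.cast_nonneg N
      have e1 : ((N : ℂ) + a) ≠ 0 := by
        have : (N : ℝ) + a ≠ 0 := by linarith
        exact_mod_cast this
      have e2 : ((N : ℂ) + 1 - a) ≠ 0 := by
        have : (N : ℝ) + 1 - a ≠ 0 := by linarith
        exact_mod_cast this
      have e3 : ((N : ℂ) + 1 + a) ≠ 0 := by
        have : (N : ℝ) + 1 + a ≠ 0 := by linarith
        exact_mod_cast this
      have e4 : (a : ℂ) - (N + 1) = - ((N : ℂ) + 1 - a) := by ring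
      have e5 : (a : ℂ) + (N + 1) = (N : ℂ) + 1 + a := by ring
      have e6 : (a : ℂ) + N = (N : ℂ) + a := by ring
      rw [sum_range_succ, ih, sum_range_succ, Real.rpow_neg_one, Real.rpow_neg_one, cotTerm]
      push_cast
      rw [e4, e5, e6]
      field_simp
      ring
  have h4 : Tendsto (fun N : ℕ => (1 / (a : ℂ) + ∑ j ∈ range N, cotTerm a j - 1 / (a + N)) / 2) atTop
      (𝓝 ((1 / (a : ℂ) + (π * cot (π * a) - 1 / a) - 0) / 2)) := by
    refine Tendsto.div_const ((tendsto_const_nhds.add h2).sub ?_) 2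
    have h5 : Tendsto (fun N : ℕ => (1 / ((a : ℝ) + N) : ℝ)) atTop (𝓝 0) := by
      simp only [one_div]
      exact (tendsto_atTop_add_const_left atTop a tendsto_natCast_atTop_atTop).inv_tendsto_atTop
    have h6 := (Complex.continuous_ofReal.tendsto 0).comp h5
    simpa [Function.comp_def] using h6
  have h7 : (fun N : ℕ => ∑ n ∈ range N,
      (((((n : ℝ) + a) ^ (-1 : ℝ) - ((n : ℝ) + 1 - a) ^ (-1 : ℝ)) / 2 : ℝ) : ℂ)) =
      fun N : ℕ => (1 / (a : ℂ) + ∑ j ∈ range N, cotTerm a j - 1 / (a + N)) / 2 := funext h3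
  rw [h7] at h1
  rw [tendsto_nhds_unique h1 h4]
  ring

end Pool.Agent.DCN
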