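import Mathlib

set_option autoImplicit false

open NumberField

namespace Pool.Agent.DCN

theorem inert (K : Type*) [Field K] [NumberField K] (p q : ℕ) [Fact p.Prime] [Fact q.Prime]
    (hp : p % 4 = 3) (hK : Module.finrank ℚ K = 2) (ω : 𝓞 K)
    (hω : ω ^ 2 - ω + (((1 + p) / 4 : ℕ) : 𝓞 K) = 0)
    (hr : ¬ ∃ r : ZMod q, r ^ 2 - r + (((1 + p) / 4 : ℕ) : ZMod q) = 0) :
    ∃ P : Ideal (𝓞 K), P.IsPrime ∧ Ideal.absNorm P = q ^ 2 ∧
      ∀ P' : Ideal (𝓞 K), P'.IsPrime → (q : 𝓞 K) ∈ P' → P' = P := by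
  have hq : q.Prime := Fact.out
  have hn : Ideal.absNorm (Ideal.span {(q : 𝓞 K)}) = q ^ 2 := by
    have h1 := Ideal.absNorm_span_natCast (S := 𝓞 K) q
    rw [h1, RingOfIntegers.rank, hK]
  have key : ∀ P' : Ideal (𝓞 K), P'.IsPrime → (q : 𝓞 K) ∈ P' → P' = Ideal.span {(q : 𝓞 K)} := by
    intro P' hP' hqP'
    have hle : Ideal.span {(q : 𝓞 K)} ≤ P' := (Ideal.span_singleton_le_iff_mem P').2 hqP'
    obtain ⟨J, hJ⟩ := Ideal.dvd_iff_le.2 hle
    have hmul : q ^ 2 = Ideal.absNorm P' * Ideal.absNorm J := by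
      rw [← hn, hJ, map_mul]
    have hdvd : Ideal.absNorm P' ∣ q ^ 2 := ⟨_, hmul⟩
    obtain ⟨k, hk, hk2⟩ := (Nat.dvd_prime_pow hq).1 hdvd
    have h0 : k ≠ 0 := by
      rintro rfl
      rw [pow_zero, Ideal.absNorm_eq_one_iff] at hk2
      exact hP'.ne_top hk2
    have h1 : k ≠ 1 := by
      rintro rfl
      rw [pow_one] at hk2
      apply hr
      have hcard : Nat.card (𝓞 K ⧸ P') = q := by
        rw [← hk2, Ideal.absNorm_apply]
        rfl
      haveI : Finite (𝓞 K ⧸ P') := Nat.finite_of_card_ne_zero (by rw [hcard]; exact hq.ne_zero)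
      haveI : Fintype (𝓞 K ⧸ P') := Fintype.ofFinite _
      have hcard' : Fintype.card (𝓞 K ⧸ P') = q := by rw [← Nat.card_eq_fintype_card, hcard]
      let e : ZMod q ≃+* (𝓞 K ⧸ P') := ZMod.ringEquivOfPrime _ hq hcard'
      refine ⟨e.symm (Ideal.Quotient.mk P' ω), ?_⟩
      apply e.injective
      rw [map_add, map_sub, map_pow, e.apply_symm_apply, map_natCast, map_zero,
        ← map_pow, ← map_sub, ← map_natCast (Ideal.Quotient.mk P'), ← map_add, hω, map_zero]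
    have h2 : k = 2 := by omega
    rw [h2] at hk2
    have hJ1 : Ideal.absNorm J = 1 := by
      rw [hk2] at hmul
      have hq2 : 0 < q ^ 2 := pow_pos hq.pos 2
      nlinarith [Nat.eq_of_mul_eq_mul_left hq2 (show q ^ 2 * 1 = q ^ 2 * Ideal.absNorm J by rw [mul_one]; exact hmul)]
    rw [Ideal.absNorm_eq_one_iff] at hJ1
    rw [hJ1, Ideal.mul_top] at hJ
    exact hJ.symm
  have hne : Ideal.span {(q : 𝓞 K)} ≠ ⊤ := by
    intro h
    rw [h, Ideal.absNorm_top] at hn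
    have := hq.one_lt
    nlinarith
  obtain ⟨M, hM, hle⟩ := Ideal.exists_le_maximal _ hne
  have hMq : (q : 𝓞 K) ∈ M := hle (Ideal.mem_span_singleton_self _)
  have hMe := key M hM.isPrime hMq
  refine ⟨Ideal.span {(q : 𝓞 K)}, ?_, hn, key⟩
  rw [← hMe]
  exact hM.isPrime

end Pool.Agent.DCN
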