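import Pool.Agent.DCN.Hz

/-!
# `L(1, χ)` for the odd quadratic character (helper2)
-/

namespace Pool.Agent.DCN

open Filter Topology Complex HurwitzZeta Finset
open scoped Real

theorem sum_zmod_range {p : ℕ} [NeZero p] (f : ZMod p → ℂ) :
    ∑ j : ZMod p, f j = ∑ j ∈ range p, f (j : ZMod p) := by
  refine Finset.sum_bij' (fun j _ => j.val) (fun j _ => (j : ZMod p)) (fun j _ => ?_)
    (fun j _ => mem_univ _) (fun j _ => ?_) (fun j hj => ?_) (fun j _ => ?_)
  · exact mem_range.2 (ZMod.val_lt j)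
  · exact ZMod.natCast_zmod_val j
  · exact ZMod.val_natCast_of_lt (mem_range.1 hj)
  · rw [ZMod.natCast_zmod_val]

/-- `L(1, χ)` by cotangents -/
theorem LFunction_one_cot {p : ℕ} [Fact p.Prime] (χ : DirichletCharacter ℂ p) (hodd : χ.Odd) :
    DirichletCharacter.LFunction χ 1 =
      π / (2 * p) * ∑ j ∈ range p, χ (j : ZMod p) * cot (π * ((j : ℝ) / p : ℝ)) := by
  have hp0 : 0 < p := (Fact.out : p.Prime).pos
  have h0 : χ 0 = 0 := by
    have := DirichletCharacter.Odd.eval_neg χ 0 hodd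
    rw [neg_zero] at this
    have h2 : (2 : ℂ) * χ 0 = 0 := by linear_combination this
    simpa using h2
  have h1 : DirichletCharacter.LFunction χ 1 = ZMod.LFunction χ 1 := rfl
  rw [h1, ZMod.LFunction_def_odd hodd.to_fun, sum_zmod_range, Complex.cpow_neg_one]
  have h2 : ∀ j ∈ range p, χ (j : ZMod p) * hurwitzZetaOdd (ZMod.toAddCircle (j : ZMod p)) 1
      = π / 2 * (χ (j : ZMod p) * cot (π * ((j : ℝ) / p : ℝ))) := by
    intro j hj
    rcases Nat.eq_zero_or_pos j with rfl | hj0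
    · simp [h0]
    · have hpp : (0 : ℝ) < p := by exact_mod_cast hp0
      have hjj : (0 : ℝ) < j := by exact_mod_cast hj0
      have hjp : (j : ℝ) < p := by exact_mod_cast mem_range.1 hj
      rw [ZMod.toAddCircle_natCast, hz_one (by positivity) ((div_lt_one hpp).2 hjp)]
      ring
  rw [sum_congr rfl h2, ← mul_sum]
  field_simp

/-- `∑ k ω^k` for a root of unity -/
theorem sum_mul_pow {n : ℕ} {ω : ℂ} (h1 : ω ^ n = 1) (h2 : ω ≠ 1) :
    ∑ k ∈ range n, (k : ℂ) * ω ^ k = n / (ω - 1) := by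
  have h3 : ω - 1 ≠ 0 := sub_ne_zero.2 h2
  have h4 : ∑ k ∈ range n, ω ^ k = 0 := by
    have := geom_sum_mul ω n
    rw [h1, sub_self] at this
    exact (mul_eq_zero.1 this).resolve_right h3
  rw [eq_div_iff h3]
  have h5 : ∀ m : ℕ, (∑ k ∈ range m, (k : ℂ) * ω ^ k) * (ω - 1)
      = m * ω ^ m - ω * ∑ k ∈ range m, ω ^ k := by
    intro m
    induction m with
    | zero => simp
    | succ m ih =>
      rw [sum_range_succ, sum_range_succ, add_mul, ih]
      push_cast
      ring
  rw [h5, h4, h1]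
  ring

theorem inv_exp_sub_one {θ : ℝ} (h : Real.sin θ ≠ 0) :
    1 / (exp (2 * θ * I) - 1) = -(1 / 2) - I / 2 * cot θ := by
  have hs : Complex.sin θ ≠ 0 := by
    rw [← Complex.ofReal_sin]
    exact_mod_cast h
  have h1 : exp (2 * θ * I) - 1 = 2 * I * Complex.sin θ * (Complex.cos θ + Complex.sin θ * I) := by
    have h2 : (2 * θ * I : ℂ) = θ * I + θ * I := by ring
    rw [h2, Complex.exp_add, Complex.exp_mul_I]
    have h3 := Complex.sin_sq_add_cos_sq (θ : ℂ)
    have h4 : (I : ℂ) * I = -1 := Complex.I_mul_I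
    linear_combination h3 - Complex.sin θ ^ 2 * h4
  have h5 : (Complex.cos θ + Complex.sin θ * I) * (Complex.cos θ - Complex.sin θ * I) = 1 := by
    have h3 := Complex.sin_sq_add_cos_sq (θ : ℂ)
    have h4 : (I : ℂ) * I = -1 := Complex.I_mul_I
    linear_combination h3 - Complex.sin θ ^ 2 * h4
  have h6 : Complex.cos θ + Complex.sin θ * I ≠ 0 := left_ne_zero_of_mul_eq_one h5
  have h7 : (2 * I * Complex.sin θ * (Complex.cos θ + Complex.sin θ * I)) ≠ 0 := by
    refine mul_ne_zero (mul_ne_zero (mul_ne_zero two_ne_zero Complex.I_ne_zero) hs) h6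
  rw [h1, div_eq_iff h7, Complex.cot]
  have h8 : Complex.cos θ / Complex.sin θ * Complex.sin θ = Complex.cos θ := by
    field_simp
  have h4 : (I : ℂ) * I = -1 := Complex.I_mul_I
  linear_combination (Complex.cos θ * (Complex.cos θ + Complex.sin θ * I)) * h4 - h5 +
    I ^ 2 * (Complex.cos θ + Complex.sin θ * I) * h8

/-- the finite Fourier step -/
theorem gauss_mul_sum {p : ℕ} [Fact p.Prime] (χ : DirichletCharacter ℂ p) (hodd : χ.Odd)
    (hsq : ∀ a : (ZMod p)ˣ, χ a * χ a = 1) :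
    gaussSum χ ZMod.stdAddChar * ∑ k ∈ range p, (k : ℂ) * χ (k : ZMod p) =
      -(I * p / 2) * ∑ j ∈ range p, χ (j : ZMod p) * cot (π * ((j : ℝ) / p : ℝ)) := by
  have hp0 : 0 < p := (Fact.out : p.Prime).pos
  have h0 : χ 0 = 0 := by
    have := DirichletCharacter.Odd.eval_neg χ 0 hodd
    rw [neg_zero] at this
    have h2 : (2 : ℂ) * χ 0 = 0 := by linear_combination this
    simpa using h2
  have hsum0 : ∑ j ∈ range p, χ (j : ZMod p) = 0 := by
    rw [← sum_zmod_range (fun j => χ j)]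
    apply MulChar.sum_eq_zero_of_ne_one
    rintro rfl
    have : (1 : DirichletCharacter ℂ p) (-1) = -1 := hodd
    rw [MulChar.one_apply (isUnit_one.neg)] at this
    norm_num at this
  have h1 : ∀ k : ℕ, χ (k : ZMod p) * gaussSum χ ZMod.stdAddChar
      = ∑ j ∈ range p, χ (j : ZMod p) * (ZMod.stdAddChar (j : ZMod p) : ℂ) ^ k := by
    intro k
    have e0 : ∀ j : ZMod p, (ZMod.stdAddChar j : ℂ) ^ k = ZMod.stdAddChar ((k : ZMod p) * j) := by
      intro j
      rw [← nsmul_eq_mul, AddChar.map_nsmul_eq_pow]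
    rw [← sum_zmod_range (fun j => χ j * (ZMod.stdAddChar j : ℂ) ^ k)]
    by_cases hk : (k : ZMod p) = 0
    · rw [hk, h0, zero_mul]
      have : ∀ j : ZMod p, χ j * (ZMod.stdAddChar j : ℂ) ^ k = χ j := by
        intro j
        rw [e0, hk, zero_mul, AddChar.map_zero_eq_one, mul_one]
      simp only [this]
      rw [sum_zmod_range (fun j => χ j), hsum0]
    · set a : (ZMod p)ˣ := Units.mk0 (k : ZMod p) hk with ha
      have h2 := gaussSum_mulShift χ ZMod.stdAddChar a
      have h3 : χ (a : ZMod p) * gaussSum χ ZMod.stdAddChar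
          = gaussSum χ (ZMod.stdAddChar.mulShift (a : ZMod p)) := by
        rw [← h2, ← mul_assoc, hsq, one_mul]
      have h4 : (a : ZMod p) = k := rfl
      rw [h4] at h3
      rw [h3, gaussSum]
      refine sum_congr rfl fun j _ => ?_
      rw [e0, AddChar.mulShift_apply]
  have h2 : gaussSum χ ZMod.stdAddChar * ∑ k ∈ range p, (k : ℂ) * χ (k : ZMod p)
      = ∑ j ∈ range p, χ (j : ZMod p) *
        ∑ k ∈ range p, (k : ℂ) * (ZMod.stdAddChar (j : ZMod p) : ℂ) ^ k := by
    calc _ = ∑ k ∈ range p, (k : ℂ) * (χ (k : ZMod p) * gaussSum χ ZMod.stdAddChar) := by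
          rw [mul_sum]; exact sum_congr rfl fun k _ => by ring
      _ = ∑ k ∈ range p, ∑ j ∈ range p,
          (k : ℂ) * (χ (j : ZMod p) * (ZMod.stdAddChar (j : ZMod p) : ℂ) ^ k) := by
          refine sum_congr rfl fun k _ => ?_
          rw [h1, mul_sum]
      _ = ∑ j ∈ range p, ∑ k ∈ range p,
          (k : ℂ) * (χ (j : ZMod p) * (ZMod.stdAddChar (j : ZMod p) : ℂ) ^ k) := sum_comm
      _ = _ := by
          refine sum_congr rfl fun j _ => ?_
          rw [mul_sum]
          exact sum_congr rfl fun k _ => by ring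
  have h3 : ∀ j ∈ range p, χ (j : ZMod p) *
        ∑ k ∈ range p, (k : ℂ) * (ZMod.stdAddChar (j : ZMod p) : ℂ) ^ k
      = -(p / 2) * χ (j : ZMod p) +
        -(I * p / 2) * (χ (j : ZMod p) * cot (π * ((j : ℝ) / p : ℝ))) := by
    intro j hj
    rcases Nat.eq_zero_or_pos j with rfl | hj0
    · simp [h0]
    · have hpp : (0 : ℝ) < p := by exact_mod_cast hp0
      have hjj : (0 : ℝ) < j := by exact_mod_cast hj0
      have hjp : (j : ℝ) < p := by exact_mod_cast mem_range.1 hj
      have e1 : (ZMod.stdAddChar (j : ZMod p) : ℂ) = exp (2 * ((π * (j / p) : ℝ) : ℂ) * I) := by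
        have := ZMod.stdAddChar_coe (N := p) (j : ℤ)
        rw [Int.cast_natCast] at this
        rw [this]
        congr 1
        push_cast
        ring
      have e2 : (ZMod.stdAddChar (j : ZMod p) : ℂ) ^ p = 1 := by
        rw [← AddChar.map_nsmul_eq_pow, nsmul_eq_mul]
        simp
      have e3 : (ZMod.stdAddChar (j : ZMod p) : ℂ) ≠ 1 := by
        intro h
        have h4 : (j : ZMod p) = 0 := by
          apply ZMod.injective_stdAddChar
          rw [h, AddChar.map_zero_eq_one]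
        rw [ZMod.natCast_eq_zero_iff] at h4
        have := Nat.le_of_dvd hj0 h4
        have h5 := mem_range.1 hj
        omega
      have e4 : Real.sin (π * (j / p)) ≠ 0 := by
        apply (Real.sin_pos_of_pos_of_lt_pi (by positivity) _).ne'
        have : (j : ℝ) / p < 1 := (div_lt_one hpp).2 hjp
        nlinarith [Real.pi_pos]
      rw [sum_mul_pow e2 e3, e1, div_eq_mul_one_div, inv_exp_sub_one e4]
      push_cast
      ring
  rw [h2, sum_congr rfl h3, sum_add_distrib, ← mul_sum, ← mul_sum, hsum0]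
  ring

/-- `L(1, χ)` for odd quadratic `χ` of prime level -/
theorem LFunction_one_gauss {p : ℕ} [Fact p.Prime] (χ : DirichletCharacter ℂ p) (hodd : χ.Odd)
    (hsq : ∀ a : (ZMod p)ˣ, χ a * χ a = 1) :
    DirichletCharacter.LFunction χ 1 =
      π * I * gaussSum χ ZMod.stdAddChar / p ^ 2 * ∑ k ∈ range p, (k : ℂ) * χ (k : ZMod p) := by
  have hp0 : (p : ℂ) ≠ 0 := by exact_mod_cast (Fact.out : p.Prime).ne_zero
  have h1 := gauss_mul_sum χ hodd hsq
  rw [LFunction_one_cot χ hodd]
  have h4 : (I : ℂ) * I = -1 := Complex.I_mul_I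
  have h5 : (π : ℂ) * I * gaussSum χ ZMod.stdAddChar / p ^ 2 * ∑ k ∈ range p, (k : ℂ) * χ (k : ZMod p)
      = π * I / p ^ 2 * (gaussSum χ ZMod.stdAddChar * ∑ k ∈ range p, (k : ℂ) * χ (k : ZMod p)) := by
    ring
  rw [h5, h1]
  field_simp
  linear_combination (∑ j ∈ range p, χ (j : ZMod p) * cot (π * ((j : ℝ) / p : ℝ))) * h4

/-- `L(1, χ) = -(π / (p √p)) ∑ j χ(j)` when the Gauss sum is `i √p` -/
theorem LFunction_one_quadratic (p : ℕ) [Fact p.Prime] (hp : p % 4 = 3)
    (hg : ∑ j ∈ range p, (legendreSym p j : ℂ) * exp (2 * π * I * j / p) = I * (Real.sqrt p : ℂ))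
    (χ : DirichletCharacter ℂ p) (hχ : ∀ n : ℕ, χ (n : ZMod p) = (legendreSym p n : ℂ)) :
    DirichletCharacter.LFunction χ 1 =
      ((-(π / (p * Real.sqrt p)) * ∑ j ∈ range p, (j : ℝ) * legendreSym p j : ℝ) : ℂ) := by
  have hpr : p.Prime := Fact.out
  have hval : ∀ a : ZMod p, χ a = (quadraticChar (ZMod p) a : ℂ) := by
    intro a
    have := hχ a.val
    rw [ZMod.natCast_zmod_val] at this
    rw [this, legendreSym]
    simp
  have hodd : χ.Odd := by
    rw [DirichletCharacter.Odd, hval]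
    have h2 : (2 : ZMod p) ≠ 0 := by
      intro h
      have h3 : ((2 : ℕ) : ZMod p) = 0 := by exact_mod_cast h
      rw [ZMod.natCast_eq_zero_iff] at h3
      have := Nat.le_of_dvd two_pos h3
      omega
    have h3 : quadraticChar (ZMod p) (-1) = -1 := by
      rw [quadraticChar_neg_one (by rw [ZMod.ringChar_zmod_n]; omega), ZMod.card,
        ZMod.χ₄_nat_three_mod_four hp]
    rw [h3]
    push_cast
    rfl
  have hsq : ∀ a : (ZMod p)ˣ, χ a * χ a = 1 := by
    intro a
    rw [hval]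
    have h1 := quadraticChar_sq_one a.ne_zero
    have h2 : ((quadraticChar (ZMod p) (a : ZMod p) : ℤ) : ℂ) ^ 2 = 1 := by exact_mod_cast h1
    rw [← sq]
    exact h2
  have hgs : gaussSum χ ZMod.stdAddChar = I * (Real.sqrt p : ℂ) := by
    rw [← hg, gaussSum, sum_zmod_range (fun j => χ j * ZMod.stdAddChar j)]
    refine sum_congr rfl fun j _ => ?_
    have := ZMod.stdAddChar_coe (N := p) (j : ℤ)
    rw [Int.cast_natCast] at this
    rw [this, hχ, Int.cast_natCast]
  rw [LFunction_one_gauss χ hodd hsq, hgs]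
  have hS : ∑ k ∈ range p, (k : ℂ) * χ (k : ZMod p)
      = ((∑ j ∈ range p, (j : ℝ) * legendreSym p j : ℝ) : ℂ) := by
    push_cast
    exact sum_congr rfl fun k _ => by rw [hχ]
  rw [hS]
  have hp0 : (0 : ℝ) < p := by exact_mod_cast hpr.pos
  have hs0 : (0 : ℝ) < Real.sqrt p := Real.sqrt_pos.2 hp0
  have hs2 : Real.sqrt p * Real.sqrt p = p := Real.mul_self_sqrt hp0.le
  have h4 : (I : ℂ) * I = -1 := Complex.I_mul_I
  have hR : (π * (Real.sqrt p) / p ^ 2 : ℝ) = π / (p * Real.sqrt p) := by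
    rw [div_eq_div_iff (by positivity) (by positivity)]
    linear_combination π * p * hs2
  have hC : (π : ℂ) * I * (I * (Real.sqrt p : ℂ)) / p ^ 2 = ((-(π / (p * Real.sqrt p)) : ℝ) : ℂ) := by
    rw [← hR]
    push_cast
    linear_combination (π * (Real.sqrt p : ℂ) / p ^ 2) * h4
  rw [hC]
  push_cast
  ring

end Pool.Agent.DCN
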