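import Mathlib

/-!
# DCN: the number of ideals of given norm is multiplicative
-/

set_option autoImplicit false

open NumberField

namespace Pool.Agent.DCN

private theorem mul_norm_natCast {K : Type*} [Field K] [NumberField K] (n : ℕ) :
    Ideal.absNorm (Ideal.span {(n : 𝓞 K)}) = n ^ Module.finrank ℚ K := by
  rw [Ideal.absNorm_span_singleton]
  have h : ((n : ℤ) : 𝓞 K) = (n : 𝓞 K) := by push_cast; rfl
  rw [← h]
  have h2 : Algebra.norm ℤ ((n : ℤ) : 𝓞 K) = (n : ℤ) ^ Module.finrank ℤ (𝓞 K) := by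
    have := Algebra.norm_algebraMap_of_basis (RingOfIntegers.basis K) (n : ℤ)
    rw [Module.finrank_eq_card_chooseBasisIndex]
    simpa using this
  rw [h2, Int.natAbs_pow, Int.natAbs_natCast, RingOfIntegers.rank]

private theorem mul_key {K : Type*} [Field K] [NumberField K] {a b : ℕ} (ha : a ≠ 0)
    (hb : b ≠ 0) (hab : Nat.Coprime a b) (I : Ideal (𝓞 K)) (hI : Ideal.absNorm I = a * b) :
    (I ⊔ Ideal.span {(a : 𝓞 K)}) * (I ⊔ Ideal.span {(b : 𝓞 K)}) = I ∧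
      Ideal.absNorm (I ⊔ Ideal.span {(a : 𝓞 K)}) = a ∧
      Ideal.absNorm (I ⊔ Ideal.span {(b : 𝓞 K)}) = b := by
  set A : Ideal (𝓞 K) := Ideal.span {(a : 𝓞 K)} with hA
  set B : Ideal (𝓞 K) := Ideal.span {(b : 𝓞 K)} with hB
  have hAB : A ⊔ B = ⊤ := by
    rw [← Ideal.isCoprime_iff_sup_eq, hA, hB, Ideal.isCoprime_span_singleton_iff]
    have h0 := hab.isCoprime.map (Int.castRingHom (𝓞 K))
    simpa using h0
  have hmem : ((a * b : ℕ) : 𝓞 K) ∈ I := by
    rw [← hI]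
    exact Ideal.absNorm_mem I
  have hABI : A * B ≤ I := by
    rw [hA, hB, Ideal.span_singleton_mul_span_singleton, Ideal.span_singleton_le_iff_mem]
    exact_mod_cast hmem
  have h1 : (I ⊔ A) * (I ⊔ B) = I := by
    apply le_antisymm
    · rw [Ideal.sup_mul, Ideal.mul_sup, Ideal.mul_sup]
      refine sup_le (sup_le Ideal.mul_le_left Ideal.mul_le_left)
        (sup_le (Ideal.mul_le.2 fun r _ s hs => I.mul_mem_left r hs) hABI)
    · calc I = I * (A ⊔ B) := by rw [hAB, Ideal.mul_top]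
        _ = I * A ⊔ I * B := Ideal.mul_sup _ _ _
        _ ≤ (I ⊔ A) * (I ⊔ B) := by
          apply sup_le
          · rw [mul_comm (I ⊔ A), mul_comm I A]
            rw [mul_comm A I]
            exact Ideal.mul_mono le_sup_left le_sup_right
          · exact Ideal.mul_mono le_sup_left le_sup_right
  have hN : Ideal.absNorm (I ⊔ A) * Ideal.absNorm (I ⊔ B) = a * b := by
    rw [← map_mul, h1, hI]
  have h2 : Ideal.absNorm (I ⊔ A) ∣ a ^ Module.finrank ℚ K := by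
    rw [← mul_norm_natCast (K := K) a]
    exact Ideal.absNorm_dvd_absNorm_of_le le_sup_right
  have h3 : Ideal.absNorm (I ⊔ B) ∣ b ^ Module.finrank ℚ K := by
    rw [← mul_norm_natCast (K := K) b]
    exact Ideal.absNorm_dvd_absNorm_of_le le_sup_right
  have h4 : Nat.Coprime (Ideal.absNorm (I ⊔ A)) b :=
    Nat.Coprime.coprime_dvd_left h2 (Nat.Coprime.pow_left _ hab)
  have h5 : Nat.Coprime (Ideal.absNorm (I ⊔ B)) a :=
    Nat.Coprime.coprime_dvd_left h3 (Nat.Coprime.pow_left _ hab.symm)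
  have h6 : Ideal.absNorm (I ⊔ A) ∣ a :=
    h4.dvd_of_dvd_mul_right (hN ▸ Dvd.intro _ rfl)
  have h7 : Ideal.absNorm (I ⊔ B) ∣ b :=
    h5.dvd_of_dvd_mul_left (hN ▸ Dvd.intro_left _ rfl)
  have h8 := Nat.le_of_dvd (Nat.pos_of_ne_zero ha) h6
  have h9 := Nat.le_of_dvd (Nat.pos_of_ne_zero hb) h7
  have ha0 := Nat.pos_of_ne_zero ha
  have hb0 := Nat.pos_of_ne_zero hb
  refine ⟨h1, ?_, ?_⟩
  · by_contra hne
    have h10 : Ideal.absNorm (I ⊔ A) < a := lt_of_le_of_ne h8 hne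
    have h11 : Ideal.absNorm (I ⊔ A) * Ideal.absNorm (I ⊔ B) < a * b := by
      calc _ ≤ Ideal.absNorm (I ⊔ A) * b := Nat.mul_le_mul_left _ h9
        _ < a * b := Nat.mul_lt_mul_of_pos_right h10 hb0
    omega
  · by_contra hne
    have h10 : Ideal.absNorm (I ⊔ B) < b := lt_of_le_of_ne h9 hne
    have h11 : Ideal.absNorm (I ⊔ A) * Ideal.absNorm (I ⊔ B) < a * b := by
      calc _ ≤ a * Ideal.absNorm (I ⊔ B) := Nat.mul_le_mul_right _ h8
        _ < a * b := Nat.mul_lt_mul_of_pos_left h10 ha0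
    omega

private theorem mul_inv {K : Type*} [Field K] [NumberField K] {a b : ℕ}
    (hab : Nat.Coprime a b) (I J : Ideal (𝓞 K)) (hI : Ideal.absNorm I = a)
    (hJ : Ideal.absNorm J = b) : I * J ⊔ Ideal.span {(a : 𝓞 K)} = I := by
  have haI : Ideal.span {(a : 𝓞 K)} ≤ I := by
    rw [Ideal.span_singleton_le_iff_mem, ← hI]
    exact Ideal.absNorm_mem I
  have hbJ : Ideal.span {(b : 𝓞 K)} ≤ J := by
    rw [Ideal.span_singleton_le_iff_mem, ← hJ]
    exact Ideal.absNorm_mem J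
  have hAB : Ideal.span {(a : 𝓞 K)} ⊔ Ideal.span {(b : 𝓞 K)} = ⊤ := by
    rw [← Ideal.isCoprime_iff_sup_eq, Ideal.isCoprime_span_singleton_iff]
    have h0 := hab.isCoprime.map (Int.castRingHom (𝓞 K))
    simpa using h0
  have hAJ : Ideal.span {(a : 𝓞 K)} ⊔ J = ⊤ := by
    rw [eq_top_iff, ← hAB]
    exact sup_le_sup_left hbJ _
  apply le_antisymm
  · exact sup_le Ideal.mul_le_left haI
  · calc I = I * (Ideal.span {(a : 𝓞 K)} ⊔ J) := by rw [hAJ, Ideal.mul_top]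
      _ = I * Ideal.span {(a : 𝓞 K)} ⊔ I * J := Ideal.mul_sup _ _ _
      _ ≤ I * J ⊔ Ideal.span {(a : 𝓞 K)} :=
        sup_le (le_trans Ideal.mul_le_right le_sup_right) le_sup_left

theorem card_mul {K : Type*} [Field K] [NumberField K] {m n : ℕ} (hmn : m.Coprime n)
    (hm : m ≠ 0) (hn : n ≠ 0) :
    Nat.card {I : Ideal (𝓞 K) // Ideal.absNorm I = m * n} =
      Nat.card {I : Ideal (𝓞 K) // Ideal.absNorm I = m} *
        Nat.card {I : Ideal (𝓞 K) // Ideal.absNorm I = n} := by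
  rw [← Nat.card_prod]
  refine Nat.card_congr
    { toFun := fun I => (⟨I.1 ⊔ Ideal.span {(m : 𝓞 K)}, (mul_key hm hn hmn I.1 I.2).2.1⟩,
        ⟨I.1 ⊔ Ideal.span {(n : 𝓞 K)}, (mul_key hm hn hmn I.1 I.2).2.2⟩)
      invFun := fun z => ⟨z.1.1 * z.2.1, by rw [map_mul, z.1.2, z.2.2]⟩
      left_inv := fun I => Subtype.ext (mul_key hm hn hmn I.1 I.2).1
      right_inv := ?_ }
  rintro ⟨⟨I, hI⟩, ⟨J, hJ⟩⟩
  refine Prod.ext (Subtype.ext (mul_inv hmn I J hI hJ)) (Subtype.ext ?_)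
  show I * J ⊔ Ideal.span {(n : 𝓞 K)} = J
  rw [mul_comm]
  exact mul_inv hmn.symm J I hJ hI

end Pool.Agent.DCN
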