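import Pool.Agent.DCN.Defs

/-! Ideals of prime norm in the ring of integers of the field of a square root of `-p`. -/

open NumberField NumberField.Units NumberField.InfinitePlace Filter Topology

namespace Pool.Agent.DCN

private theorem one_uniq {R : Type} [CommRing R] (b : R)
    (hb2 : ∀ u v : ℤ, (u : R) + (v : R) * b = 0 → u = 0 ∧ v = 0) (u v u' v' : ℤ)
    (h : (u : R) + (v : R) * b = (u' : R) + (v' : R) * b) : u = u' ∧ v = v' := by
  have h1 := hb2 (u - u') (v - v') (by push_cast; linear_combination h)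
  constructor
  · linarith [h1.1]
  · linarith [h1.2]

private theorem one_hom {R : Type} [CommRing R] (c : ℕ) (b : R) (hb : b ^ 2 - b + (c : R) = 0)
    (hb1 : ∀ x : R, ∃ u v : ℤ, x = (u : R) + (v : R) * b)
    (hb2 : ∀ u v : ℤ, (u : R) + (v : R) * b = 0 → u = 0 ∧ v = 0)
    (q : ℕ) (r : ZMod q) (hr : r ^ 2 - r + (c : ZMod q) = 0) :
    ∃ f : R →+* ZMod q, f b = r := by
  choose U V hUV using hb1
  have key : ∀ (x : R) (u v : ℤ), x = (u : R) + (v : R) * b → U x = u ∧ V x = v := by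
    intro x u v h
    exact one_uniq b hb2 _ _ _ _ ((hUV x).symm.trans h)
  refine ⟨{ toFun := fun x => (U x : ZMod q) + (V x : ZMod q) * r
            map_one' := ?_
            map_mul' := ?_
            map_zero' := ?_
            map_add' := ?_ }, ?_⟩
  · obtain ⟨h1, h2⟩ := key 1 1 0 (by push_cast; ring)
    rw [h1, h2]
    push_cast
    ring
  · intro x y
    obtain ⟨h1, h2⟩ := key (x * y) (U x * U y - c * (V x * V y))
      (U x * V y + U y * V x + V x * V y) (by
        conv_lhs => rw [hUV x, hUV y]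
        push_cast
        linear_combination ((V x : R) * (V y : R)) * hb)
    rw [h1, h2]
    push_cast
    linear_combination (-((V x : ZMod q) * (V y : ZMod q))) * hr
  · obtain ⟨h1, h2⟩ := key 0 0 0 (by push_cast; ring)
    rw [h1, h2]
    push_cast
    ring
  · intro x y
    obtain ⟨h1, h2⟩ := key (x + y) (U x + U y) (V x + V y) (by
        conv_lhs => rw [hUV x, hUV y]
        push_cast
        ring)
    rw [h1, h2]
    push_cast
    ring
  · obtain ⟨h1, h2⟩ := key b 0 1 (by push_cast; ring)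
    show (U b : ZMod q) + (V b : ZMod q) * r = r
    rw [h1, h2]
    push_cast
    ring

theorem dcn_one (K : Type) [Field K] [NumberField K] (p : ℕ) (b : 𝓞 K)
    (hb : b ^ 2 - b + (((p + 1) / 4 : ℕ) : 𝓞 K) = 0)
    (hb1 : ∀ x : 𝓞 K, ∃ u v : ℤ, x = (u : 𝓞 K) + (v : 𝓞 K) * b)
    (hb2 : ∀ u v : ℤ, (u : 𝓞 K) + (v : 𝓞 K) * b = 0 → u = 0 ∧ v = 0)
    (q : ℕ) (hq : q.Prime) :
    nid K q = Nat.card {r : ZMod q // r ^ 2 - r + (((p + 1) / 4 : ℕ) : ZMod q) = 0} := by
  have : Fact q.Prime := ⟨hq⟩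
  have hex : ∀ r : {r : ZMod q // r ^ 2 - r + (((p + 1) / 4 : ℕ) : ZMod q) = 0},
      ∃ f : 𝓞 K →+* ZMod q, f b = r.1 :=
    fun r => one_hom _ b hb hb1 hb2 q r.1 r.2
  choose f hf using hex
  have hnorm : ∀ g : 𝓞 K →+* ZMod q, Ideal.absNorm (RingHom.ker g) = q := by
    intro g
    have hs : Function.Surjective g := ZMod.ringHom_surjective g
    rw [Ideal.absNorm_apply, Submodule.cardQuot_apply]
    rw [Nat.card_congr (RingHom.quotientKerEquivOfSurjective hs).toEquiv, Nat.card_zmod]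
  unfold nid
  symm
  refine Nat.card_congr (Equiv.ofBijective
    (fun r => (⟨RingHom.ker (f r), hnorm (f r)⟩ : {I : Ideal (𝓞 K) // Ideal.absNorm I = q}))
    ⟨?_, ?_⟩)
  · intro r r' h
    have h1 : RingHom.ker (f r) = RingHom.ker (f r') := congrArg Subtype.val h
    have h2 := ZMod.ringHom_eq_of_ker_eq _ _ h1
    apply Subtype.ext
    rw [← hf r, ← hf r', h2]
  · rintro ⟨I, hI⟩
    have hc : Nat.card (𝓞 K ⧸ I) = q := by
      rw [Ideal.absNorm_apply, Submodule.cardQuot_apply] at hI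
      exact hI
    have hfin : Finite (𝓞 K ⧸ I) := Nat.finite_of_card_ne_zero (by rw [hc]; exact hq.ne_zero)
    have hft : Fintype (𝓞 K ⧸ I) := Fintype.ofFinite _
    have hc' : Fintype.card (𝓞 K ⧸ I) = q := by rw [← Nat.card_eq_fintype_card, hc]
    let e : ZMod q ≃+* (𝓞 K ⧸ I) := ZMod.ringEquivOfPrime (𝓞 K ⧸ I) hq hc'
    let g : 𝓞 K →+* ZMod q := (e.symm : (𝓞 K ⧸ I) →+* ZMod q).comp (Ideal.Quotient.mk I)
    have hg : RingHom.ker g = I := by
      ext x
      rw [RingHom.mem_ker]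
      show e.symm (Ideal.Quotient.mk I x) = 0 ↔ x ∈ I
      rw [map_eq_zero_iff _ e.symm.injective, Ideal.Quotient.eq_zero_iff_mem]
    have hr : (g b) ^ 2 - g b + (((p + 1) / 4 : ℕ) : ZMod q) = 0 := by
      have := congrArg g hb
      rw [map_add, map_sub, map_pow, map_natCast, map_zero] at this
      exact this
    refine ⟨⟨g b, hr⟩, ?_⟩
    apply Subtype.ext
    show RingHom.ker (f ⟨g b, hr⟩) = I
    have hfg : f ⟨g b, hr⟩ = g := by
      ext x
      obtain ⟨u, v, hx⟩ := hb1 x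
      have h1 : f ⟨g b, hr⟩ x = (u : ZMod q) + (v : ZMod q) * f ⟨g b, hr⟩ b := by
        rw [hx, map_add, map_mul, map_intCast, map_intCast]
      have h2 : g x = (u : ZMod q) + (v : ZMod q) * g b := by
        rw [hx, map_add, map_mul, map_intCast, map_intCast]
      rw [h1, h2, hf]
    rw [hfg, hg]

end Pool.Agent.DCN
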