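import Mathlib
import Pool.Agent.DCN.Defs

/-! Row PPW of the board dcn_modules: ideals of prime power norm in a quadratic field. -/

open NumberField

namespace Pool.Agent.DCN

private lemma ppw_factor {K : Type} [Field K] [NumberField K] {q : ℕ} (hq : q.Prime) {k : ℕ}
    {I : Ideal (𝓞 K)} (hI : Ideal.absNorm I = q ^ (k + 1)) :
    ∃ P J : Ideal (𝓞 K), P.IsPrime ∧ (q : 𝓞 K) ∈ P ∧ I = P * J := by
  have hne : I ≠ ⊤ := by
    rintro rfl
    rw [Ideal.absNorm_top] at hI
    have h1 : 1 < q ^ (k + 1) := Nat.one_lt_pow (by omega) hq.one_lt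
    omega
  obtain ⟨P, hP, hIP⟩ := Ideal.exists_le_maximal I hne
  obtain ⟨J, hJ⟩ := Ideal.dvd_iff_le.mpr hIP
  refine ⟨P, J, hP.isPrime, ?_, hJ⟩
  have hmem : ((Ideal.absNorm I : ℕ) : 𝓞 K) ∈ P := hIP (Ideal.absNorm_mem I)
  rw [hI] at hmem
  push_cast at hmem
  exact hP.isPrime.mem_of_pow_mem _ hmem

private lemma ppw_eq {K : Type} [Field K] [NumberField K] {P P' : Ideal (𝓞 K)}
    (hP : P.IsPrime) (hP' : P'.IsPrime) (h0 : Ideal.absNorm P ≠ 0) (h : P ≤ P') : P' = P := by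
  have hb : P ≠ ⊥ := by
    rintro rfl
    exact h0 Ideal.absNorm_bot
  have hm : P.IsMaximal := hP.isMaximal hb
  exact (hm.eq_of_le hP'.ne_top h).symm

private lemma ppw_top {K : Type} [Field K] [NumberField K] {P : Ideal (𝓞 K)}
    (hP : P.IsPrime) : Ideal.absNorm P ≠ 1 := by
  intro h
  exact hP.ne_top (Ideal.absNorm_eq_one_iff.mp h)

private lemma ppw_cases (K : Type) [Field K] [NumberField K] (hK : Module.finrank ℚ K = 2)
    (q : ℕ) (hq : q.Prime) :
    ∃ P Q : Ideal (𝓞 K), P.IsPrime ∧ Q.IsPrime ∧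
      (∀ P' : Ideal (𝓞 K), P'.IsPrime → (q : 𝓞 K) ∈ P' → P' = P ∨ P' = Q) ∧
      ((Ideal.absNorm P = q ∧ Ideal.absNorm Q = q) ∨ (P = Q ∧ Ideal.absNorm P = q ^ 2)) := by
  have hN : Ideal.absNorm (Ideal.span {(q : 𝓞 K)}) = q ^ 2 := by
    rw [Ideal.absNorm_span_natCast, RingOfIntegers.rank, hK]
  have hN2 : Ideal.absNorm (Ideal.span {(q : 𝓞 K)}) = q ^ (1 + 1) := hN
  obtain ⟨P, J, hP, hqP, hPJ⟩ := ppw_factor hq hN2
  have hmul : Ideal.absNorm P * Ideal.absNorm J = q ^ 2 := by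
    rw [← hN, hPJ, map_mul]
  obtain ⟨a, ha, hPa⟩ := (Nat.dvd_prime_pow hq).mp (Dvd.intro _ hmul)
  have ha0 : a ≠ 0 := by
    rintro rfl
    exact ppw_top hP (by simpa using hPa)
  have hqpos : 0 < q := hq.pos
  have hP0 : Ideal.absNorm P ≠ 0 := by
    rw [hPa]
    exact (pow_pos hqpos _).ne'
  have hle : ∀ P' : Ideal (𝓞 K), (q : 𝓞 K) ∈ P' → Ideal.span {(q : 𝓞 K)} ≤ P' := by
    intro P' h
    rw [Ideal.span_singleton_le_iff_mem]
    exact h
  rcases (by omega : a = 1 ∨ a = 2) with rfl | rfl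
  · have hPq : Ideal.absNorm P = q := by simpa using hPa
    have hJq : Ideal.absNorm J = q := by
      rw [hPq, pow_two] at hmul
      exact Nat.eq_of_mul_eq_mul_left hqpos hmul
    have hJq2 : Ideal.absNorm J = q ^ (0 + 1) := by simpa using hJq
    obtain ⟨Q, J', hQ, hqQ, hQJ⟩ := ppw_factor hq hJq2
    have hmul2 : Ideal.absNorm Q * Ideal.absNorm J' = q := by
      rw [← map_mul, ← hQJ, hJq]
    have hQq : Ideal.absNorm Q = q := by
      rcases (Nat.dvd_prime hq).mp (Dvd.intro _ hmul2) with h | h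
      · exact absurd h (ppw_top hQ)
      · exact h
    have hJ1 : J' = ⊤ := by
      rw [← Ideal.absNorm_eq_one_iff]
      rw [hQq] at hmul2
      have : q * Ideal.absNorm J' = q * 1 := by omega
      exact Nat.eq_of_mul_eq_mul_left hqpos this
    have hJQ : J = Q := by
      rw [hQJ, hJ1]
      simp
    refine ⟨P, Q, hP, hQ, ?_, Or.inl ⟨hPq, hQq⟩⟩
    intro P' hP' hq'
    have h1 : P * Q ≤ P' := by
      rw [← hJQ, ← hPJ]
      exact hle P' hq'
    rcases (hP'.mul_le).mp h1 with h | h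
    · exact Or.inl (ppw_eq hP hP' hP0 h)
    · refine Or.inr (ppw_eq hQ hP' ?_ h)
      rw [hQq]
      exact hqpos.ne'
  · have hJ1 : J = ⊤ := by
      rw [← Ideal.absNorm_eq_one_iff]
      rw [hPa] at hmul
      have : q ^ 2 * Ideal.absNorm J = q ^ 2 * 1 := by omega
      exact Nat.eq_of_mul_eq_mul_left (pow_pos hqpos 2) this
    have hPe : Ideal.span {(q : 𝓞 K)} = P := by
      rw [hPJ, hJ1]
      simp
    refine ⟨P, P, hP, hP, ?_, Or.inr ⟨rfl, hPa⟩⟩
    intro P' hP' hq'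
    have h1 : P ≤ P' := by
      rw [← hPe]
      exact hle P' hq'
    exact Or.inl (ppw_eq hP hP' hP0 h1)

private lemma ppw_form {K : Type} [Field K] [NumberField K] {q : ℕ} (hq : q.Prime)
    {P Q : Ideal (𝓞 K)} {f : ℕ} (hf : 0 < f)
    (h : ∀ P' : Ideal (𝓞 K), P'.IsPrime → (q : 𝓞 K) ∈ P' → P' = P ∨ P' = Q)
    (nP : Ideal.absNorm P = q ^ f) (nQ : Ideal.absNorm Q = q ^ f) (k : ℕ) :
    ∀ I : Ideal (𝓞 K), Ideal.absNorm I = q ^ k →
      ∃ i j : ℕ, f * (i + j) = k ∧ I = P ^ i * Q ^ j := by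
  induction k using Nat.strong_induction_on with
  | _ k ih =>
    intro I hI
    rcases k with _ | k
    · refine ⟨0, 0, by simp, ?_⟩
      have : I = ⊤ := by
        rw [← Ideal.absNorm_eq_one_iff, hI]
        simp
      rw [this]
      simp
    · obtain ⟨P', J, hP', hqP', hIJ⟩ := ppw_factor hq hI
      have nP' : Ideal.absNorm P' = q ^ f := by
        rcases h P' hP' hqP' with rfl | rfl
        · exact nP
        · exact nQ
      have hmul : q ^ f * Ideal.absNorm J = q ^ (k + 1) := by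
        rw [← nP', ← map_mul, ← hIJ, hI]
      have hfk : f ≤ k + 1 := by
        have hd : q ^ f ∣ q ^ (k + 1) := Dvd.intro _ hmul
        exact (Nat.pow_dvd_pow_iff_le_right hq.one_lt).mp hd
      have nJ : Ideal.absNorm J = q ^ (k + 1 - f) := by
        have h2 : q ^ f * Ideal.absNorm J = q ^ f * q ^ (k + 1 - f) := by
          rw [hmul, ← pow_add]
          congr 1
          omega
        exact Nat.eq_of_mul_eq_mul_left (pow_pos hq.pos f) h2
      obtain ⟨i, j, hij, hJ⟩ := ih (k + 1 - f) (by omega) J nJ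
      rcases h P' hP' hqP' with rfl | rfl
      · refine ⟨i + 1, j, ?_, ?_⟩
        · have : f * (i + 1 + j) = f * (i + j) + f := by ring
          omega
        · rw [hIJ, hJ, pow_succ]
          ring
      · refine ⟨i, j + 1, ?_, ?_⟩
        · have : f * (i + (j + 1)) = f * (i + j) + f := by ring
          omega
        · rw [hIJ, hJ, pow_succ]
          ring

private lemma ppw_split {K : Type} [Field K] [NumberField K] {q : ℕ} (hq : q.Prime)
    {P Q : Ideal (𝓞 K)} (hP : P.IsPrime) (hQ : Q.IsPrime) (hPQ : P ≠ Q)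
    (h : ∀ P' : Ideal (𝓞 K), P'.IsPrime → (q : 𝓞 K) ∈ P' → P' = P ∨ P' = Q)
    (nP : Ideal.absNorm P = q) (nQ : Ideal.absNorm Q = q) (k : ℕ) :
    nid K (q ^ k) = k + 1 := by
  have hP0 : P ≠ ⊥ := by
    rintro rfl
    rw [Ideal.absNorm_bot] at nP
    exact hq.ne_zero nP.symm
  have hQ0 : Q ≠ ⊥ := by
    rintro rfl
    rw [Ideal.absNorm_bot] at nQ
    exact hq.ne_zero nQ.symm
  have key : ∀ i j : ℕ, i < j → i ≤ k → j ≤ k → P ^ i * Q ^ (k - i) ≠ P ^ j * Q ^ (k - j) := by
    intro i j hij hi hj he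
    have h1 : P ^ j = P ^ i * P ^ (j - i) := by
      rw [← pow_add]
      congr 1
      omega
    rw [h1, mul_assoc] at he
    have h2 : Q ^ (k - i) = P ^ (j - i) * Q ^ (k - j) :=
      mul_left_cancel₀ (pow_ne_zero _ hP0) he
    have h3 : Q ^ (k - i) ≤ P := by
      rw [h2]
      have hji : j - i ≠ 0 := by omega
      exact le_trans Ideal.mul_le_left (Ideal.pow_le_self hji)
    have h4 : Q ≤ P := by
      exact hP.le_of_pow_le h3
    exact hPQ (ppw_eq hQ hP (by rw [nQ]; exact hq.ne_zero) h4)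
  have e : Fin (k + 1) ≃ {I : Ideal (𝓞 K) // Ideal.absNorm I = q ^ k} := by
    refine Equiv.ofBijective (fun i => ⟨P ^ (i : ℕ) * Q ^ (k - (i : ℕ)), ?_⟩) ⟨?_, ?_⟩
    · rw [map_mul, map_pow, map_pow, nP, nQ, ← pow_add]
      congr 1
      have := i.2
      omega
    · intro i j hij
      have h5 : P ^ (i : ℕ) * Q ^ (k - (i : ℕ)) = P ^ (j : ℕ) * Q ^ (k - (j : ℕ)) :=
        congrArg Subtype.val hij
      have hi := i.2
      have hj := j.2
      rcases lt_trichotomy (i : ℕ) (j : ℕ) with hl | hl | hl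
      · exact absurd h5 (key i j hl (by omega) (by omega))
      · exact Fin.ext hl
      · exact absurd h5.symm (key j i hl (by omega) (by omega))
    · rintro ⟨I, hI⟩
      obtain ⟨i, j, hij, hIe⟩ := ppw_form hq (f := 1) one_pos h (by simpa using nP)
        (by simpa using nQ) k I hI
      refine ⟨⟨i, by omega⟩, ?_⟩
      apply Subtype.ext
      change P ^ i * Q ^ (k - i) = I
      rw [hIe]
      congr 2
      omega
  rw [nid, ← Nat.card_congr e]
  simp

private lemma ppw_single {K : Type} [Field K] [NumberField K] {q : ℕ} (hq : q.Prime)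
    {P : Ideal (𝓞 K)} {f : ℕ} (hf : 0 < f)
    (h : ∀ P' : Ideal (𝓞 K), P'.IsPrime → (q : 𝓞 K) ∈ P' → P' = P ∨ P' = P)
    (nP : Ideal.absNorm P = q ^ f) (k : ℕ) :
    nid K (q ^ k) = if f ∣ k then 1 else 0 := by
  split_ifs with hd
  · obtain ⟨m, rfl⟩ := hd
    rw [nid, Nat.card_eq_one_iff_unique]
    refine ⟨⟨?_⟩, ⟨⟨P ^ m, ?_⟩⟩⟩
    · rintro ⟨I, hI⟩ ⟨J, hJ⟩
      obtain ⟨i, j, hij, hIe⟩ := ppw_form hq hf h nP nP _ I hI
      obtain ⟨i', j', hij', hJe⟩ := ppw_form hq hf h nP nP _ J hJ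
      apply Subtype.ext
      change I = J
      rw [hIe, hJe, ← pow_add, ← pow_add]
      congr 1
      have h1 : i + j = m := Nat.eq_of_mul_eq_mul_left hf hij
      have h2 : i' + j' = m := Nat.eq_of_mul_eq_mul_left hf hij'
      rw [h1, h2]
    · rw [map_pow, nP, ← pow_mul]
  · rw [nid]
    have : IsEmpty {I : Ideal (𝓞 K) // Ideal.absNorm I = q ^ k} := by
      refine ⟨?_⟩
      rintro ⟨I, hI⟩
      obtain ⟨i, j, hij, -⟩ := ppw_form hq hf h nP nP _ I hI
      exact hd (Dvd.intro _ hij)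
    exact Nat.card_of_isEmpty

/-- row PPW: ideals of prime power norm in a quadratic field (from `Σ e f = 2`) -/
theorem dcn_prime_pow (K : Type) [Field K] [NumberField K] (hK : Module.finrank ℚ K = 2)
    (q : ℕ) (hq : q.Prime) (k : ℕ) :
    (nid K (q ^ k) : ℤ) = ∑ i ∈ Finset.range (k + 1), ((nid K q : ℤ) - 1) ^ i := by
  obtain ⟨P, Q, hP, hQ, h, hc⟩ := ppw_cases K hK q hq
  have hq1 : nid K q = nid K (q ^ 1) := by rw [pow_one]
  by_cases hPQ : P = Q
  · subst hPQ
    rcases hc with ⟨nP, -⟩ | ⟨-, nP⟩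
    · have hn : ∀ k : ℕ, nid K (q ^ k) = 1 := by
        intro k
        rw [ppw_single hq (f := 1) one_pos h (by simpa using nP) k]
        simp
      rw [hq1, hn k, hn 1]
      rw [Finset.sum_range_succ']
      simp
    · have hn : ∀ k : ℕ, nid K (q ^ k) = if 2 ∣ k then 1 else 0 := by
        intro k
        exact ppw_single hq (f := 2) two_pos h nP k
      rw [hq1, hn k, hn 1]
      induction k with
      | zero => simp
      | succ n ih =>
        rw [Finset.sum_range_succ, ← ih]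
        rcases Nat.even_or_odd n with he | ho
        · have h1 : 2 ∣ n := he.two_dvd
          have h2 : ¬ 2 ∣ n + 1 := by omega
          have h3 : Odd (n + 1) := he.add_one
          simp [h1, h2, h3.neg_one_pow]
        · have h1 : ¬ 2 ∣ n := by
            obtain ⟨m, rfl⟩ := ho
            omega
          have h2 : 2 ∣ n + 1 := by
            obtain ⟨m, rfl⟩ := ho
            omega
          have h3 : Even (n + 1) := ho.add_one
          simp [h1, h2, h3.neg_one_pow]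
  · rcases hc with ⟨nP, nQ⟩ | ⟨he, -⟩
    · have hn : ∀ k : ℕ, nid K (q ^ k) = k + 1 := fun k => ppw_split hq hP hQ hPQ h nP nQ k
      rw [hq1, hn k, hn 1]
      simp
    · exact absurd he hPQ

end Pool.Agent.DCN
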