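import Mathlib

/-!
Row RTS of the board DCN: the number of roots of `X ^ 2 - X + (p + 1) / 4` modulo `q`.
-/

set_option autoImplicit false

namespace Pool.Agent.DCN

private theorem rts_leg (p q : ℕ) [Fact p.Prime] [Fact q.Prime] (hp4 : p % 4 = 3) (hq2 : q ≠ 2) :
    legendreSym q (-(p : ℤ)) = legendreSym p (q : ℤ) := by
  have hp2 : p ≠ 2 := by rintro rfl; omega
  have h1 : legendreSym q (-(p : ℤ)) = legendreSym q (-1) * legendreSym q p := by
    rw [← legendreSym.mul, neg_one_mul]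
  rw [h1, legendreSym.at_neg_one hq2]
  have hodd : q % 2 = 1 := (Nat.Prime.eq_two_or_odd (Fact.out : q.Prime)).resolve_left hq2
  have hq4 : q % 4 = 1 ∨ q % 4 = 3 := by omega
  rcases hq4 with h | h
  · rw [ZMod.χ₄_nat_one_mod_four h, one_mul]
    exact (legendreSym.quadratic_reciprocity_one_mod_four h hp2).symm
  · rw [ZMod.χ₄_nat_three_mod_four h, legendreSym.quadratic_reciprocity_three_mod_four hp4 h]
    ring

private theorem rts_two (p : ℕ) [Fact p.Prime] (hp4 : p % 4 = 3) :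
    (Nat.card {r : ZMod 2 // r ^ 2 - r + (((p + 1) / 4 : ℕ) : ZMod 2) = 0} : ℤ) =
      1 + legendreSym p ((2 : ℕ) : ℤ) := by
  have hp2 : p ≠ 2 := by rintro rfl; omega
  have h2 : legendreSym p ((2 : ℕ) : ℤ) = ZMod.χ₈ p := by
    have := legendreSym.at_two (p := p) hp2
    exact_mod_cast this
  have hr : ∀ r : ZMod 2, r ^ 2 - r = 0 := by decide
  have h8 : p % 8 = 3 ∨ p % 8 = 7 := by omega
  rw [h2, ZMod.χ₈_nat_eq_if_mod_eight]
  rcases h8 with h | h
  · have hc : (((p + 1) / 4 : ℕ) : ZMod 2) = 1 := by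
      have h5 : (p + 1) / 4 % 2 = 1 % 2 := by omega
      have h6 := (ZMod.natCast_eq_natCast_iff' ((p + 1) / 4) 1 2).2 h5
      rw [h6, Nat.cast_one]
    have he : IsEmpty {r : ZMod 2 // r ^ 2 - r + (((p + 1) / 4 : ℕ) : ZMod 2) = 0} := by
      refine ⟨fun r => ?_⟩
      have := r.2
      rw [hr, hc, zero_add] at this
      exact one_ne_zero this
    rw [Nat.card_of_isEmpty]
    have h3 : p % 2 ≠ 0 := by omega
    rw [if_neg h3, if_neg (by omega)]
    norm_num
  · have hc : (((p + 1) / 4 : ℕ) : ZMod 2) = 0 := by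
      have h5 : (p + 1) / 4 % 2 = 0 % 2 := by omega
      have h6 := (ZMod.natCast_eq_natCast_iff' ((p + 1) / 4) 0 2).2 h5
      rw [h6, Nat.cast_zero]
    have he : ∀ r : ZMod 2, r ^ 2 - r + (((p + 1) / 4 : ℕ) : ZMod 2) = 0 := fun r => by
      rw [hr, hc, zero_add]
    rw [Nat.card_congr (Equiv.subtypeUnivEquiv he), Nat.card_zmod]
    have h3 : p % 2 ≠ 0 := by omega
    rw [if_neg h3, if_pos (by omega)]
    norm_num

/-- row RTS: the number of roots (quadratic reciprocity; `q = 2` and `q = p` included) -/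
theorem dcn_roots (p : ℕ) [Fact p.Prime] (hp4 : p % 4 = 3) (q : ℕ) (hq : q.Prime) :
    (Nat.card {r : ZMod q // r ^ 2 - r + (((p + 1) / 4 : ℕ) : ZMod q) = 0} : ℤ) =
      1 + legendreSym p (q : ℤ) := by
  classical
  have hfact : Fact q.Prime := ⟨hq⟩
  by_cases hq2 : q = 2
  · subst hq2
    exact rts_two p hp4
  rw [← rts_leg p q hp4 hq2, add_comm (1 : ℤ), ← legendreSym.card_sqrts q hq2 (-(p : ℤ))]
  congr 1
  have h2 : (2 : ZMod q) ≠ 0 := by
    intro h
    have h' : ((2 : ℕ) : ZMod q) = 0 := by exact_mod_cast h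
    rw [ZMod.natCast_eq_zero_iff] at h'
    exact hq2 (((Nat.prime_dvd_prime_iff_eq hq Nat.prime_two).1 h'))
  have hc : 4 * (((p + 1) / 4 : ℕ) : ZMod q) = (p : ZMod q) + 1 := by
    have h4 : 4 * ((p + 1) / 4) = p + 1 := by omega
    have h5 : ((4 * ((p + 1) / 4) : ℕ) : ZMod q) = ((p + 1 : ℕ) : ZMod q) := by rw [h4]
    push_cast at h5 ⊢
    exact h5
  rw [← Nat.card_eq_card_toFinset]
  refine Nat.card_congr
    { toFun := fun r => ⟨2 * r.1 - 1, ?_⟩
      invFun := fun s => ⟨(s.1 + 1) / 2, ?_⟩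
      left_inv := fun r => ?_
      right_inv := fun s => ?_ }
  · have hr := r.2
    show (2 * r.1 - 1) ^ 2 = ((-(p : ℤ) : ℤ) : ZMod q)
    push_cast
    linear_combination 4 * hr - hc
  · have hs : s.1 ^ 2 = ((-(p : ℤ) : ℤ) : ZMod q) := s.2
    push_cast at hs
    have h4 : (4 : ZMod q) ≠ 0 := by
      have : (4 : ZMod q) = 2 * 2 := by norm_num
      rw [this]; exact mul_ne_zero h2 h2
    have h6 : 4 * (((s.1 + 1) / 2) ^ 2 - (s.1 + 1) / 2 + (((p + 1) / 4 : ℕ) : ZMod q)) = 0 := by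
      have h7 : 2 * ((s.1 + 1) / 2) = s.1 + 1 := mul_div_cancel₀ _ h2
      linear_combination (2 * ((s.1 + 1) / 2) + (s.1 + 1) - 2) * h7 + hc + hs
    exact (mul_eq_zero.1 h6).resolve_left h4
  · apply Subtype.ext
    show (2 * r.1 - 1 + 1) / 2 = r.1
    rw [sub_add_cancel, mul_div_cancel_left₀ _ h2]
  · apply Subtype.ext
    show 2 * ((s.1 + 1) / 2) - 1 = s.1
    rw [mul_div_cancel₀ _ h2, add_sub_cancel_right]

end Pool.Agent.DCN
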