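import Mathlib

/-!
# The residue of the Dedekind zeta function of a quadratic field (helper2)
-/

namespace Pool.Agent.DCN

open Filter Topology NumberField LSeries Complex

/-- if the number of ideals of norm `m` is `∑ d ∣ m, χ d`, the residue is `L(1, χ)` -/
theorem residue_eq_LFunction {K : Type*} [Field K] [NumberField K] {p : ℕ} [NeZero p]
    (χ : DirichletCharacter ℂ p) (hχ : χ ≠ 1)
    (hcnt : ∀ m : ℕ, m ≠ 0 →
      (Nat.card {I : Ideal (𝓞 K) // Ideal.absNorm I = m} : ℂ) = ∑ d ∈ m.divisors, χ (d : ZMod p)) :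
    ((dedekindZeta_residue K : ℝ) : ℂ) = DirichletCharacter.LFunction χ 1 := by
  have h1 := tendsto_sub_one_mul_dedekindZeta_nhdsGT (K := K)
  have hz : ∀ s : ℝ, 1 < s → dedekindZeta K s
      = riemannZeta s * DirichletCharacter.LFunction χ s := by
    intro s hs
    have hs' : 1 < (s : ℂ).re := by simpa using hs
    rw [← LSeries_one_eq_riemannZeta hs', DirichletCharacter.LFunction_eq_LSeries χ hs']
    rw [← LSeries_convolution' (LSeriesSummable_one_iff.mpr hs')
      (χ.LSeriesSummable_of_one_lt_re hs')]
    rw [dedekindZeta]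
    apply LSeries_congr
    intro n hn
    rw [hcnt n hn, LSeries.convolution_def]
    simp only [Pi.one_apply, one_mul]
    exact (Nat.sum_divisorsAntidiagonal' (fun _ i => χ (i : ZMod p))).symm
  have h2 : Tendsto (fun s : ℝ => ((s : ℂ) - 1) * dedekindZeta K s) (𝓝[>] 1)
      (𝓝 (DirichletCharacter.LFunction χ 1)) := by
    have h3 : Tendsto (fun s : ℝ => (s : ℂ)) (𝓝[>] 1) (𝓝[≠] 1) := by
      refine tendsto_nhdsWithin_iff.2 ⟨?_, ?_⟩
      · exact (Complex.continuous_ofReal.tendsto' 1 1 (by simp)).mono_left nhdsWithin_le_nhds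
      · filter_upwards [self_mem_nhdsWithin] with s hs
        have : (1 : ℝ) < s := hs
        simp only [Set.mem_compl_iff, Set.mem_singleton_iff]
        exact_mod_cast this.ne'
    have h4 := riemannZeta_residue_one.comp h3
    have h5 : Tendsto (fun s : ℝ => DirichletCharacter.LFunction χ (s : ℂ)) (𝓝[>] 1)
        (𝓝 (DirichletCharacter.LFunction χ 1)) := by
      have h6 := (DirichletCharacter.differentiable_LFunction hχ).continuous.tendsto (1 : ℂ)
      exact h6.comp (h3.mono_right nhdsWithin_le_nhds)
    have h7 := h4.mul h5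
    rw [one_mul] at h7
    refine h7.congr' ?_
    filter_upwards [self_mem_nhdsWithin] with s hs
    simp only [Function.comp_apply]
    rw [hz s hs, mul_assoc]
  exact tendsto_nhds_unique h1 h2

end Pool.Agent.DCN
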