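import Mathlib
import Pool.Agent.DCN.Defs
import Pool.Agent.DCN.Bridge
import Pool.Agent.DCN.Fld
import Pool.Agent.DCN.Gs
import Pool.Agent.DCN.CNT
import Pool.Agent.DCN.Mul
import Pool.Agent.DCN.ONE
import Pool.Agent.DCN.RTS
import Pool.Agent.DCN.Ppw
import Pool.Agent.DCN.Res
import Pool.Agent.DCN.Lf1

/-! Dirichlet's class number formula for the field of a square root of `-p`. -/

open NumberField NumberField.Units NumberField.InfinitePlace Filter Topology

namespace Pool.Agent.DCN

/-- The number of ideals of norm `m` is the divisor sum of the Legendre symbol. -/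
theorem nid_eq_sum (K : Type) [Field K] [NumberField K]
    (hK : Module.finrank ℚ K = 2) (p : ℕ) [Fact p.Prime] (hp4 : p % 4 = 3) (hp3 : 3 < p)
    (a : K) (ha : a ^ 2 = -(p : K)) (m : ℕ) (hm : 0 < m) :
    (nid K m : ℤ) = ∑ d ∈ m.divisors, legendreSym p (d : ℤ) := by
  have hp : p.Prime := Fact.out
  have hQ : Quad p K a := ⟨hp, hp4, hp3, hK, ha⟩
  obtain ⟨b, hb, hb1, hb2⟩ := bridge_b hQ
  refine dcn_count K p ?_ (dcn_prime_pow K hK) ?_ m hm
  · intro m n hm hn hmn
    exact card_mul hmn hm.ne' hn.ne'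
  · intro q hq
    rw [← dcn_roots p hp4 q hq, dcn_one K p b hb hb1 hb2 q hq]

/-- **Dirichlet's class number formula** for a quadratic field containing a square root
of `-p`, where `p > 3` is a prime congruent to 3 modulo 4. -/
theorem classNumber_formula (K : Type) [Field K] [NumberField K]
    (hK : Module.finrank ℚ K = 2) (p : ℕ) [Fact p.Prime] (hp4 : p % 4 = 3) (hp3 : 3 < p)
    (a : K) (ha : a ^ 2 = -(p : K)) :
    (classNumber K : ℤ) * p = -∑ j ∈ Finset.range p, (j : ℤ) * legendreSym p (j : ℤ) := by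
  have hp : p.Prime := Fact.out
  have hp0 : 0 < p := hp.pos
  haveI : NeZero p := ⟨hp.ne_zero⟩
  have hQ : Quad p K a := ⟨hp, hp4, hp3, hK, ha⟩
  have hres := hQ.residue_eq
  let χ : DirichletCharacter ℂ p := (quadraticChar (ZMod p)).ringHomComp (Int.castRingHom ℂ)
  have hχ : ∀ n : ℕ, χ (n : ZMod p) = ((legendreSym p (n : ℤ) : ℤ) : ℂ) := by
    intro n
    simp [χ, legendreSym, MulChar.ringHomComp_apply]
  have hχ1 : χ ≠ 1 := by
    intro h1
    have hne : ringChar (ZMod p) ≠ 2 := by
      rw [ZMod.ringChar_zmod_n]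
      omega
    obtain ⟨u, hu⟩ := quadraticChar_exists_neg_one' hne
    have h2 : χ (u : ZMod p) = 1 := by
      rw [h1]
      exact MulChar.one_apply_coe u
    simp only [χ, MulChar.ringHomComp_apply, hu] at h2
    norm_num at h2
  have hcnt : ∀ m : ℕ, m ≠ 0 →
      (Nat.card {I : Ideal (𝓞 K) // Ideal.absNorm I = m} : ℂ) =
        ∑ d ∈ m.divisors, χ (d : ZMod p) := by
    intro m hm
    have h1 := nid_eq_sum K hK p hp4 hp3 a ha m (Nat.pos_of_ne_zero hm)
    simp only [hχ]
    have h2 : ((nid K m : ℤ) : ℂ) = ((∑ d ∈ m.divisors, legendreSym p (d : ℤ) : ℤ) : ℂ) := by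
      rw [h1]
    push_cast at h2
    exact h2
  have h1 := residue_eq_LFunction (K := K) χ hχ1 hcnt
  have h2 := LFunction_one_quadratic p hp4 (gauss_sum_range p hp4) χ hχ
  rw [h2] at h1
  have h3 := Complex.ofReal_injective h1
  rw [hres] at h3
  apply bridge_fin p hp0
  rw [h3]
  push_cast
  rfl

end Pool.Agent.DCN
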