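import Pool.Agent.DCN.Lf1
import Pool.Agent.DCN.Res
import Pool.Agent.DCN.FIN
import Pool.Agent.DCN.Mul
import Pool.Agent.DCN.Ppw
import Pool.Agent.DCN.ONE
import Pool.Agent.DCN.RTS
import Pool.Agent.DCN.CNT
import Pool.Agent.DCN.Fld
import Pool.Agent.DCN.Gs

/-!
# Dirichlet's class number formula for `ℚ(√-p)` (assembly, helper2)
-/

namespace Pool.Agent.DCN

open Finset NumberField

/-- the number of ideals of norm `m` -/
theorem card_ideal_B (K : Type) [Field K] [NumberField K] (p : ℕ) [Fact p.Prime] (hp : p % 4 = 3)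
    (hp3 : 3 < p) (hK : Module.finrank ℚ K = 2) (a : K) (ha : a ^ 2 = -(p : K)) (m : ℕ)
    (hm : 0 < m) : (nid K m : ℤ) = ∑ d ∈ m.divisors, legendreSym p (d : ℤ) := by
  have hQ : Quad p K a := ⟨Fact.out, hp, hp3, hK, ha⟩
  have hc : (p : ℤ) = 4 * ((((p + 1) / 4 : ℕ)) : ℤ) - 1 := by omega
  have hth := hQ.theta_sq hc
  refine dcn_count K p (fun m n hm hn hmn => ?_) (dcn_prime_pow K hK) (fun q hq => ?_) m hm
  · exact card_mul hmn hm.ne' hn.ne'
  · rw [dcn_one K p hQ.theta ?_ hQ.exists_uv ?_ q hq, dcn_roots p hp q hq]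
    · rw [hth, Int.cast_natCast]; ring
    · intro u v h
      have := hQ.uv_inj (u := u) (v := v) (u' := 0) (v' := 0) (by simpa using h)
      exact this

/-- Dirichlet's class number formula -/
theorem class_number_formula (K : Type) [Field K] [NumberField K] (p : ℕ) [Fact p.Prime]
    (hp : p % 4 = 3) (hp3 : 3 < p) (hK : Module.finrank ℚ K = 2) (a : K)
    (ha : a ^ 2 = -(p : K)) :
    (classNumber K : ℤ) * p = -∑ k ∈ range p, (k : ℤ) * legendreSym p (k : ℤ) := by
  have hQ : Quad p K a := ⟨Fact.out, hp, hp3, hK, ha⟩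
  have hpr : p.Prime := Fact.out
  set χ : DirichletCharacter ℂ p := (quadraticChar (ZMod p)).ringHomComp (Int.castRingHom ℂ) with hχ
  have hval : ∀ n : ℕ, χ (n : ZMod p) = (legendreSym p (n : ℤ) : ℂ) := by
    intro n
    rw [hχ, MulChar.ringHomComp_apply, legendreSym]
    simp
  have hne : χ ≠ 1 := by
    intro h
    have h2 : (ringChar (ZMod p)) ≠ 2 := by rw [ZMod.ringChar_zmod_n]; omega
    obtain ⟨x, hx⟩ := quadraticChar_exists_neg_one h2
    have h3 : χ x = -1 := by rw [hχ, MulChar.ringHomComp_apply, hx]; simp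
    have hxu : IsUnit x := by
      by_contra hu
      rw [MulChar.map_nonunit _ hu] at hx
      norm_num at hx
    rw [h, MulChar.one_apply hxu] at h3
    norm_num at h3
  have h1 := residue_eq_LFunction (K := K) χ hne (fun m hm => by
    have := card_ideal_B K p hp hp3 hK a ha m (Nat.pos_of_ne_zero hm)
    rw [nid] at this
    have h2 : ((Nat.card {I : Ideal (𝓞 K) // Ideal.absNorm I = m} : ℤ) : ℂ)
        = ((∑ d ∈ m.divisors, legendreSym p (d : ℤ) : ℤ) : ℂ) := by rw [this]
    push_cast at h2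
    rw [h2]
    exact sum_congr rfl fun d _ => (hval d).symm)
  have h2 := LFunction_one_quadratic p hp (gauss_sum_range p hp) χ hval
  rw [h2, hQ.residue_eq] at h1
  have h3 := Complex.ofReal_injective h1
  refine dcn_fin p hpr.pos (classNumber K) _ ?_
  rw [h3]
  push_cast
  rfl

end Pool.Agent.DCN
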