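import Mathlib

/-!
# DCN: the ring of integers of Q(sqrt(-p)), p = 3 mod 4
-/

set_option autoImplicit false

open NumberField

namespace Pool.Agent.DCN

section Field

variable {K : Type*} [Field K] [NumberField K]

private theorem om_not_rat {n : ℕ} (hn : 1 ≤ n) {d : K} (h : d * d = -(n : K)) (r : ℚ) :
    d ≠ algebraMap ℚ K r := by
  intro hr
  rw [hr] at h
  have h2 : algebraMap ℚ K (r * r + n) = 0 := by
    rw [map_add, map_mul, h, map_natCast]
    ring
  have h3 : r * r + n = 0 := by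
    apply (algebraMap ℚ K).injective
    rw [h2, map_zero]
  have h4 : (1 : ℚ) ≤ n := by exact_mod_cast hn
  nlinarith [mul_self_nonneg r]

private theorem om_indep {n : ℕ} (hn : 1 ≤ n) {d : K} (h : d * d = -(n : K)) :
    LinearIndependent ℚ ![(1 : K), d] := by
  rw [LinearIndependent.pair_iff]
  intro s t hst
  by_cases ht : t = 0
  · subst ht
    rw [zero_smul, add_zero, Algebra.smul_def, mul_one] at hst
    refine ⟨?_, rfl⟩
    apply (algebraMap ℚ K).injective
    rw [hst, map_zero]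
  · exfalso
    apply om_not_rat hn h (-s / t)
    have ht' : algebraMap ℚ K t ≠ 0 := by
      intro h0
      exact ht ((algebraMap ℚ K).injective (by rw [h0, map_zero]))
    rw [Algebra.smul_def, Algebra.smul_def, mul_one] at hst
    rw [map_div₀, map_neg, eq_div_iff ht']
    linear_combination hst

/-- The basis `1, √-n`. -/
private noncomputable def omB (hd : Module.finrank ℚ K = 2) {n : ℕ} (hn : 1 ≤ n) {d : K}
    (h : d * d = -(n : K)) : Module.Basis (Fin 2) ℚ K :=
  basisOfLinearIndependentOfCardEqFinrank (om_indep hn h) (by simp [hd])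

private theorem omB_apply (hd : Module.finrank ℚ K = 2) {n : ℕ} (hn : 1 ≤ n) {d : K}
    (h : d * d = -(n : K)) : ⇑(omB hd hn h) = ![(1 : K), d] :=
  coe_basisOfLinearIndependentOfCardEqFinrank _ _

private theorem om_rep (hd : Module.finrank ℚ K = 2) {n : ℕ} (hn : 1 ≤ n) {d : K}
    (h : d * d = -(n : K)) (y : K) : ∃ a b : ℚ, y = algebraMap ℚ K a + algebraMap ℚ K b * d := by
  have h1 := (omB hd hn h).sum_repr y
  rw [Fin.sum_univ_two, omB_apply] at h1
  refine ⟨(omB hd hn h).repr y 0, (omB hd hn h).repr y 1, ?_⟩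
  refine h1.symm.trans ?_
  simp [Algebra.smul_def]

private theorem om_repr (hd : Module.finrank ℚ K = 2) {n : ℕ} (hn : 1 ≤ n) {d : K}
    (h : d * d = -(n : K)) (a b : ℚ) :
    (omB hd hn h).repr (algebraMap ℚ K a + algebraMap ℚ K b * d) =
      Finsupp.single 0 a + Finsupp.single 1 b := by
  have e : algebraMap ℚ K a + algebraMap ℚ K b * d =
      a • (omB hd hn h) 0 + b • (omB hd hn h) 1 := by
    rw [omB_apply]
    simp [Algebra.smul_def]
  rw [e, map_add, map_smul, map_smul, Module.Basis.repr_self, Module.Basis.repr_self]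
  simp

private theorem om_mul {n : ℕ} {d : K} (h : d * d = -(n : K)) (a b : ℚ) :
    (algebraMap ℚ K a + algebraMap ℚ K b * d) * d =
      algebraMap ℚ K (-(n * b)) + algebraMap ℚ K a * d := by
  rw [map_neg, map_mul, map_natCast]
  linear_combination (algebraMap ℚ K b) * h

private theorem om_matrix (hd : Module.finrank ℚ K = 2) {n : ℕ} (hn : 1 ≤ n) {d : K}
    (h : d * d = -(n : K)) (a b : ℚ) :
    Algebra.leftMulMatrix (omB hd hn h) (algebraMap ℚ K a + algebraMap ℚ K b * d) =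
      !![a, -(n * b); b, a] := by
  ext i j
  rw [Algebra.leftMulMatrix_eq_repr_mul]
  fin_cases j
  · have e : (omB hd hn h) (0 : Fin 2) = 1 := by rw [omB_apply]; rfl
    change ((omB hd hn h).repr ((algebraMap ℚ K a + algebraMap ℚ K b * d) *
      (omB hd hn h) (0 : Fin 2))) i = _
    rw [e, mul_one, om_repr hd hn h]
    fin_cases i <;> simp
  · have e : (omB hd hn h) (1 : Fin 2) = d := by rw [omB_apply]; rfl
    change ((omB hd hn h).repr ((algebraMap ℚ K a + algebraMap ℚ K b * d) *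
      (omB hd hn h) (1 : Fin 2))) i = _
    rw [e, om_mul h, om_repr hd hn h]
    fin_cases i <;> simp

private theorem om_trace (hd : Module.finrank ℚ K = 2) {n : ℕ} (hn : 1 ≤ n) {d : K}
    (h : d * d = -(n : K)) (a b : ℚ) :
    Algebra.trace ℚ K (algebraMap ℚ K a + algebraMap ℚ K b * d) = 2 * a := by
  rw [Algebra.trace_eq_matrix_trace (omB hd hn h), om_matrix, Matrix.trace_fin_two_of]
  ring

private theorem om_norm (hd : Module.finrank ℚ K = 2) {n : ℕ} (hn : 1 ≤ n) {d : K}
    (h : d * d = -(n : K)) (a b : ℚ) :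
    Algebra.norm ℚ (algebraMap ℚ K a + algebraMap ℚ K b * d) = a ^ 2 + n * b ^ 2 := by
  rw [Algebra.norm_eq_matrix_det (omB hd hn h), om_matrix, Matrix.det_fin_two_of]
  ring

end Field

private theorem om_int {r : ℚ} (h : IsIntegral ℤ r) : ∃ z : ℤ, r = z := by
  obtain ⟨z, hz⟩ := IsIntegrallyClosed.isIntegral_iff.1 h
  exact ⟨z, by rw [← hz]; rfl⟩

/-- a rational number `w` with `p w ^ 2` an integer is an integer -/
private theorem om_sqfree {p : ℕ} (hp : p.Prime) {w : ℚ} {k : ℤ} (h : (p : ℚ) * w ^ 2 = k) :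
    ∃ z : ℤ, w = z := by
  have h1 : IsIntegral ℤ ((p : ℚ) * w) := by
    apply IsIntegral.of_pow (n := 2) (by norm_num)
    have : ((p : ℚ) * w) ^ 2 = ((p * k : ℤ) : ℚ) := by
      push_cast
      rw [← h]
      ring
    rw [this]
    exact isIntegral_algebraMap (R := ℤ) (A := ℚ) (x := (p * k : ℤ))
  obtain ⟨t, ht⟩ := om_int h1
  have h2 : t ^ 2 = p * k := by
    have : ((t ^ 2 : ℤ) : ℚ) = ((p * k : ℤ) : ℚ) := by
      push_cast
      rw [← ht, ← h]
      ring
    exact_mod_cast this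
  have hp' : Prime (p : ℤ) := Nat.prime_iff_prime_int.mp hp
  obtain ⟨z, hz⟩ := hp'.dvd_of_dvd_pow (Dvd.intro _ h2.symm)
  refine ⟨z, ?_⟩
  have hp0 : (p : ℚ) ≠ 0 := by exact_mod_cast hp.ne_zero
  apply mul_left_cancel₀ hp0
  rw [ht, hz]
  push_cast
  ring

theorem exists_omega (K : Type*) [Field K] [NumberField K] (p : ℕ) [Fact p.Prime]
    (hp : p % 4 = 3) (hK : Module.finrank ℚ K = 2) (a : K) (ha : a ^ 2 = -(p : K)) :
    ∃ ω : 𝓞 K, ω ^ 2 - ω + (((1 + p) / 4 : ℕ) : 𝓞 K) = 0 ∧ ((2 * ω - 1 : 𝓞 K) : K) = a ∧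
      ∀ x : 𝓞 K, ∃ m n : ℤ, x = (m : 𝓞 K) + (n : 𝓞 K) * ω := by
  have hpp : p.Prime := Fact.out
  have hn : 1 ≤ p := hpp.one_lt.le
  have h : a * a = -(p : K) := by rw [← sq]; exact ha
  obtain ⟨c, hc⟩ : ∃ c : ℕ, 1 + p = 4 * c := ⟨(1 + p) / 4, by omega⟩
  have hc' : (1 + p) / 4 = c := by omega
  rw [hc']
  have hcK : (1 : K) + p = 4 * c := by exact_mod_cast congrArg (Nat.cast (R := K)) hc
  have h4 : (4 : K) ≠ 0 := by norm_num
  have h2 : (2 : K) ≠ 0 := by norm_num
  have hroot : ((1 + a) / 2) ^ 2 - (1 + a) / 2 + (c : K) = 0 := by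
    have e : (c : K) = (1 + p) / 4 := by
      rw [hcK]
      field_simp
    rw [e]
    field_simp
    linear_combination 4 * h
  have hint : IsIntegral ℤ ((1 + a) / 2) := by
    refine ⟨Polynomial.X ^ 2 - Polynomial.X + Polynomial.C (c : ℤ), ?_, ?_⟩
    · monicity!
    · simp only [Polynomial.eval₂_add, Polynomial.eval₂_sub, Polynomial.eval₂_pow,
        Polynomial.eval₂_X, Polynomial.eval₂_C]
      simpa using hroot
  obtain ⟨ω, hω⟩ : ∃ ω : 𝓞 K, (ω : K) = (1 + a) / 2 := ⟨⟨(1 + a) / 2, hint⟩, rfl⟩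
  have hω' : algebraMap (𝓞 K) K ω = (1 + a) / 2 := hω
  refine ⟨ω, ?_, ?_, ?_⟩
  · apply RingOfIntegers.ext
    change algebraMap (𝓞 K) K (ω ^ 2 - ω + (c : 𝓞 K)) = algebraMap (𝓞 K) K 0
    rw [map_add, map_sub, map_pow, hω', map_zero, map_natCast]
    exact hroot
  · change algebraMap (𝓞 K) K (2 * ω - 1) = a
    rw [map_sub, map_mul, hω', map_one, map_ofNat]
    field_simp
    ring
  · intro x
    obtain ⟨u, v, huv⟩ := om_rep hK hn h (x : K)
    have hx : IsIntegral ℤ (x : K) := x.2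
    obtain ⟨s, hs⟩ := om_int (Algebra.isIntegral_trace (F := K) (L := ℚ) (R := ℤ) hx)
    obtain ⟨N, hN⟩ := om_int (Algebra.isIntegral_norm (K := ℚ) hx)
    rw [huv, om_trace hK hn h] at hs
    rw [huv, om_norm hK hn h] at hN
    have h3 : (p : ℚ) * (2 * v) ^ 2 = ((4 * N - s ^ 2 : ℤ) : ℚ) := by
      push_cast
      rw [← hs, ← hN]
      ring
    obtain ⟨w, hw⟩ := om_sqfree hpp h3
    have h5 : (p : ℤ) * w ^ 2 = 4 * N - s ^ 2 := by
      rw [hw] at h3
      exact_mod_cast h3
    have h6 : (2 : ℤ) ∣ s - w := by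
      have hpz : ((p : ℤ)) = 4 * ((p / 4 : ℕ) : ℤ) + 3 := by omega
      rw [hpz] at h5
      rcases Int.even_or_odd' s with ⟨s', hs' | hs'⟩ <;> rcases Int.even_or_odd' w with ⟨w', hw' | hw'⟩
      · omega
      · exfalso
        rw [hs', hw'] at h5
        have : (4 : ℤ) * (((p / 4 : ℕ) : ℤ) * (2 * w' + 1) ^ 2 + 3 * (w' ^ 2 + w') - N + s' ^ 2)
          = -3 := by linear_combination h5
        omega
      · exfalso
        rw [hs', hw'] at h5
        have : (4 : ℤ) * (((p / 4 : ℕ) : ℤ) * (2 * w') ^ 2 + 3 * w' ^ 2 - N + s' ^ 2 + s')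
          = -1 := by linear_combination h5
        omega
      · omega
    obtain ⟨m, hm⟩ := h6
    refine ⟨m, w, ?_⟩
    apply RingOfIntegers.ext
    change (x : K) = algebraMap (𝓞 K) K ((m : 𝓞 K) + (w : 𝓞 K) * ω)
    rw [map_add, map_mul, map_intCast, map_intCast, hω', huv]
    have hs2 : (2 : K) * algebraMap ℚ K u = (s : K) := by
      have := congrArg (algebraMap ℚ K) hs
      rw [map_mul] at this
      simpa using this
    have hv2 : (2 : K) * algebraMap ℚ K v = (w : K) := by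
      have := congrArg (algebraMap ℚ K) hw
      rw [map_mul] at this
      simpa using this
    have hm2 : (s : K) - w = 2 * m := by exact_mod_cast congrArg (Int.cast (R := K)) hm
    apply mul_left_cancel₀ h2
    field_simp
    linear_combination hs2 + a * hv2 + hm2

end Pool.Agent.DCN
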