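import Mathlib
import Pool.Agent.DCN.Defs

/-! Row PRI: the product of the sines has the right sign. -/

set_option autoImplicit false

namespace Pool.Agent.DCN

theorem zt_pow_eq (p j : ℕ) :
    zt p ^ j = Complex.exp (((2 * Real.pi * j / p : ℝ) : ℂ) * Complex.I) := by
  unfold zt
  rw [← Complex.exp_nat_mul]
  congr 1
  push_cast
  ring

theorem fac_eq (p j : ℕ) (hp : 0 < p) (hj : j ≤ p) :
    zt p ^ j - zt p ^ (p - j) =
      Complex.I * ((2 * Real.sin (2 * Real.pi * j / p) : ℝ) : ℂ) := by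
  have hp' : (p : ℝ) ≠ 0 := by positivity
  have h2 : (2 * Real.pi * ((p - j : ℕ) : ℝ) / p : ℝ) = 2 * Real.pi - 2 * Real.pi * j / p := by
    rw [Nat.cast_sub hj]
    field_simp
  rw [zt_pow_eq, zt_pow_eq, h2, Complex.exp_mul_I, Complex.exp_mul_I, ← Complex.ofReal_cos,
    ← Complex.ofReal_sin, ← Complex.ofReal_cos, ← Complex.ofReal_sin, Real.cos_two_pi_sub,
    Real.sin_two_pi_sub]
  push_cast
  ring

theorem sin_pos_of (p j : ℕ) (hj : 0 < j) (hjp : 2 * j < p) :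
    0 < Real.sin (2 * Real.pi * j / p) := by
  have hp : (0 : ℝ) < p := by
    have : 0 < p := by omega
    exact_mod_cast this
  have hj' : (0 : ℝ) < j := by exact_mod_cast hj
  have h2 : (2 * j : ℝ) < p := by exact_mod_cast hjp
  apply Real.sin_pos_of_pos_of_lt_pi
  · positivity
  · rw [div_lt_iff₀ hp]
    nlinarith [Real.pi_pos]

theorem sin_neg_of (p j : ℕ) (hj : p < 2 * j) (hjp : j < p) :
    Real.sin (2 * Real.pi * j / p) < 0 := by
  have hp : (0 : ℝ) < p := by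
    have : 0 < p := by omega
    exact_mod_cast this
  have hj' : (p : ℝ) < 2 * j := by exact_mod_cast hj
  have h2 : (j : ℝ) < p := by exact_mod_cast hjp
  have h3 : 0 < Real.sin (2 * Real.pi * j / p - Real.pi) := by
    apply Real.sin_pos_of_pos_of_lt_pi
    · rw [sub_pos, lt_div_iff₀ hp]
      nlinarith [Real.pi_pos]
    · rw [sub_lt_iff_lt_add, div_lt_iff₀ hp]
      nlinarith [Real.pi_pos]
  rw [Real.sin_sub_pi] at h3
  linarith

theorem prod_low (p t : ℕ) (hpt : p = 4 * t + 3) (n : ℕ) (hn : n ≤ t + 1) :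
    ∃ r : ℝ, 0 < r ∧ ∏ k ∈ Finset.Icc 1 n, (zt p ^ (2 * k - 1) - zt p ^ (p - (2 * k - 1))) =
      Complex.I ^ n * (r : ℂ) := by
  induction n with
  | zero => exact ⟨1, one_pos, by simp⟩
  | succ n ih =>
    obtain ⟨r, hr, h⟩ := ih (by omega)
    have hs := sin_pos_of p (2 * (n + 1) - 1) (by omega) (by omega)
    refine ⟨r * (2 * Real.sin (2 * Real.pi * ((2 * (n + 1) - 1 : ℕ) : ℝ) / p)),
      by positivity, ?_⟩
    rw [Finset.prod_Icc_succ_top (by omega), h, fac_eq p _ (by omega) (by omega)]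
    push_cast
    ring

theorem prod_high (p t : ℕ) (hpt : p = 4 * t + 3) (n : ℕ) (hn : n ≤ t) :
    ∃ r : ℝ, 0 < r ∧ ∏ k ∈ Finset.Icc 1 (t + 1 + n),
      (zt p ^ (2 * k - 1) - zt p ^ (p - (2 * k - 1))) =
      Complex.I ^ (t + 1) * (-Complex.I) ^ n * (r : ℂ) := by
  induction n with
  | zero =>
    obtain ⟨r, hr, h⟩ := prod_low p t hpt (t + 1) le_rfl
    exact ⟨r, hr, by rw [add_zero, h]; ring⟩
  | succ n ih =>
    obtain ⟨r, hr, h⟩ := ih (by omega)
    have hs := sin_neg_of p (2 * (t + 1 + n + 1) - 1) (by omega) (by omega)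
    refine ⟨r * (-(2 * Real.sin (2 * Real.pi * ((2 * (t + 1 + n + 1) - 1 : ℕ) : ℝ) / p))),
      mul_pos hr (by linarith), ?_⟩
    rw [← add_assoc, Finset.prod_Icc_succ_top (by omega), h, fac_eq p _ (by omega) (by omega)]
    push_cast
    ring

theorem dcn_pri (p : ℕ) (hp : p.Prime) (hp4 : p % 4 = 3) (h2 : pro p ^ 2 = -(p : ℂ)) :
    pro p = Complex.I * (Real.sqrt p : ℂ) := by
  obtain ⟨t, ht⟩ : ∃ t, p = 4 * t + 3 := ⟨p / 4, by omega⟩
  obtain ⟨r, hr, h⟩ := prod_high p t ht t le_rfl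
  have hm : (p - 1) / 2 = t + 1 + t := by omega
  have hpro : pro p = Complex.I * (r : ℂ) := by
    unfold pro
    rw [hm, h]
    have h3 : Complex.I ^ (t + 1) * (-Complex.I) ^ t = Complex.I := by
      rw [pow_succ, mul_assoc, mul_comm Complex.I, ← mul_assoc, ← mul_pow]
      simp
    rw [h3]
  rw [hpro] at h2 ⊢
  have h4 : ((r ^ 2 : ℝ) : ℂ) = ((p : ℝ) : ℂ) := by
    rw [mul_pow, Complex.I_sq] at h2
    push_cast
    linear_combination -h2
  have h5 : r ^ 2 = (p : ℝ) := by exact_mod_cast h4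
  rw [← h5, Real.sqrt_sq hr.le]

end Pool.Agent.DCN
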