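import Mathlib
import Pool.Agent.DCN.Fct

/-! The ideals of norm q^k when there are two primes of norm q above q. -/

open NumberField

namespace Pool.Agent.DCN

private theorem pw1_eq {K : Type*} [Field K] [NumberField K] {q : ℕ} (hq : q.Prime)
    (P Q : Ideal (𝓞 K)) (nP : Ideal.absNorm P = q) (nQ : Ideal.absNorm Q = q)
    (h : ∀ P' : Ideal (𝓞 K), P'.IsPrime → (q : 𝓞 K) ∈ P' → P' = P ∨ P' = Q) (k : ℕ) :
    ∀ I : Ideal (𝓞 K), Ideal.absNorm I = q ^ k → ∃ i, i ≤ k ∧ I = P ^ i * Q ^ (k - i) := by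
  induction k with
  | zero =>
    intro I hI
    refine ⟨0, le_rfl, ?_⟩
    rw [pow_zero] at hI
    rw [Nat.sub_zero, pow_zero, pow_zero, one_mul, Ideal.one_eq_top]
    exact Ideal.absNorm_eq_one_iff.1 hI
  | succ k ih =>
    intro I hI
    obtain ⟨P', J, hP', hqP', hIJ⟩ := exists_factor hq hI
    have hnP' : Ideal.absNorm P' = q := by
      rcases h P' hP' hqP' with h1 | h1
      · rw [h1, nP]
      · rw [h1, nQ]
    have hJ : Ideal.absNorm J = q ^ k := by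
      rw [hIJ, map_mul, hnP', pow_succ'] at hI
      exact Nat.eq_of_mul_eq_mul_left hq.pos hI
    obtain ⟨i, hi, hj⟩ := ih J hJ
    rcases h P' hP' hqP' with h1 | h1
    · refine ⟨i + 1, by omega, ?_⟩
      have h2 : k + 1 - (i + 1) = k - i := by omega
      rw [hIJ, hj, h1, h2, pow_succ', mul_assoc]
    · refine ⟨i, by omega, ?_⟩
      have h2 : k + 1 - i = (k - i) + 1 := by omega
      rw [hIJ, hj, h1, h2, pow_succ']
      ring

private theorem pw1_ne {K : Type*} [Field K] [NumberField K] {q : ℕ} (hq : q.Prime)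
    (P Q : Ideal (𝓞 K)) (hPQ : P ≠ Q) (hP : P.IsPrime) (hQ : Q.IsPrime)
    (nP : Ideal.absNorm P = q) (nQ : Ideal.absNorm Q = q) {k i j : ℕ} (hij : i < j) (hj : j ≤ k)
    (he : P ^ i * Q ^ (k - i) = P ^ j * Q ^ (k - j)) : False := by
  have hP0 : P ≠ ⊥ := by
    rintro rfl
    rw [Ideal.absNorm_bot] at nP
    exact hq.ne_zero nP.symm
  have hQ0 : Q ≠ ⊥ := by
    rintro rfl
    rw [Ideal.absNorm_bot] at nQ
    exact hq.ne_zero nQ.symm
  have h1 : P ^ i * Q ^ (k - i) = (P ^ i * Q ^ (k - j)) * Q ^ (j - i) := by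
    rw [mul_assoc, ← pow_add]
    congr 2
    omega
  have h2 : P ^ j * Q ^ (k - j) = (P ^ i * Q ^ (k - j)) * P ^ (j - i) := by
    have h3 : P ^ j = P ^ i * P ^ (j - i) := by
      rw [← pow_add]
      congr 1
      omega
    rw [h3]
    ring
  have hc : P ^ i * Q ^ (k - j) ≠ 0 := mul_ne_zero (pow_ne_zero _ hP0) (pow_ne_zero _ hQ0)
  rw [h1, h2] at he
  have h4 : Q ^ (j - i) = P ^ (j - i) := mul_left_cancel₀ hc he
  have h5 : P ^ (j - i) ≤ P := Ideal.pow_le_self (by omega)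
  have h6 : Q ^ (j - i) ≤ P := h4 ▸ h5
  have h7 : Q ≤ P := hP.le_of_pow_le h6
  have hQm : Q.IsMaximal := hQ.isMaximal hQ0
  exact hPQ (hQm.eq_of_le hP.ne_top h7).symm

theorem card_split {K : Type*} [Field K] [NumberField K] {q : ℕ} (hq : q.Prime)
    (P Q : Ideal (𝓞 K)) (hPQ : P ≠ Q) (hP : P.IsPrime) (hQ : Q.IsPrime)
    (nP : Ideal.absNorm P = q) (nQ : Ideal.absNorm Q = q)
    (h : ∀ P' : Ideal (𝓞 K), P'.IsPrime → (q : 𝓞 K) ∈ P' → P' = P ∨ P' = Q) (k : ℕ) :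
    Nat.card {I : Ideal (𝓞 K) // Ideal.absNorm I = q ^ k} = k + 1 := by
  have hmem : ∀ i : Fin (k + 1), Ideal.absNorm (P ^ (i : ℕ) * Q ^ (k - (i : ℕ))) = q ^ k := by
    intro i
    rw [map_mul, map_pow, map_pow, nP, nQ, ← pow_add]
    congr 1
    have := i.2
    omega
  have hb : Function.Bijective (fun i : Fin (k + 1) =>
      (⟨P ^ (i : ℕ) * Q ^ (k - (i : ℕ)), hmem i⟩ :
        {I : Ideal (𝓞 K) // Ideal.absNorm I = q ^ k})) := by
    constructor
    · intro i j hij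
      have he : P ^ (i : ℕ) * Q ^ (k - (i : ℕ)) = P ^ (j : ℕ) * Q ^ (k - (j : ℕ)) :=
        congrArg Subtype.val hij
      rcases lt_trichotomy (i : ℕ) (j : ℕ) with hlt | heq | hgt
      · exact (pw1_ne hq P Q hPQ hP hQ nP nQ hlt (by have := j.2; omega) he).elim
      · exact Fin.ext heq
      · exact (pw1_ne hq P Q hPQ hP hQ nP nQ hgt (by have := i.2; omega) he.symm).elim
    · rintro ⟨I, hI⟩
      obtain ⟨i, hi, hIe⟩ := pw1_eq hq P Q nP nQ h k I hI
      exact ⟨⟨i, by omega⟩, Subtype.ext hIe.symm⟩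
  rw [← Nat.card_congr (Equiv.ofBijective _ hb), Nat.card_fin]

end Pool.Agent.DCN
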