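import Mathlib
import Pool.Agent.DCN.Fct

/-! The ideals of norm q^k when there is one prime above q. -/

open NumberField

namespace Pool.Agent.DCN

private theorem pw2_eq_pow {K : Type*} [Field K] [NumberField K] {q : ℕ} (hq : q.Prime)
    (P : Ideal (𝓞 K)) (f : ℕ) (hf : 0 < f) (nP : Ideal.absNorm P = q ^ f)
    (h : ∀ P' : Ideal (𝓞 K), P'.IsPrime → (q : 𝓞 K) ∈ P' → P' = P) (k : ℕ) :
    ∀ I : Ideal (𝓞 K), Ideal.absNorm I = q ^ k → ∃ j, I = P ^ j := by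
  induction k using Nat.strong_induction_on with
  | _ k ih =>
    intro I hI
    rcases k with _ | k
    · refine ⟨0, ?_⟩
      rw [pow_zero] at hI ⊢
      rw [Ideal.one_eq_top]
      exact Ideal.absNorm_eq_one_iff.1 hI
    · obtain ⟨P', J, hP', hqP', hIJ⟩ := exists_factor hq hI
      have hPP := h P' hP' hqP'
      subst hPP
      rw [hIJ, map_mul, nP] at hI
      have hdvd : Ideal.absNorm J ∣ q ^ (k + 1) := Dvd.intro_left _ hI
      obtain ⟨i, hi, hJ⟩ := (Nat.dvd_prime_pow hq).1 hdvd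
      rw [hJ, ← pow_add] at hI
      have h1 := Nat.pow_right_injective hq.two_le hI
      obtain ⟨j, hj⟩ := ih i (by omega) J hJ
      exact ⟨j + 1, by rw [hIJ, hj, pow_succ']⟩

theorem card_single {K : Type*} [Field K] [NumberField K] {q : ℕ} (hq : q.Prime)
    (P : Ideal (𝓞 K)) (hP : P.IsPrime) (f : ℕ) (hf : 0 < f) (nP : Ideal.absNorm P = q ^ f)
    (h : ∀ P' : Ideal (𝓞 K), P'.IsPrime → (q : 𝓞 K) ∈ P' → P' = P) (k : ℕ) :
    Nat.card {I : Ideal (𝓞 K) // Ideal.absNorm I = q ^ k} = if f ∣ k then 1 else 0 := by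
  have hkey : ∀ I : Ideal (𝓞 K), Ideal.absNorm I = q ^ k → ∃ j, I = P ^ j ∧ k = f * j := by
    intro I hI
    obtain ⟨j, hj⟩ := pw2_eq_pow hq P f hf nP h k I hI
    refine ⟨j, hj, ?_⟩
    rw [hj, map_pow, nP, ← pow_mul] at hI
    exact (Nat.pow_right_injective hq.two_le hI).symm
  split_ifs with hk
  · obtain ⟨j, hj⟩ := hk
    rw [Nat.card_eq_one_iff_unique]
    refine ⟨⟨?_⟩, ⟨⟨P ^ j, ?_⟩⟩⟩
    · rintro ⟨I, hI⟩ ⟨J, hJ⟩
      obtain ⟨i1, h1, h2⟩ := hkey I hI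
      obtain ⟨i2, h3, h4⟩ := hkey J hJ
      apply Subtype.ext
      change I = J
      have h5 : i1 = i2 := Nat.eq_of_mul_eq_mul_left hf (h2.symm.trans h4)
      rw [h1, h3, h5]
    · rw [map_pow, nP, ← pow_mul, hj]
  · rw [Nat.card_eq_zero]
    left
    refine ⟨?_⟩
    rintro ⟨I, hI⟩
    obtain ⟨i1, _, h2⟩ := hkey I hI
    exact hk ⟨i1, h2⟩

end Pool.Agent.DCN
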