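import Mathlib
import Pool.Agent.DCN.Defs

/-! The regulator of a number field with one complex place and no real place. -/

open NumberField NumberField.Units NumberField.InfinitePlace Filter Topology

namespace Pool.Agent.DCN

/-- row REG (unit rank 0) -/
theorem dcn_regulator (K : Type) [Field K] [NumberField K]
    (h1 : nrRealPlaces K = 0) (h2 : nrComplexPlaces K = 1) : regulator K = 1 := by
  classical
  rw [NumberField.Units.regulator_eq_det']
  have hc : Fintype.card (InfinitePlace K) = 1 := by
    rw [card_eq_nrRealPlaces_add_nrComplexPlaces, h1, h2]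
  have : IsEmpty {w : InfinitePlace K // w ≠ dirichletUnitTheorem.w₀} := by
    refine ⟨fun w => w.2 ?_⟩
    exact (Fintype.card_le_one_iff.1 hc.le) _ _
  rw [Matrix.det_isEmpty, abs_one]

end Pool.Agent.DCN
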