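import Mathlib

/-!
# DCN: the ramified prime
-/

set_option autoImplicit false

open NumberField

namespace Pool.Agent.DCN

theorem ram (K : Type*) [Field K] [NumberField K] (p : ℕ) [Fact p.Prime]
    (hp : p % 4 = 3) (hK : Module.finrank ℚ K = 2) (ω : 𝓞 K)
    (hω : ω ^ 2 - ω + (((1 + p) / 4 : ℕ) : 𝓞 K) = 0) :
    ∃ P : Ideal (𝓞 K), P.IsPrime ∧ Ideal.absNorm P = p ∧
      ∀ P' : Ideal (𝓞 K), P'.IsPrime → (p : 𝓞 K) ∈ P' → P' = P := by
  have hpp : p.Prime := Fact.out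
  set c := (1 + p) / 4 with hc
  have hc4 : 4 * c = 1 + p := by omega
  have hc4' : (4 : 𝓞 K) * (c : 𝓞 K) = 1 + (p : 𝓞 K) := by exact_mod_cast congrArg (Nat.cast (R := 𝓞 K)) hc4
  set a : 𝓞 K := 2 * ω - 1 with ha
  have ha2 : a ^ 2 = -(p : 𝓞 K) := by
    rw [ha]
    linear_combination 4 * hω - hc4'
  have hn : (Algebra.norm ℤ a) ^ 2 = (p : ℤ) ^ 2 := by
    rw [← map_pow, ha2]
    have h1 : (-(p : 𝓞 K)) = algebraMap ℤ (𝓞 K) (-(p : ℤ)) := by
      simp
    rw [h1, Algebra.norm_algebraMap, RingOfIntegers.rank, hK]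
    ring
  have hnat : (Algebra.norm ℤ a).natAbs = p := by
    have h1 := (sq_eq_sq_iff_abs_eq_abs _ _).1 hn
    have h2 : ((Algebra.norm ℤ a).natAbs : ℤ) = (p : ℤ) := by
      rw [Int.natCast_natAbs, h1]
      simp
    exact_mod_cast h2
  have habs : Ideal.absNorm (Ideal.span {a}) = p := by
    rw [Ideal.absNorm_span_singleton, hnat]
  have hprime : (Ideal.span {a} : Ideal (𝓞 K)).IsPrime :=
    Ideal.isPrime_of_irreducible_absNorm (by rw [habs]; exact hpp)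
  refine ⟨Ideal.span {a}, hprime, habs, ?_⟩
  intro P' hP' hmem
  have h1 : a ∈ P' := by
    apply hP'.mem_of_pow_mem 2
    rw [ha2]
    exact P'.neg_mem hmem
  have h2 : Ideal.span {a} ≤ P' := (Ideal.span_singleton_le_iff_mem P').2 h1
  have hbot : (Ideal.span {a} : Ideal (𝓞 K)) ≠ ⊥ := by
    intro h
    rw [h, Ideal.absNorm_bot] at habs
    exact hpp.ne_zero habs.symm
  have hmax := hprime.isMaximal hbot
  exact (hmax.eq_of_le hP'.ne_top h2).symm

end Pool.Agent.DCN
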