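import Mathlib

/-!
# DCN, row ROOT: the roots of `X^2 - X + (1+p)/4` modulo a prime `q`
-/

set_option autoImplicit false

namespace Pool.Agent.DCN

theorem legendre_neg (p q : ℕ) [Fact p.Prime] [Fact q.Prime] (hp : p % 4 = 3) (hqp : q ≠ p)
    (hq2 : q ≠ 2) : legendreSym p q = legendreSym q (-(p : ℤ)) := by
  have hqo : q % 4 = 1 ∨ q % 4 = 3 := by
    have h1 : q % 2 = 1 := (Fact.out : q.Prime).eq_two_or_odd.resolve_left hq2
    omega
  have hp2 : p ≠ 2 := by rintro rfl; omega
  have hneg : legendreSym q (-(p : ℤ)) = legendreSym q (-1) * legendreSym q (p : ℤ) := by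
    rw [← legendreSym.mul]; congr 1; ring
  rw [hneg, legendreSym.at_neg_one hq2]
  rcases hqo with h | h
  · rw [ZMod.χ₄_nat_one_mod_four h, one_mul]
    exact legendreSym.quadratic_reciprocity_one_mod_four h hp2
  · rw [ZMod.χ₄_nat_three_mod_four h]
    have h3 := legendreSym.quadratic_reciprocity_three_mod_four hp h
    rw [h3]; ring

theorem sq_sub_self_zmod_two : ∀ r : ZMod 2, r ^ 2 - r = 0 := by decide

/-- Quadratic reciprocity and the second supplement: for all primes `q` different from `p`. -/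
theorem root_iff (p q : ℕ) [Fact p.Prime] [Fact q.Prime] (hp : p % 4 = 3) (hqp : q ≠ p) :
    legendreSym p q = 1 ↔ ∃ r : ZMod q, r ^ 2 - r + (((1 + p) / 4 : ℕ) : ZMod q) = 0 := by
  have hp2 : p ≠ 2 := by rintro rfl; omega
  by_cases hq2 : q = 2
  · subst hq2
    have h1 : legendreSym p ((2 : ℕ) : ℤ) = ZMod.χ₈ p := legendreSym.at_two hp2
    rw [h1, ZMod.χ₈_nat_eq_if_mod_eight]
    have h2 : ∀ r : ZMod 2, r ^ 2 - r = 0 := sq_sub_self_zmod_two
    have h3 : (∃ r : ZMod 2, r ^ 2 - r + (((1 + p) / 4 : ℕ) : ZMod 2) = 0) ↔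
        (((1 + p) / 4 : ℕ) : ZMod 2) = 0 := by
      simp only [h2, zero_add, exists_const]
    rw [h3, ZMod.natCast_eq_zero_iff]
    have h4 : p % 8 = 3 ∨ p % 8 = 7 := by omega
    rcases h4 with h4 | h4
    · have h5 : ¬ (2 ∣ (1 + p) / 4) := by omega
      have h6 : p % 2 = 1 := by omega
      simp [h4, h5, h6]
    · have h5 : 2 ∣ (1 + p) / 4 := by omega
      have h6 : p % 2 = 1 := by omega
      simp [h4, h5, h6]
  · rw [legendre_neg p q hp hqp hq2]
    have hq : q.Prime := Fact.out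
    have hpq0 : ((-(p : ℤ) : ℤ) : ZMod q) ≠ 0 := by
      intro h
      have h1 : ((p : ℕ) : ZMod q) = 0 := by
        have : -((p : ℕ) : ZMod q) = 0 := by push_cast at h; exact h
        simpa using this
      rw [ZMod.natCast_eq_zero_iff] at h1
      exact hqp ((Nat.prime_dvd_prime_iff_eq hq Fact.out).mp h1)
    rw [legendreSym.eq_one_iff q hpq0]
    have h2 : (2 : ZMod q) ≠ 0 := by
      intro h
      have h1 : ((2 : ℕ) : ZMod q) = 0 := by exact_mod_cast h
      rw [ZMod.natCast_eq_zero_iff] at h1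
      exact hq2 ((Nat.prime_dvd_prime_iff_eq hq Nat.prime_two).mp h1)
    have h4 : (4 : ZMod q) * (((1 + p) / 4 : ℕ) : ZMod q) = 1 + (p : ZMod q) := by
      have h5 : 4 * ((1 + p) / 4) = 1 + p := by omega
      have h6 : ((4 * ((1 + p) / 4) : ℕ) : ZMod q) = ((1 + p : ℕ) : ZMod q) := by rw [h5]
      push_cast at h6
      exact h6
    constructor
    · rintro ⟨s, hs⟩
      refine ⟨(1 + s) / 2, ?_⟩
      have hs' : s * s = -(p : ZMod q) := by rw [← hs]; push_cast; ring
      have h7 : (4 : ZMod q) ≠ 0 := by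
        have : (4 : ZMod q) = 2 * 2 := by norm_num
        rw [this]; exact mul_ne_zero h2 h2
      apply mul_left_cancel₀ h7
      rw [mul_zero, mul_add, h4]
      field_simp
      linear_combination (4 : ZMod q) * hs'
    · rintro ⟨r, hr⟩
      refine ⟨2 * r - 1, ?_⟩
      push_cast
      linear_combination (-4 : ZMod q) * hr + h4

end Pool.Agent.DCN
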