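import Pool.Agent.DCN.Defs

/-! The series of `sin (n θ) / n`. -/

set_option autoImplicit false

open NumberField NumberField.Units NumberField.InfinitePlace Filter Topology

namespace Pool.Agent.DCN

private theorem SIN_pos (θ : ℝ) (h0 : 0 < θ) (h1 : θ < 2 * Real.pi) : 0 < 1 - Real.cos θ := by
  have hs : 0 < Real.sin (θ / 2) :=
    Real.sin_pos_of_pos_of_lt_pi (by linarith) (by linarith)
  have h2 : Real.cos θ = 2 * Real.cos (θ / 2) ^ 2 - 1 := by
    rw [← Real.cos_two_mul]
    congr 1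
    ring
  have h3 := Real.sin_sq_add_cos_sq (θ / 2)
  nlinarith

private theorem SIN_arg (θ : ℝ) (h0 : 0 < θ) (h1 : θ < 2 * Real.pi) :
    Complex.arg (1 - Complex.exp (θ * Complex.I)) = (θ - Real.pi) / 2 := by
  have hs : 0 < 2 * Real.sin (θ / 2) :=
    mul_pos two_pos (Real.sin_pos_of_pos_of_lt_pi (by linarith) (by linarith))
  have key : (1 - Complex.exp (θ * Complex.I) : ℂ) = ((2 * Real.sin (θ / 2) : ℝ) : ℂ) *
      (Complex.cos (((θ - Real.pi) / 2 : ℝ) : ℂ) +
        Complex.sin (((θ - Real.pi) / 2 : ℝ) : ℂ) * Complex.I) := by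
    have e1 : (θ - Real.pi) / 2 = θ / 2 - Real.pi / 2 := by ring
    rw [e1]
    rw [← Complex.ofReal_cos, ← Complex.ofReal_sin, Real.cos_sub_pi_div_two,
      Real.sin_sub_pi_div_two]
    have e2 : (θ : ℂ) * Complex.I = ((θ / 2 : ℝ) : ℂ) * Complex.I +
        ((θ / 2 : ℝ) : ℂ) * Complex.I := by
      push_cast; ring
    rw [e2, Complex.exp_add, Complex.exp_mul_I, ← Complex.ofReal_cos, ← Complex.ofReal_sin]
    have h3 : ((Real.cos (θ / 2) : ℝ) : ℂ) ^ 2 + ((Real.sin (θ / 2) : ℝ) : ℂ) ^ 2 = 1 := by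
      rw [← Complex.ofReal_pow, ← Complex.ofReal_pow, ← Complex.ofReal_add,
        Real.cos_sq_add_sin_sq, Complex.ofReal_one]
    push_cast
    push_cast at h3
    linear_combination (-1 : ℂ) * h3 - (Complex.sin ((θ : ℂ) / 2)) ^ 2 * (Complex.I_sq)
  rw [key]
  exact Complex.arg_mul_cos_add_sin_mul_I hs
    ⟨by linarith [Real.pi_pos], by linarith [Real.pi_pos]⟩

/-- row SIN (Dirichlet's test, Abel's limit theorem and the argument of `1 - exp (i θ)`) -/
theorem dcn_sin (θ : ℝ) (h0 : 0 < θ) (h1 : θ < 2 * Real.pi) :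
    Tendsto (fun N : ℕ => ∑ n ∈ Finset.Icc 1 N, Real.sin (n * θ) / n) atTop
      (𝓝 ((Real.pi - θ) / 2)) := by
  have hc := SIN_pos θ h0 h1
  obtain ⟨z, hz⟩ : ∃ z : ℂ, z = Complex.exp (θ * Complex.I) := ⟨_, rfl⟩
  have hzn : ‖z‖ = 1 := by rw [hz, Complex.norm_exp_ofReal_mul_I]
  have hre : (1 - z).re = 1 - Real.cos θ := by
    rw [hz, Complex.sub_re, Complex.one_re, Complex.exp_ofReal_mul_I_re]
  have hz1 : z - 1 ≠ 0 := by
    intro h
    have h2 : 1 - z = 0 := by linear_combination -h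
    rw [h2, Complex.zero_re] at hre
    linarith
  have hslit : 1 - z ∈ Complex.slitPlane := by
    rw [Complex.mem_slitPlane_iff]
    exact Or.inl (by rw [hre]; exact hc)
  -- bounded sums
  have hb : ∀ n : ℕ, ‖∑ i ∈ Finset.range n, z ^ (i + 1)‖ ≤ 2 / ‖z - 1‖ := by
    intro n
    have e1 : ∑ i ∈ Finset.range n, z ^ (i + 1) = z * ((z ^ n - 1) / (z - 1)) := by
      rw [← geom_sum_eq (sub_ne_zero.1 hz1), Finset.mul_sum]
      refine Finset.sum_congr rfl fun i _ => ?_
      ring
    rw [e1, norm_mul, norm_div, hzn, one_mul]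
    have h2 : ‖z ^ n - 1‖ ≤ 2 := by
      refine (norm_sub_le _ _).trans ?_
      rw [norm_pow, hzn, one_pow, norm_one]
      norm_num
    exact div_le_div_of_nonneg_right h2 (norm_nonneg _)
  have hanti : Antitone (fun i : ℕ => (1 : ℝ) / (i + 1)) := by
    intro a b hab
    have : (a : ℝ) ≤ b := by exact_mod_cast hab
    exact one_div_le_one_div_of_le (by positivity) (by linarith)
  have hcau := hanti.cauchySeq_series_mul_of_tendsto_zero_of_bounded
    tendsto_one_div_add_atTop_nhds_zero_nat hb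
  obtain ⟨l, hl⟩ := cauchySeq_tendsto_of_complete hcau
  have hl2 : Tendsto (fun n : ℕ => ∑ i ∈ Finset.range n, z ^ i / (i : ℂ)) atTop (𝓝 l) := by
    rw [← tendsto_add_atTop_iff_nat 1]
    refine hl.congr fun n => ?_
    rw [Finset.sum_range_succ']
    rw [Nat.cast_zero, div_zero, add_zero]
    refine Finset.sum_congr rfl fun i _ => ?_
    rw [Complex.real_smul]
    push_cast
    ring
  have hA := Complex.tendsto_tsum_powerSeries_nhdsWithin_lt hl2
  rw [tendsto_map'_iff] at hA
  have hB : Tendsto (fun r : ℝ => -Complex.log (1 - r * z)) (𝓝[<] 1) (𝓝 l) := by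
    refine hA.congr' ?_
    filter_upwards [Ioo_mem_nhdsLT (show (0 : ℝ) < 1 by norm_num)] with r hr
    have h2 : ‖(r : ℂ) * z‖ < 1 := by
      rw [norm_mul, hzn, mul_one, Complex.norm_real, Real.norm_eq_abs, abs_of_pos hr.1]
      exact hr.2
    rw [← (Complex.hasSum_taylorSeries_neg_log h2).tsum_eq]
    show ∑' n : ℕ, z ^ n / (n : ℂ) * (r : ℂ) ^ n = _
    refine tsum_congr fun n => ?_
    rw [mul_pow]
    ring
  have hC : Tendsto (fun r : ℝ => -Complex.log (1 - r * z)) (𝓝[<] 1)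
      (𝓝 (-Complex.log (1 - z))) := by
    have h2 : Tendsto (fun r : ℝ => (1 : ℂ) - r * z) (𝓝[<] 1) (𝓝 (1 - z)) := by
      have h3 : Continuous (fun r : ℝ => (1 : ℂ) - r * z) := by fun_prop
      have h4 := h3.tendsto 1
      rw [Complex.ofReal_one, one_mul] at h4
      exact h4.mono_left nhdsWithin_le_nhds
    exact ((continuousAt_clog hslit).tendsto.comp h2).neg
  have hlog : l = -Complex.log (1 - z) := tendsto_nhds_unique hB hC
  have him : l.im = (Real.pi - θ) / 2 := by
    rw [hlog, Complex.neg_im, Complex.log_im, hz, SIN_arg θ h0 h1]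
    ring
  have hD := (Complex.continuous_im.tendsto l).comp ((tendsto_add_atTop_iff_nat 1).2 hl2)
  rw [him] at hD
  refine hD.congr fun N => ?_
  show (∑ i ∈ Finset.range (N + 1), z ^ i / (i : ℂ)).im = _
  rw [Complex.im_sum]
  have hterm : ∀ i : ℕ, (z ^ i / (i : ℂ)).im = Real.sin (i * θ) / i := by
    intro i
    have h2 : z ^ i = Complex.exp (((i * θ : ℝ) : ℂ) * Complex.I) := by
      rw [hz, ← Complex.exp_nat_mul]
      congr 1
      push_cast
      ring
    rw [h2, Complex.div_natCast_im, Complex.exp_ofReal_mul_I_im]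
  rw [Finset.sum_congr rfl fun i _ => hterm i]
  rw [Finset.sum_range_succ']
  rw [Nat.cast_zero, div_zero, add_zero]
  clear hD
  induction N with
  | zero => simp
  | succ N ih =>
    rw [Finset.sum_range_succ, ih, Finset.sum_Icc_succ_top (by omega)]

end Pool.Agent.DCN
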