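import Mathlib
import Pool.Agent.DCN.Defs
import Pool.Agent.DCN.SIN

/-! Row SER: the series of the quadratic character from the sine series and the Gauss sum. -/

open NumberField NumberField.Units NumberField.InfinitePlace Filter Topology

namespace Pool.Agent.DCN

theorem ser_sum_range (p : ℕ) [Fact p.Prime] (f : ZMod p → ℤ) :
    ∑ j ∈ Finset.range p, f (j : ZMod p) = ∑ a : ZMod p, f a := by
  refine Finset.sum_bij' (fun (j : ℕ) _ => (j : ZMod p)) (fun a _ => a.val) ?_ ?_ ?_ ?_ ?_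
  · intro j _; exact Finset.mem_univ _
  · intro a _; exact Finset.mem_range.2 (ZMod.val_lt a)
  · intro j hj; exact ZMod.val_cast_of_lt (Finset.mem_range.1 hj)
  · intro a _; exact ZMod.natCast_zmod_val a
  · intro j _; rfl

theorem ser_sum_zero (p : ℕ) [Fact p.Prime] (hp2 : p ≠ 2) :
    ∑ j ∈ Finset.range p, legendreSym p (j : ℤ) = 0 := by
  have h1 : ∑ j ∈ Finset.range p, legendreSym p (j : ℤ) =
      ∑ j ∈ Finset.range p, quadraticChar (ZMod p) (j : ZMod p) := by
    refine Finset.sum_congr rfl fun j _ => ?_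
    unfold legendreSym
    push_cast
    rfl
  rw [h1, ser_sum_range p (fun a => quadraticChar (ZMod p) a)]
  exact quadraticChar_sum_zero (by rwa [ZMod.ringChar_zmod_n])

/-- row SER (from SIN and the Gauss sum) -/
theorem dcn_ser (p : ℕ) [Fact p.Prime] (hp4 : p % 4 = 3)
    (hg : ∀ n : ℕ, ∑ j ∈ Finset.range p,
      ((legendreSym p (j : ℤ) : ℤ) : ℝ) * Real.sin (n * (2 * Real.pi * j / p)) =
        ((legendreSym p (n : ℤ) : ℤ) : ℝ) * Real.sqrt p) :
    Tendsto (fun N : ℕ => ∑ n ∈ Finset.Icc 1 N, ((legendreSym p (n : ℤ) : ℤ) : ℝ) / n) atTop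
      (𝓝 (-(Real.pi / (p * Real.sqrt p)) *
        ∑ j ∈ Finset.range p, (j : ℝ) * ((legendreSym p (j : ℤ) : ℤ) : ℝ))) := by
  have hp : p.Prime := Fact.out
  have hp0 : (0 : ℝ) < p := by exact_mod_cast hp.pos
  have hs : 0 < Real.sqrt p := Real.sqrt_pos.2 hp0
  have hpi := Real.pi_pos
  have hsum0 : ∑ j ∈ Finset.range p, ((legendreSym p (j : ℤ) : ℤ) : ℝ) = 0 := by
    have := ser_sum_zero p (by omega)
    exact_mod_cast this
  -- the finite sums
  have hfin : ∀ N : ℕ, ∑ n ∈ Finset.Icc 1 N, ((legendreSym p (n : ℤ) : ℤ) : ℝ) / n =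
      (1 / Real.sqrt p) * ∑ j ∈ Finset.range p, ((legendreSym p (j : ℤ) : ℤ) : ℝ) *
        ∑ n ∈ Finset.Icc 1 N, Real.sin (n * (2 * Real.pi * j / p)) / n := by
    intro N
    have h1 : ∀ n : ℕ, ((legendreSym p (n : ℤ) : ℤ) : ℝ) / n =
        (1 / Real.sqrt p) * ∑ j ∈ Finset.range p, ((legendreSym p (j : ℤ) : ℤ) : ℝ) *
          (Real.sin (n * (2 * Real.pi * j / p)) / n) := by
      intro n
      have h2 : ∑ j ∈ Finset.range p, ((legendreSym p (j : ℤ) : ℤ) : ℝ) *
          (Real.sin (n * (2 * Real.pi * j / p)) / n) =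
          (((legendreSym p (n : ℤ) : ℤ) : ℝ) * Real.sqrt p) / n := by
        rw [← hg n, Finset.sum_div]
        exact Finset.sum_congr rfl fun j _ => by ring
      rw [h2]
      field_simp
    rw [Finset.sum_congr rfl fun n _ => h1 n, ← Finset.mul_sum, Finset.sum_comm]
    congr 1
    exact Finset.sum_congr rfl fun j _ => (Finset.mul_sum _ _ _).symm
  have hterm : ∀ j ∈ Finset.range p, Tendsto (fun N : ℕ => ((legendreSym p (j : ℤ) : ℤ) : ℝ) *
        ∑ n ∈ Finset.Icc 1 N, Real.sin (n * (2 * Real.pi * j / p)) / n) atTop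
      (𝓝 (((legendreSym p (j : ℤ) : ℤ) : ℝ) * ((Real.pi - 2 * Real.pi * j / p) / 2))) := by
    intro j hj
    rw [Finset.mem_range] at hj
    rcases Nat.eq_zero_or_pos j with h0 | h0
    · subst h0
      have hz : ((legendreSym p ((0 : ℕ) : ℤ) : ℤ) : ℝ) = 0 := by
        have : legendreSym p ((0 : ℕ) : ℤ) = 0 := by
          rw [legendreSym.eq_zero_iff]; simp
        rw [this]; simp
      simp only [hz, zero_mul]
      exact tendsto_const_nhds
    · refine Tendsto.const_mul _ (dcn_sin (2 * Real.pi * j / p) ?_ ?_)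
      · have : (0 : ℝ) < j := by exact_mod_cast h0
        positivity
      · rw [div_lt_iff₀ hp0]
        have : (j : ℝ) < p := by exact_mod_cast hj
        nlinarith
  have hlim := (tendsto_finsetSum (Finset.range p) hterm).const_mul (1 / Real.sqrt p)
  have hval : (1 / Real.sqrt p) * ∑ j ∈ Finset.range p, ((legendreSym p (j : ℤ) : ℤ) : ℝ) *
      ((Real.pi - 2 * Real.pi * j / p) / 2) = -(Real.pi / (p * Real.sqrt p)) *
        ∑ j ∈ Finset.range p, (j : ℝ) * ((legendreSym p (j : ℤ) : ℤ) : ℝ) := by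
    have h3 : ∑ j ∈ Finset.range p, ((legendreSym p (j : ℤ) : ℤ) : ℝ) *
        ((Real.pi - 2 * Real.pi * j / p) / 2) =
        (Real.pi / 2) * ∑ j ∈ Finset.range p, ((legendreSym p (j : ℤ) : ℤ) : ℝ) -
          (Real.pi / p) * ∑ j ∈ Finset.range p, (j : ℝ) * ((legendreSym p (j : ℤ) : ℤ) : ℝ) := by
      rw [Finset.mul_sum, Finset.mul_sum, ← Finset.sum_sub_distrib]
      exact Finset.sum_congr rfl fun j _ => by ring
    rw [h3, hsum0]
    field_simp
    ring
  rw [hval] at hlim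
  refine hlim.congr fun N => ?_
  exact (hfin N).symm

end Pool.Agent.DCN
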