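import Mathlib

/-!
# DCN: the primes above a split prime number
-/

set_option autoImplicit false

open NumberField

namespace Pool.Agent.DCN

private lemma split_zero {R : Type*} [CommRing R] [CharZero R] (c : ℕ) (ω : R)
    (hω : ω ^ 2 - ω + (c : R) = 0) (p : ℕ) (hp0 : 0 < p) (hc : 4 * c = 1 + p) (m n : ℤ)
    (h : (m : R) + (n : R) * ω = 0) : m = 0 ∧ n = 0 := by
  have h1 : (m : R) ^ 2 + m * n + (c : R) * n ^ 2 = 0 := by
    linear_combination ((m : R) - n * ω + n) * h + (n : R) ^ 2 * hω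
  have h2 : m ^ 2 + m * n + (c : ℤ) * n ^ 2 = 0 := by
    have : ((m ^ 2 + m * n + (c : ℤ) * n ^ 2 : ℤ) : R) = 0 := by
      push_cast
      exact h1
    exact_mod_cast this
  have hc' : 4 * (c : ℤ) = 1 + p := by exact_mod_cast hc
  have hp' : (0 : ℤ) < p := by exact_mod_cast hp0
  have h3 : (2 * m + n) ^ 2 + (p : ℤ) * n ^ 2 = 0 := by
    have : (p : ℤ) = 4 * c - 1 := by linarith
    rw [this]
    linear_combination 4 * h2
  have hn : n = 0 := by
    by_contra hn
    have h4 : 0 < n ^ 2 := by positivity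
    have h5 : 0 < (p : ℤ) * n ^ 2 := mul_pos hp' h4
    have h6 : 0 ≤ (2 * m + n) ^ 2 := sq_nonneg _
    linarith
  subst hn
  refine ⟨?_, rfl⟩
  have h7 : m ^ 2 = 0 := by simpa using h2
  exact pow_eq_zero_iff (two_ne_zero) |>.1 h7

private lemma split_hom {R : Type*} [CommRing R] [CharZero R] (c : ℕ) (ω : R)
    (hω : ω ^ 2 - ω + (c : R) = 0) (p q : ℕ) (hp0 : 0 < p) (hc : 4 * c = 1 + p)
    (hgen : ∀ x : R, ∃ m n : ℤ, x = (m : R) + (n : R) * ω) (r : ZMod q)
    (hr : r ^ 2 - r + (c : ZMod q) = 0) :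
    ∃ f : R →+* ZMod q, f ω = r := by
  choose A B hAB using hgen
  have huniq : ∀ (x : R) (m n : ℤ), x = (m : R) + (n : R) * ω → A x = m ∧ B x = n := by
    intro x m n h
    have h1 : ((A x - m : ℤ) : R) + ((B x - n : ℤ) : R) * ω = 0 := by
      push_cast
      linear_combination h - hAB x
    obtain ⟨h2, h3⟩ := split_zero c ω hω p hp0 hc _ _ h1
    constructor
    · linarith
    · linarith
  refine ⟨{ toFun := fun x => (A x : ZMod q) + (B x : ZMod q) * r
            map_one' := ?_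
            map_mul' := ?_
            map_zero' := ?_
            map_add' := ?_ }, ?_⟩
  · obtain ⟨h1, h2⟩ := huniq 1 1 0 (by simp)
    simp [h1, h2]
  · intro x y
    obtain ⟨h1, h2⟩ := huniq (x * y) (A x * A y - c * (B x * B y))
      (A x * B y + A y * B x + B x * B y) (by
        push_cast
        have hx := hAB x
        have hy := hAB y
        have : x * y = ((A x : R) + (B x : R) * ω) * ((A y : R) + (B y : R) * ω) := by
          rw [← hx, ← hy]
        rw [this]
        linear_combination ((B x : R) * (B y : R)) * hω)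
    change ((A (x * y) : ZMod q) + (B (x * y) : ZMod q) * r) =
      ((A x : ZMod q) + (B x : ZMod q) * r) * ((A y : ZMod q) + (B y : ZMod q) * r)
    rw [h1, h2]
    push_cast
    linear_combination -((B x : ZMod q) * (B y : ZMod q)) * hr
  · obtain ⟨h1, h2⟩ := huniq 0 0 0 (by simp)
    simp [h1, h2]
  · intro x y
    obtain ⟨h1, h2⟩ := huniq (x + y) (A x + A y) (B x + B y) (by
        push_cast
        linear_combination hAB x + hAB y)
    change ((A (x + y) : ZMod q) + (B (x + y) : ZMod q) * r) =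
      ((A x : ZMod q) + (B x : ZMod q) * r) + ((A y : ZMod q) + (B y : ZMod q) * r)
    rw [h1, h2]
    push_cast
    ring
  · obtain ⟨h1, h2⟩ := huniq ω 0 1 (by simp)
    change (A ω : ZMod q) + (B ω : ZMod q) * r = r
    rw [h1, h2]
    simp

private lemma split_le {R : Type*} [CommRing R] (q : ℕ) [Fact q.Prime] (ω : R)
    (hgen : ∀ x : R, ∃ m n : ℤ, x = (m : R) + (n : R) * ω) (f : R →+* ZMod q) (s : ℤ)
    (hf : f ω = s) (P' : Ideal R) (hP' : P'.IsPrime) (hq : (q : R) ∈ P')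
    (hs : ω - (s : R) ∈ P') : P' = RingHom.ker f := by
  have hsur : Function.Surjective f := by
    intro z
    refine ⟨((z.val : ℕ) : R), ?_⟩
    rw [map_natCast]
    exact ZMod.natCast_zmod_val z
  have hmax : (RingHom.ker f).IsMaximal := RingHom.ker_isMaximal_of_surjective f hsur
  symm
  refine hmax.eq_of_le hP'.ne_top ?_
  intro x hx
  obtain ⟨m, n, rfl⟩ := hgen x
  rw [RingHom.mem_ker, map_add, map_mul, map_intCast, map_intCast, hf] at hx
  have h1 : ((m + n * s : ℤ) : ZMod q) = 0 := by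
    push_cast
    exact hx
  rw [ZMod.intCast_zmod_eq_zero_iff_dvd] at h1
  obtain ⟨t, ht⟩ := h1
  have h2 : (m : R) + (n : R) * ω = (n : R) * (ω - (s : R)) + (t : R) * (q : R) := by
    have h3 : ((m + n * s : ℤ) : R) = ((q * t : ℤ) : R) := by rw [ht]
    push_cast at h3
    linear_combination h3
  rw [h2]
  exact P'.add_mem (P'.mul_mem_left _ hs) (P'.mul_mem_left _ hq)

private lemma split_norm {K : Type*} [Field K] [NumberField K] (q : ℕ) [Fact q.Prime]
    (f : 𝓞 K →+* ZMod q) : Ideal.absNorm (RingHom.ker f) = q := by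
  have hsur : Function.Surjective f := by
    intro z
    refine ⟨((z.val : ℕ) : 𝓞 K), ?_⟩
    rw [map_natCast]
    exact ZMod.natCast_zmod_val z
  rw [Ideal.absNorm_apply, Submodule.cardQuot_apply]
  rw [Nat.card_congr (RingHom.quotientKerEquivOfSurjective hsur).toEquiv, Nat.card_zmod]

theorem split (K : Type*) [Field K] [NumberField K] (p q : ℕ) [Fact p.Prime] [Fact q.Prime]
    (hp : p % 4 = 3) (hqp : q ≠ p) (hK : Module.finrank ℚ K = 2) (ω : 𝓞 K)
    (hω : ω ^ 2 - ω + (((1 + p) / 4 : ℕ) : 𝓞 K) = 0)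
    (hgen : ∀ x : 𝓞 K, ∃ m n : ℤ, x = (m : 𝓞 K) + (n : 𝓞 K) * ω) (r : ZMod q)
    (hr : r ^ 2 - r + (((1 + p) / 4 : ℕ) : ZMod q) = 0) :
    ∃ P Q : Ideal (𝓞 K), P ≠ Q ∧ P.IsPrime ∧ Q.IsPrime ∧ Ideal.absNorm P = q ∧
      Ideal.absNorm Q = q ∧
      ∀ P' : Ideal (𝓞 K), P'.IsPrime → (q : 𝓞 K) ∈ P' → P' = P ∨ P' = Q := by
  have hp0 : 0 < p := (Fact.out : p.Prime).pos
  have hc : 4 * ((1 + p) / 4) = 1 + p := by omega
  set c : ℕ := (1 + p) / 4 with hcdef
  have hr' : (1 - r) ^ 2 - (1 - r) + (c : ZMod q) = 0 := by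
    linear_combination hr
  obtain ⟨f, hf⟩ := split_hom c ω hω p q hp0 hc hgen r hr
  obtain ⟨g, hg⟩ := split_hom c ω hω p q hp0 hc hgen (1 - r) hr'
  have hne : r ≠ 1 - r := by
    intro h
    have h1 : (p : ZMod q) = 0 := by
      have h2 : ((4 * c : ℕ) : ZMod q) = ((1 + p : ℕ) : ZMod q) := by rw [hc]
      push_cast at h2
      linear_combination (-(2 * r - 1)) * h + 4 * hr - h2
    rw [ZMod.natCast_eq_zero_iff] at h1
    exact hqp ((Nat.prime_dvd_prime_iff_eq Fact.out Fact.out).1 h1)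
  set s : ℤ := (r.val : ℤ) with hs
  have hsr : (s : ZMod q) = r := by
    rw [hs, Int.cast_natCast]
    exact ZMod.natCast_zmod_val r
  refine ⟨RingHom.ker f, RingHom.ker g, ?_, RingHom.ker_isPrime f, RingHom.ker_isPrime g,
    split_norm q f, split_norm q g, ?_⟩
  · intro h
    have h1 : ω - (s : 𝓞 K) ∈ RingHom.ker f := by
      rw [RingHom.mem_ker, map_sub, map_intCast, hf, hsr, sub_self]
    rw [h, RingHom.mem_ker, map_sub, map_intCast, hg, hsr] at h1
    exact hne (sub_eq_zero.1 h1).symm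
  · intro P' hP' hq
    have h1 : ((s ^ 2 - s + c : ℤ) : ZMod q) = 0 := by
      push_cast
      rw [hsr]
      exact hr
    rw [ZMod.intCast_zmod_eq_zero_iff_dvd] at h1
    obtain ⟨t, ht⟩ := h1
    have h2 : (ω - (s : 𝓞 K)) * (ω - ((1 - s : ℤ) : 𝓞 K)) = (-(t : 𝓞 K)) * (q : 𝓞 K) := by
      have h3 : ((s ^ 2 - s + c : ℤ) : 𝓞 K) = ((q * t : ℤ) : 𝓞 K) := by rw [ht]
      push_cast at h3 ⊢
      linear_combination hω - h3
    have h4 : (ω - (s : 𝓞 K)) * (ω - ((1 - s : ℤ) : 𝓞 K)) ∈ P' := by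
      rw [h2]
      exact P'.mul_mem_left _ hq
    rcases hP'.mem_or_mem h4 with h5 | h5
    · left
      exact split_le q ω hgen f s (by rw [hf, hsr]) P' hP' hq h5
    · right
      exact split_le q ω hgen g (1 - s) (by rw [hg]; push_cast; rw [hsr]) P' hP' hq h5

end Pool.Agent.DCN
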