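import Pool.Agent.DCN.Defs

open NumberField NumberField.Units NumberField.InfinitePlace Filter Topology

namespace Pool.Agent.DCN

private theorem TOR_nonrat (K : Type) [Field K] [NumberField K] (p : ℕ) (hp : 0 < p) (a : K)
    (ha : a ^ 2 = -(p : K)) (r : ℚ) (hr : a = (r : K)) : False := by
  have h1 : ((r ^ 2 : ℚ) : K) = ((-(p : ℚ) : ℚ) : K) := by
    push_cast
    rw [← hr, ha]
  have h2 : r ^ 2 = -(p : ℚ) := by exact_mod_cast h1
  have h3 : (0 : ℚ) < p := by exact_mod_cast hp
  nlinarith [sq_nonneg r]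

private theorem TOR_key (K : Type) [Field K] [NumberField K] (hK : Module.finrank ℚ K = 2)
    (p : ℕ) (hp : 0 < p) (a : K) (ha : a ^ 2 = -(p : K)) (d : ℕ) (hd : 0 < d) (s : K)
    (hs : s ^ 2 = -(d : K)) : IsSquare (p * d) := by
  have hli : ¬ LinearIndependent ℚ ![(1 : K), a, s] := by
    intro h
    have := h.fintype_card_le_finrank
    rw [hK] at this
    simp at this
  rw [Fintype.not_linearIndependent_iff] at hli
  obtain ⟨g, hg, i, hi⟩ := hli
  rw [Fin.sum_univ_three] at hg
  obtain ⟨x, hx⟩ : ∃ x, g 0 = x := ⟨_, rfl⟩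
  obtain ⟨y, hy⟩ : ∃ y, g 1 = y := ⟨_, rfl⟩
  obtain ⟨z, hz⟩ : ∃ z, g 2 = z := ⟨_, rfl⟩
  rw [hx, hy, hz] at hg
  have hg' : (x : K) + (y : K) * a + (z : K) * s = 0 := by
    simpa [Algebra.smul_def] using hg
  have hxyz : ¬ (x = 0 ∧ y = 0 ∧ z = 0) := by
    rintro ⟨h0, h1, h2⟩
    apply hi
    fin_cases i
    · exact hx.trans h0
    · exact hy.trans h1
    · exact hz.trans h2
  have hrat : ∀ u v : ℚ, v ≠ 0 → (u : K) + (v : K) * a = 0 → False := by
    intro u v hv h
    have hv' : (v : K) ≠ 0 := by exact_mod_cast hv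
    apply TOR_nonrat K p hp a ha (-u / v)
    push_cast
    rw [eq_div_iff hv']
    linear_combination h
  by_cases hz0 : z = 0
  · exfalso
    rw [hz0] at hg'
    have h1 : (x : K) + (y : K) * a = 0 := by
      rw [← hg']; push_cast; ring
    by_cases hy0 : y = 0
    · rw [hy0] at h1
      have h2 : (x : K) = 0 := by
        rw [← h1]; push_cast; ring
      have h3 : x = 0 := by exact_mod_cast h2
      exact hxyz ⟨h3, hy0, hz0⟩
    · exact hrat x y hy0 h1
  · have h1 : (((x ^ 2 - p * y ^ 2 + d * z ^ 2 : ℚ)) : K) + ((2 * x * y : ℚ) : K) * a = 0 := by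
      push_cast
      have h2 : (z : K) * s = -((x : K) + (y : K) * a) := by linear_combination hg'
      have h3 : ((z : K) * s) ^ 2 = ((x : K) + (y : K) * a) ^ 2 := by rw [h2]; ring
      linear_combination (-1 : K) * h3 - (y : K) ^ 2 * ha + (z : K) ^ 2 * hs
    have h2 : x * y = 0 := by
      by_contra h
      exact hrat _ (2 * x * y) (by
        intro h4
        apply h
        linarith) h1
    have h3 : x ^ 2 - p * y ^ 2 + d * z ^ 2 = 0 := by
      have h4 : (2 * x * y : ℚ) = 0 := by linarith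
      rw [h4] at h1
      have h5 : (((x ^ 2 - p * y ^ 2 + d * z ^ 2 : ℚ)) : K) = 0 := by
        rw [← h1]
        push_cast
        ring
      exact_mod_cast h5
    have hdq : (0 : ℚ) < d := by exact_mod_cast hd
    have hz2 : 0 < z ^ 2 := by positivity
    rcases mul_eq_zero.1 h2 with h4 | h4
    · rw [h4] at h3
      have h5 : IsSquare (((p * d : ℕ)) : ℚ) := by
        refine ⟨p * y / z, ?_⟩
        push_cast
        field_simp
        linear_combination h3
      exact Rat.isSquare_natCast_iff.1 h5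
    · exfalso
      rw [h4] at h3
      have : 0 < (d : ℚ) * z ^ 2 := mul_pos hdq hz2
      nlinarith [sq_nonneg x]

/-- row TOR -/
theorem dcn_torsion (K : Type) [Field K] [NumberField K] (hK : Module.finrank ℚ K = 2)
    (p : ℕ) (hp : p.Prime) (hp3 : 3 < p) (a : K) (ha : a ^ 2 = -(p : K)) :
    torsionOrder K = 2 := by
  obtain ⟨μ, hμ⟩ : ∃ μ : torsion K, orderOf μ = torsionOrder K :=
    IsCyclic.exists_ofOrder_eq_natCard
  rw [← IsPrimitiveRoot.iff_orderOf, ← IsPrimitiveRoot.coe_submonoidClass_iff,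
    ← IsPrimitiveRoot.coe_units_iff] at hμ
  replace hμ := hμ.map_of_injective (FaithfulSMul.algebraMap_injective (𝓞 K) K)
  obtain ⟨w, hw⟩ : ∃ w, torsionOrder K = w := ⟨_, rfl⟩
  have hpos : 0 < w := hw ▸ torsionOrder_pos K
  have heven : Even w := hw ▸ even_torsionOrder K
  rw [hw] at hμ ⊢
  have htot : w.totient ≤ 2 := by
    have h := IsPrimitiveRoot.lcm_totient_le_finrank hμ hμ
      (Polynomial.cyclotomic.irreducible_rat (Nat.lcm_pos hpos hpos))
    rwa [Nat.lcm_self, hK] at h
  by_contra hne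
  have hcase : 4 ∣ w ∨ 3 ∣ w := by
    obtain ⟨m, hm⟩ := heven
    by_cases hme : Even m
    · left
      obtain ⟨t, ht⟩ := hme
      exact ⟨t, by omega⟩
    · right
      have hm1 : m ≠ 1 := by
        rintro rfl
        exact hne (by omega)
      obtain ⟨r, hr, hrm⟩ := Nat.exists_prime_and_dvd hm1
      have hrw : r ∣ w := hrm.trans ⟨2, by omega⟩
      have h1 : r.totient ≤ w.totient :=
        Nat.le_of_dvd (Nat.totient_pos.2 hpos) (Nat.totient_dvd_of_dvd hrw)
      rw [Nat.totient_prime hr] at h1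
      have h2 : r ≠ 2 := by
        rintro rfl
        exact hme (even_iff_two_dvd.2 hrm)
      have h3 : 2 ≤ r := hr.two_le
      have h4 : r = 3 := by omega
      rw [← h4]
      exact hrw
  rcases hcase with ⟨t, ht⟩ | ⟨t, ht⟩
  · have h4 := hμ.pow hpos (show w = t * 4 by rw [ht]; ring)
    have h2 := h4.pow (by norm_num) (show 4 = 2 * 2 by norm_num)
    have h1 := h2.eq_neg_one_of_two_right
    have h5 := TOR_key K hK p hp.pos a ha 1 one_pos _ (by rw [h1]; norm_num)
    rw [mul_one] at h5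
    exact hp.prime.irreducible.not_isSquare h5
  · have h4 := hμ.pow hpos (show w = t * 3 by rw [ht]; ring)
    obtain ⟨ω, hω⟩ : ∃ ω : K, ω = (algebraMap (𝓞 K) K) ((μ : (𝓞 K)ˣ) : 𝓞 K) ^ t := ⟨_, rfl⟩
    rw [← hω] at h4
    have h5 : ω ^ 3 = 1 := h4.pow_eq_one
    have h6 : ω ≠ 1 := h4.ne_one (by norm_num)
    have h7 : ω ^ 2 + ω + 1 = 0 := by
      have h8 : (ω - 1) * (ω ^ 2 + ω + 1) = 0 := by linear_combination h5
      exact (mul_eq_zero.1 h8).resolve_left (sub_ne_zero.2 h6)
    have h9 := TOR_key K hK p hp.pos a ha 3 (by norm_num) (2 * ω + 1) (by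
      push_cast
      linear_combination 4 * h7)
    obtain ⟨c, hc⟩ := h9
    have h10 : 3 ∣ c * c := ⟨p, by rw [← hc]; ring⟩
    have h11 : 3 ∣ c := by
      rcases (Nat.Prime.dvd_mul Nat.prime_three).1 h10 with h | h <;> exact h
    obtain ⟨e, he⟩ := h11
    have h12 : p = 3 * (e * e) := by
      rw [he] at hc
      have : p * 3 = (3 * (e * e)) * 3 := by rw [hc]; ring
      exact Nat.eq_of_mul_eq_mul_right (by norm_num) this
    have h13 : 3 ∣ p := ⟨e * e, h12⟩
    have h14 := (Nat.prime_dvd_prime_iff_eq Nat.prime_three hp).1 h13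
    omega

end Pool.Agent.DCN
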